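import Pool.Agent.CMD.PTB

/-!
# CMD/AUQ: uniqueness

PROOFS.  `ev_unique`: `Rt_succ`; `At n X X (h.take n) 0`, `At n X X (h'.take n) 0` (`At_root`), so `h.take n = h'.take n` by `IH`; `Vec_unique`: `(lev h n).1 = (lev h' n).1` and the same for the last
stages.  If `sgl` fails both codes are `0`.  If it holds, the two `W` agree (`maps_uniq`), so by `IH` the partner roots, `(pp h n).1 = (pp h' n).1` and the element numbers agree, by
`Vec_unique` also the vectors and last stages of the partners; so `pp h n = pp h' n`, and the codes are `encode (pp h n) + 1`.  So `lev h n = lev h' n`; `eq_app`.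
`At_unique`: induction on `n`.  `n = 0`: `Rt_zero`, `Lf 0 h = [([], [])]`, `k = k' = 0`, `maps_nil_iff`.
`n + 1`: `At_cases` for both.
(1) `At n Z X (h.take n) k`, `At n Z X' (h'.take n) k'`: by `IH` `X = X'`, `k = k'`; `ev_unique`.
(2) both second: `Pt n h X Z1 W X2`, `Pt n h' X' Z1' W' X2'`; by `IH` at `Z`: `X2 = X2'`, `(pp h n).1 = (pp h' n).1`, `k2 = k2'`.  `Vec_unique` (`Pt.vw`): the vectors of `X2` agree, so by
`Pt_x0` the element numbers agree, so `W = W'` (`At.fw`, `maps_uniq`), so `Z1 = Z1'` (`TD.inj`); by `IH` (`Pt.az`) `X = X'`; `ev_unique` gives `h = h'`, so `k = k'`.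
(3) mixed (two symmetric cases): `At n Z X (h.take n) k` and `Pt n h' X' Z1 W1 X2'`, `lnk (lev h' n)`, `At n Z X2' (pp h' n).1 k2`.  By `IH`: `X = X2'`, `h.take n = (pp h' n).1`.  By `Vec_unique`
`(lev h n).1 = (pp h' n).2.1 =: A`, so `sgl A`, `x0 A` is odd, `x0 A = 2 * m + 1` with `m = (pp h' n).2.2.2` (`Pt_x0`).  By `exists_Pt`: `Pt n h X Z2 W2 X3` with `At n Z2 X (h.take n) m`,
so `Z2 = W1` (`maps_uniq`), `TD n W2 Z2` (`Pt.ti`), `TD n Z1 W1`, so `W2 = Z1` (`TD.inj`).  `At n W2 X3 (pp h n).1 ..` and `At n Z1 X' (h'.take n) ..`: by `IH` `X3 = X'`,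
`(pp h n).1 = h'.take n`; by `Vec_unique` `(pp h n).2.1 = (lev h' n).1`, which is `sgl` and has even `x0`.  So `snk (lev h n) = true` (`snk_iff`), against `Rt_succ`.
`Rt_unique`: `At_root`, `At_unique`.
-/

set_option autoImplicit false

namespace Pool.Agent.CMD

open Encodable Nat.Partrec Pool.Agent.H19 Pool.Agent.AEI Pool.Agent.CMG

variable {n k k' : ℕ} {h h' : Hst} {X X' Z : ℕ → Bool}

theorem ev_unique (IH : ∀ (Z X X' : ℕ → Bool) (h h' : Hst) (k k' : ℕ), At n Z X h k → At n Z X' h' k' →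
    X = X' ∧ h = h' ∧ k = k') (hr : Rt (n + 1) h X) (hr' : Rt (n + 1) h' X) : h = h' := by
  obtain ⟨⟨hl, hrt⟩, hv, hns, hs⟩ := Rt_succ.1 hr
  obtain ⟨⟨hl', hrt'⟩, hv', hns', hs'⟩ := Rt_succ.1 hr'
  have et : h.take n = h'.take n := (IH X X X _ _ 0 0 (At_root hrt) (At_root hrt')).2.1
  rw [← et] at hv'
  obtain ⟨eA, ek⟩ := Vec_unique hv hv'
  have er : (lev h n).2.2 = (lev h' n).2.2 := by
    by_cases hsg : sgl (lev h n).1 = true
    · obtain ⟨c1, -, W, X2, m1, a1, v1⟩ := hs hsg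
      obtain ⟨c2, -, W', X2', m2, a2, v2⟩ := hs' (by rw [← eA]; exact hsg)
      rw [← et, ← eA] at m2
      have eW : W = W' := maps_uniq m1 m2
      rw [← eW] at a2
      obtain ⟨e1, e2, e3⟩ := IH _ _ _ _ _ _ _ a1 a2
      rw [← e1, ← e2] at v2
      obtain ⟨e4, e5⟩ := Vec_unique v1 v2
      have e6 : pp h n = pp h' n := Prod.ext e2 (Prod.ext e4 (Prod.ext e5 e3))
      rw [c1, c2, e6]
    · have hsf : sgl (lev h n).1 = false := by simpa using hsg
      rw [hns hsf, hns' (by rw [← eA]; exact hsf)]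
  have el : lev h n = lev h' n := Prod.ext eA (Prod.ext ek er)
  calc h = h.take n ++ [lev h n] := eq_app hl
    _ = h'.take n ++ [lev h' n] := by rw [et, el]
    _ = h' := (eq_app hl').symm

private theorem auq_mixed {k2 : ℕ} {X2' Z1 W1 : ℕ → Bool}
    (IH : ∀ (Z X X' : ℕ → Bool) (h h' : Hst) (k k' : ℕ), At n Z X h k → At n Z X' h' k' →
    X = X' ∧ h = h' ∧ k = k') (hr : Rt (n + 1) h X) (a : At n Z X (h.take n) k) (hl : lnk (lev h' n) = true)
    (hP : Pt n h' X' Z1 W1 X2') (a' : At n Z X2' (pp h' n).1 k2) : False := by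
  obtain ⟨-, hv, -, hs⟩ := Rt_succ.1 hr
  obtain ⟨eX, eh, -⟩ := IH _ _ _ _ _ _ _ a a'
  have vw := hP.vw
  rw [← eX, ← eh] at vw
  obtain ⟨eA, -⟩ := Vec_unique hv vw
  obtain ⟨l1, l2, l3, l4⟩ := lnk_iff.1 hl
  have l3' : sgl (pp h' n).2.1 = true := l3
  obtain ⟨t1, x1⟩ := Pt_x0 hP hl
  have s1 : sgl (lev h n).1 = true := by rw [eA]; exact l3'
  have x2 : x0 (lev h n).1 = 2 * (pp h' n).2.2.2 + 1 := by rw [eA]; exact x1
  obtain ⟨Z2, W2, X3, P2⟩ := exists_Pt hr s1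
  have f1 := P2.az.fw
  have f2 := hP.aw.fw
  have x3 : x0 (lev h n).1 / 2 = (pp h' n).2.2.2 := by omega
  rw [x3] at f1
  rw [← eX, ← eh] at f2
  have eZ : Z2 = W1 := maps_uniq f1 f2
  have t2 := P2.ti (by omega)
  rw [eZ] at t2
  have eW : W2 = Z1 := TD.inj t2 t1
  have a2 := P2.aw
  rw [eW] at a2
  obtain ⟨e3, e4, -⟩ := IH _ _ _ _ _ _ _ a2 hP.az
  have v1 := P2.vw
  rw [e3, e4] at v1
  obtain ⟨e5, -⟩ := Vec_unique v1 hP.vz
  have hk : snk (lev h n) = true := by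
    rw [snk_iff]
    refine ⟨s1, by omega, ?_, ?_⟩
    · show sgl (pp h n).2.1 = true
      rw [e5]; exact l1
    · show x0 (pp h n).2.1 % 2 = 0
      rw [e5]; exact l2
  have hk' := (hs s1).2.1
  rw [hk] at hk'
  exact absurd hk' (by simp)

theorem At_unique (ha : At n Z X h k) (ha' : At n Z X' h' k') : X = X' ∧ h = h' ∧ k = k' := by
  induction n generalizing Z X X' h h' k k' with
  | zero =>
    have e1 : h = [] := Rt_zero.1 ha.rt
    have e2 : h' = [] := Rt_zero.1 ha'.rt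
    subst e1 e2
    have l1 : k < 1 := ha.lt
    have l2 : k' < 1 := ha'.lt
    have k1 : k = 0 := by omega
    have k2 : k' = 0 := by omega
    subst k1 k2
    have f1 := ha.fw
    have f2 := ha'.fw
    rw [el_zero] at f1 f2
    exact ⟨(maps_nil_iff.1 f1).trans (maps_nil_iff.1 f2).symm, rfl, rfl⟩
  | succ n ih =>
    have IH : ∀ (Z X X' : ℕ → Bool) (h h' : Hst) (k k' : ℕ), At n Z X h k → At n Z X' h' k' →
      X = X' ∧ h = h' ∧ k = k' := fun _ _ _ _ _ _ _ a b => ih a b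
    rcases At_cases ha with a1 | ⟨k2, Z1, W, X2, hl, ek, hP, a1⟩ <;>
      rcases At_cases ha' with a1' | ⟨k2', Z1', W', X2', hl', ek', hP', a1'⟩
    · obtain ⟨eX, -, ek⟩ := ih a1 a1'
      subst eX
      exact ⟨rfl, ev_unique IH ha.rt ha'.rt, ek⟩
    · exact (auq_mixed IH ha.rt a1 hl' hP' a1').elim
    · exact (auq_mixed IH ha'.rt a1' hl hP a1).elim
    · obtain ⟨e1, e2, e3⟩ := ih a1 a1'
      have v2 := hP'.vw
      rw [← e1, ← e2] at v2
      obtain ⟨e4, -⟩ := Vec_unique hP.vw v2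
      obtain ⟨t1, x1⟩ := Pt_x0 hP hl
      obtain ⟨t2, x2⟩ := Pt_x0 hP' hl'
      rw [← e4] at x2
      have e5 : (pp h n).2.2.2 = (pp h' n).2.2.2 := by omega
      have w1 := hP.aw.fw
      have w2 := hP'.aw.fw
      rw [← e1, ← e2, ← e5] at w2
      have eW : W = W' := maps_uniq w1 w2
      rw [← eW] at t2
      have eZ : Z1 = Z1' := TD.inj t1 t2
      have az' := hP'.az
      rw [← eZ] at az'
      obtain ⟨eX, -, -⟩ := ih hP.az az'
      subst eX
      have eh := ev_unique IH ha.rt ha'.rt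
      subst eh
      exact ⟨rfl, rfl, by rw [ek, ek', e3]⟩

theorem Rt_unique (hr : Rt n h X) (hr' : Rt n h' X) : h = h' :=
  (At_unique (At_root hr) (At_root hr')).2.1

end Pool.Agent.CMD
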