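import Pool.Agent.CMD.ACT
import Pool.Agent.CMD.AUQ
import Pool.Agent.CMG.GPB

/-!
# CMD/GRW: the system is good

An active pointer at a sequence which is a root at stage `m` has a stage at least `m`; the names of the pointers grow
along chains.
-/

set_option autoImplicit false

namespace Pool.Agent.CMD

open Encodable Nat.Partrec Pool.Agent.H19 Pool.Agent.AEI Pool.Agent.CMG

variable {m p p1 p2 : ℕ} {g : Hst} {X Y Z : ℕ → Bool}

/-- The position of the sender of the pointer `p`. -/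
def up (p : ℕ) : ℕ := PP (ns p) (pp (hh p) (ns p)).1

theorem act_not_root (hq : Q dsys p Y) (hr : Rt m g Y) : m ≤ ns p := by
  by_contra hcon
  rw [not_le] at hcon
  obtain ⟨X, Z, W, -, -, -, -, -, -, -, hAt⟩ := act hq
  have hr' := Rt_take hr (Nat.succ_le_of_lt hcon)
  obtain ⟨-, -, h3⟩ := At_unique hAt (At_root hr')
  have := Lf_pos (ns p) ((hh p).take (ns p))
  omega

private lemma name_eq (hq : Q dsys p Y) : p = PP (ns p + 1) (hh p) := by
  obtain ⟨X, Z, W, -, -, -, -, -, h1, h2, -⟩ := act hq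
  have h3 : Pos (hh p) = PP (hh p).length (hh p) := rfl
  rw [h2, h1] at h3
  exact h3

theorem dsys_total (p : ℕ) (X : ℕ → Bool) (hq : Q dsys p X) : ∃ Z, Maps (dsys.F p) X Z ∧ Maps (dsys.G p) Z X := by
  obtain ⟨X1, Z, W, -, h1, h2, -⟩ := act hq
  exact ⟨X1, h1, h2⟩

theorem dsys_uni (p p' : ℕ) (X : ℕ → Bool) (hq : Q dsys p X) (hq' : Q dsys p' X) : p = p' := by
  obtain ⟨X1, Z, W, -, -, -, hP, -, h1, -, hA⟩ := act hq
  obtain ⟨X1', Z', W', -, -, -, hP', -, h1', -, hA'⟩ := act hq'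
  have e1 := act_not_root hq' hP.aw.rt
  have e2 := act_not_root hq hP'.aw.rt
  have e : ns p' = ns p := le_antisymm e2 e1
  rw [e] at hA'
  obtain ⟨-, h3, -⟩ := At_unique hA hA'
  rw [← h1, ← h1', h3]

theorem step_lt (h1 : Q dsys p1 X) (h2 : Maps (dsys.F p1) X Y) (h3 : Q dsys p2 Y) :
    p1 ≤ up p2 ∧ ns p1 < ns p2 := by
  obtain ⟨X1, Z, W, hr, hF, -, -, -, -, -, -⟩ := act h1
  have e := maps_unique (dsys.monoF p1) hF h2
  rw [e] at hr
  have h4 := act_not_root h3 hr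
  obtain ⟨X2, Z2, W2, -, -, -, hP, -, -, -, -⟩ := act h3
  have h5 := Rt_take hP.aw.rt h4
  have h6 := Rt_unique hr h5
  refine ⟨?_, h4⟩
  calc p1 = PP (ns p1 + 1) (hh p1) := name_eq h1
    _ = PP (ns p1 + 1) ((pp (hh p2) (ns p2)).1.take (ns p1 + 1)) := by rw [← h6]
    _ = PP (ns p1 + 1) (pp (hh p2) (ns p2)).1 := PP_take le_rfl
    _ ≤ up p2 := PP_mono h4

theorem up_lt (hq : Q dsys p Y) : up p < p := by
  have h1 := PP_pp_lt (ns p) (hh p)
  rw [← name_eq hq] at h1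
  exact h1

theorem chain_up {a : List ℕ} (hc : Chain dsys a X Z) (hq : Q dsys p Z) :
    (∃ p2, Q dsys p2 X ∧ (p2 = p ∨ p2 ≤ up p) ∧ ns p2 + a.length ≤ ns p) ∧ ∀ x ∈ a, x ≤ up p := by
  induction hc with
  | nil X => exact ⟨⟨p, hq, Or.inl rfl, by simp⟩, by simp⟩
  | @cons p1 a X Y Z h1 h2 _ ih =>
    obtain ⟨⟨p2, q2, e, l⟩, hb⟩ := ih hq
    obtain ⟨s1, s2⟩ := step_lt h1 h2 q2
    have h4 : p1 ≤ up p := by
      rcases e with e | e
      · rw [← e]; exact s1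
      · exact (s1.trans (up_lt q2).le).trans e
    refine ⟨⟨p1, h1, Or.inr h4, ?_⟩, ?_⟩
    · rw [List.length_cons]; omega
    · intro x hx
      rcases List.mem_cons.1 hx with h5 | h5
      · rw [h5]; exact h4
      · exact hb x h5

theorem dsys_gr (a : List ℕ) (X Z : ℕ → Bool) (p : ℕ) (hc : Chain dsys a X Z) (hq : Q dsys p Z) (t : ℕ)
    (ht : t ≤ 1) : rq t a a.length < p := by
  obtain ⟨⟨p2, -, -, h1⟩, h2⟩ := chain_up hc hq
  have h3 : ns p ≤ up p := le_PP _ _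
  have h4 := bd_le_PP (ns p) (hh p)
  rw [← name_eq hq] at h4
  refine lt_of_lt_of_le (rq_lt_bd ht (fun x hx => (h2 x hx).trans (le_max_right _ _)) ?_) h4
  exact le_trans (by omega : a.length ≤ up p) (le_max_right _ _)

theorem good_dsys : GoodSys dsys := ⟨dsys_total, dsys_uni, dsys_gr⟩

end Pool.Agent.CMD
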