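import Pool.Agent.CMD.Defs
import Pool.Agent.CMG.GUV

/-!
# CMD/IDX: an index for a test

PROOF.  Let `H σ = (List.range (|σ| + 1)).filter fun s => t (σ.take s)` (only its length matters; it is monotone in `σ`, and `|H (pre X s)|` is unbounded iff `t` is true infinitely often along `X`).
`exists_code_of_partrec` (H19/Codes) for the partial function `(x, σ) ↦ 1` if `x < |H σ|`, undefined otherwise (`Computable.cond` as in `exists_code_dom`, H19/Post): a code `c` with
`c.eval (encode (x, σ)) = ..`.  Put `e = encode c`, so `fn e = zf c` (`Denumerable.ofNat_encode`).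
Right to left: if `t` is true infinitely often then `CodeComputes c X Y` for `Y = fun _ => true` (unfold; the values are `1`), `zf_of_computes` and `maps_of` (as `guv_maps` in CMG/GUV).
Left to right: if `|zf c (pre X s)|` is unbounded, then for every `x` some `hit v c x (pre X s) = true` occurs (definition of `zst`: the string grows from length `x` to `x + 1` only at a hit; induction
on `s`), so by `exists_hit` `c.eval (encode (x, pre X s'))` is defined for some `s'`, so `x < |H (pre X s')|`.
-/

set_option autoImplicit false

namespace Pool.Agent.CMD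

open Encodable Nat.Partrec Pool.Agent.H19 Pool.Agent.AEI Pool.Agent.CMG

private def icn (t : List Bool → Bool) (σ : List Bool) : ℕ :=
  ((List.range (σ.length + 1)).filter fun s => t (σ.take s)).length

private theorem icn_pre (t : List Bool → Bool) (Q : ℕ → Bool) (s : ℕ) :
    icn t (pre Q s) = ((List.range (s + 1)).filter fun i => t (pre Q i)).length := by
  unfold icn
  rw [pre_length]
  congr 1
  apply List.filter_congr
  intro i hi
  have := List.mem_range.1 hi
  rw [pre_take Q (by omega)]

private theorem icn_succ (t : List Bool → Bool) (Q : ℕ → Bool) (s : ℕ) :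
    icn t (pre Q (s + 1)) = icn t (pre Q s) + if t (pre Q (s + 1)) = true then 1 else 0 := by
  rw [icn_pre, icn_pre, List.range_succ, List.filter_append, List.length_append]
  congr 1
  by_cases h : t (pre Q (s + 1)) = true <;> simp [h]

private theorem icn_unb (t : List Bool → Bool) (Q : ℕ → Bool) :
    (∀ N, ∃ s ≥ N, t (pre Q s) = true) ↔ ∀ L, ∃ s, L < icn t (pre Q s) := by
  have hm : Monotone fun s => icn t (pre Q s) :=
    monotone_nat_of_le_succ fun s => by rw [icn_succ]; omega
  constructor
  · intro h L
    induction L with
    | zero =>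
      obtain ⟨s, hs, h1⟩ := h 1
      obtain ⟨k, rfl⟩ : ∃ k, s = k + 1 := ⟨s - 1, by omega⟩
      refine ⟨k + 1, ?_⟩
      rw [icn_succ, if_pos h1]
      omega
    | succ L ih =>
      obtain ⟨s, hs⟩ := ih
      obtain ⟨s', h1, h2⟩ := h (s + 1)
      obtain ⟨k, rfl⟩ : ∃ k, s' = k + 1 := ⟨s' - 1, by omega⟩
      refine ⟨k + 1, ?_⟩
      rw [icn_succ, if_pos h2]
      have h3 : icn t (pre Q s) ≤ icn t (pre Q k) := hm (show s ≤ k by omega)
      omega
  · intro h
    by_contra hc
    push Not at hc
    obtain ⟨N, hN⟩ := hc
    have h1 : ∀ k, icn t (pre Q (N + k)) ≤ icn t (pre Q N) := by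
      intro k
      induction k with
      | zero => exact le_rfl
      | succ k ih =>
        have h2 := hN (N + k + 1) (by omega)
        rw [show N + (k + 1) = N + k + 1 by omega, icn_succ, if_neg h2]
        omega
    obtain ⟨s, hs⟩ := h (icn t (pre Q N))
    have h4 : icn t (pre Q s) ≤ icn t (pre Q N) := by
      rcases le_total s N with h5 | h5
      · exact hm h5
      · obtain ⟨k, rfl⟩ := Nat.exists_eq_add_of_le h5
        exact h1 k
    omega

private theorem comp_icn {t : List Bool → Bool} (ht : Computable t) : Computable (icn t) := by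
  have hg : Computable₂ fun (σ : List Bool) (s : ℕ) => t (σ.take s) :=
    ht.comp (comp_take Computable.snd Computable.fst)
  exact Computable.list_length.comp
    (comp_list_filter (comp_range (Computable.succ.comp Computable.list_length)) hg)

private theorem idx_hit {t : List Bool → Bool} {c : Code}
    (hc : ∀ n σ, c.eval (encode (n, σ)) = cond (decide (n < icn t σ)) (Part.some 1) Part.none)
    {X : ℕ → Bool} {x v s : ℕ} (h : hit v c x (pre X s) = true) : ∃ s', x < icn t (pre X s') := by
  obtain ⟨s', hs⟩ := exists_hit.2 ⟨s, h⟩
  refine ⟨s', ?_⟩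
  rw [hc] at hs
  by_contra hx
  rw [decide_eq_false hx] at hs
  simp at hs

private theorem idx_lt {t : List Bool → Bool} {c : Code}
    (hc : ∀ n σ, c.eval (encode (n, σ)) = cond (decide (n < icn t σ)) (Part.some 1) Part.none)
    {X : ℕ → Bool} {x : ℕ} (s : ℕ) (h : x < (zf c (pre X s)).length) : ∃ s', x < icn t (pre X s') := by
  induction s with
  | zero =>
    have := zf_pre_length_le c X 0
    omega
  | succ s ih =>
    by_cases h1 : x < (zf c (pre X s)).length
    · exact ih h1
    · rw [zf_pre_succ] at h
      have h2 := zst_length_le c (zf c (pre X s)) (pre X s)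
      have h3 : (zf c (pre X s)).length = x := by omega
      unfold zst at h
      by_cases h4 : hit 1 c (zf c (pre X s)).length (pre X s) = true
      · rw [h3] at h4
        exact idx_hit hc h4
      · rw [if_neg h4] at h
        by_cases h5 : hit 0 c (zf c (pre X s)).length (pre X s) = true
        · rw [h3] at h5
          exact idx_hit hc h5
        · rw [if_neg h5] at h
          exact absurd h h1

theorem exists_idx {t : List Bool → Bool} (ht : Computable t) : ∃ e, ∀ X : ℕ → Bool,
    (∃ V, Maps (fn e) X V) ↔ ∀ N, ∃ s ≥ N, t (pre X s) = true := by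
  have h1 : Partrec₂ (fun (n : ℕ) (σ : List Bool) =>
      cond (decide (n < icn t σ)) (Part.some 1 : Part ℕ) Part.none) := by
    have h2 : Computable fun p : ℕ × List Bool => decide (p.1 < icn t p.2) :=
      comp_decLt Computable.fst ((comp_icn ht).comp Computable.snd)
    exact Partrec.cond h2 (Computable.const 1) Partrec.none
  obtain ⟨c, hc⟩ := exists_code_of_partrec₂ h1
  refine ⟨encode c, fun X => ?_⟩
  have e : fn (encode c) = zf c := by
    funext σ
    rw [fn, Denumerable.ofNat_encode]
  rw [e, icn_unb t X]
  constructor
  · rintro ⟨V, hV⟩ L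
    obtain ⟨s, hs⟩ := hV L
    have h3 : L < (zf c (pre X s)).length := by
      rw [List.getElem?_eq_some_iff] at hs
      exact hs.1
    exact idx_lt hc s h3
  · intro h
    have h2 : CodeComputes c X fun _ => true := by
      refine ⟨fun n s v hv => ?_, fun n => ?_⟩
      · rw [hc] at hv
        by_cases hn : n < icn t (pre X s)
        · rw [decide_eq_true hn] at hv
          simpa using hv
        · rw [decide_eq_false hn] at hv
          simp at hv
      · obtain ⟨s, hs⟩ := h n
        refine ⟨s, ?_⟩
        rw [hc, decide_eq_true hs]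
        simp
    obtain ⟨h3, h4⟩ := zf_of_computes h2
    exact ⟨_, maps_of h3 h4⟩

end Pool.Agent.CMD
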