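import Pool.Agent.CMD.MRG
import Pool.Agent.CMD.GRW
import Pool.Agent.CMD.IDX
import Pool.Agent.CMG.PTR

/-!
# CMD/FIN: the final theorem for the uniquely describable degrees

PROOF.  `pointer good_dsys` (CMG/PTR) gives `r` and the first three properties.  Let `t`, `Z` be given, `Y` equivalent to `Z`.  `exists_idx`: `c`; `exists_fn_of_red` (CMG/GUV): `i`, `j` with
`Maps (fn i) Z Y`, `Maps (fn j) Y Z`.  `n = Nat.pair c (Nat.pair i j)` (`sc n = c`, `si n = i`, `sj n = j` by `Nat.unpair_pair`): `TD n Z Y`.  `merge_one`: chains from `Z` and `Y` to the same `R`.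
-/

set_option autoImplicit false

namespace Pool.Agent.CMD

open Encodable Nat.Partrec Pool.Agent.H19 Pool.Agent.AEI Pool.Agent.CMG

theorem main_def : ∃ r : Code,
    (∀ X n, (∃ s, (r.eval (encode (n, pre X s))).Dom) ↔ WX dsys X n = true) ∧
    (∀ X, ¬ TuringReducible (chi (WX dsys X)) (chi X)) ∧
    (∀ X, ¬ TuringReducible (chi (JJ X)) (chi (WX dsys X))) ∧
    ∀ (t : List Bool → Bool) (Z : ℕ → Bool), Computable t → (∀ N, ∃ s ≥ N, t (pre Z s) = true) →
      (∀ Z', TuringReducible (chi Z') (chi Z) → TuringReducible (chi Z) (chi Z') →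
        (∀ N, ∃ s ≥ N, t (pre Z' s) = true) → Z' = Z) →
      ∀ Y, TuringReducible (chi Y) (chi Z) → TuringReducible (chi Z) (chi Y) →
        TuringReducible (chi (WX dsys Y)) (chi (WX dsys Z)) ∧ TuringReducible (chi (WX dsys Z)) (chi (WX dsys Y)) := by
  obtain ⟨r, h1, h2, h3, h4⟩ := pointer good_dsys
  refine ⟨r, h1, h2, h3, ?_⟩
  intro t Z ht hZ hu Y hY hY'
  obtain ⟨c, hc⟩ := exists_idx ht
  obtain ⟨i, hi⟩ := exists_fn_of_red hY
  obtain ⟨j, hj⟩ := exists_fn_of_red hY'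
  have e1 : sc (Nat.pair c (Nat.pair i j)) = c := by simp [sc]
  have e2 : si (Nat.pair c (Nat.pair i j)) = i := by simp [si]
  have e3 : sj (Nat.pair c (Nat.pair i j)) = j := by simp [sj]
  have hT : TD (Nat.pair c (Nat.pair i j)) Z Y :=
    ⟨by rw [e2]; exact hi, by rw [e3]; exact hj, by rw [e1]; exact (hc Z).2 hZ⟩
  obtain ⟨a, b, R, ha, hb⟩ := merge_one hT (by
    rw [e1]
    intro Z' hV k1 k2
    exact hu Z' k1 k2 ((hc Z').1 hV))
  obtain ⟨f1, f2⟩ := h4 a Z R ha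
  obtain ⟨f3, f4⟩ := h4 b Y R hb
  exact ⟨f3.trans f2, f1.trans f4⟩

end Pool.Agent.CMD
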