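import Pool.Agent.CMD.PI2
import Pool.Agent.CMG.GUV

/-!
# CMD/LIM: singletons and jumps

`P2 P`: `P` is the only sequence which satisfies a computable sequence of tests infinitely often (a lightface Π_2 singleton).
PROOFS.  `P2_false`: `u m σ = !(σ.getD m true)`.  `P2_zj`: `jt_iff`, `comp_jt` (AEI/JMP) with `u m σ = jt n m σ`.
`P2_limit`: let `apj σ = (List.range |σ|).map fun p => jap p σ`; for every `u` there is `s0` with `pre (JJ P) u <+: apj (pre P s)` for all `s ≥ s0` (`JJ_iff`; `jap` is monotone), and `exists_fn_of_red` (CMG/GUV)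
gives `e` with `Maps (fn e) (JJ P) X`.  So for every `x`: `(fn e (apj (pre P s)))[x]? = some (X x)` for all large `s` (`fn_mono`).  For a sequence `R` write `ev σ`, `od σ` for the strings of the
entries of `σ` at even and odd places (`ev (pre R s) = pre (fun i => R (2 * i)) ((s + 1) / 2)`, `od (pre R s) = pre (fun i => R (2 * i + 1)) (s / 2)`).  Tests for `jn P X`:
`v (2 * m) σ = u m (ev σ)`, `v (2 * x + 1) σ = decide ((fn e (apj (ev σ)))[x]? = (od σ)[x]?) && decide (x < |od σ|)`.  If `R` satisfies all tests infinitely often then its even part is `P` (every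
initial segment of the even part occurs as `ev (pre R s)`, each for at most two `s`), and its odd part is `X`; and conversely.  So `P2 (jn P X)`.
-/

set_option autoImplicit false

namespace Pool.Agent.CMD

open Encodable Nat.Partrec Pool.Agent.H19 Pool.Agent.AEI Pool.Agent.CMG

def P2 (P : ℕ → Bool) : Prop := ∃ u : ℕ → List Bool → Bool, Computable₂ u ∧
  ∀ Q : ℕ → Bool, (∀ m N, ∃ s ≥ N, u m (pre Q s) = true) ↔ Q = P

theorem P2_zj (n : ℕ) : P2 (zj n) := by
  refine ⟨fun m σ => jt n m σ, comp_jt (Computable.const n) Computable.fst Computable.snd, fun Q => ?_⟩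
  exact jt_iff

private def apj (σ : List Bool) : List Bool := (List.range σ.length).map fun p => jap p σ

private def evs (σ : List Bool) : List Bool :=
  (List.range ((σ.length + 1) / 2)).map fun i => σ.getD (2 * i) false

private def ods (σ : List Bool) : List Bool :=
  (List.range (σ.length / 2)).map fun i => σ.getD (2 * i + 1) false

private theorem evs_pre (R : ℕ → Bool) (s : ℕ) :
    evs (pre R s) = pre (fun i => R (2 * i)) ((s + 1) / 2) := by
  unfold evs
  rw [pre_length]
  unfold pre
  apply List.map_congr_left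
  intro i hi
  have := List.mem_range.1 hi
  exact pre_getD R (by omega) false

private theorem ods_pre (R : ℕ → Bool) (s : ℕ) :
    ods (pre R s) = pre (fun i => R (2 * i + 1)) (s / 2) := by
  unfold ods
  rw [pre_length]
  unfold pre
  apply List.map_congr_left
  intro i hi
  have := List.mem_range.1 hi
  exact pre_getD R (by omega) false

private theorem apj_pre (P : ℕ → Bool) (U : ℕ) : ∃ s0, ∀ s ≥ s0, pre (JJ P) U <+: apj (pre P s) := by
  have h1 : ∀ p, ∃ s0, ∀ s ≥ s0, jap p (pre P s) = JJ P p := by
    intro p
    rcases hb : JJ P p with _ | _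
    · exact ⟨0, fun s _ => JJ_false hb s⟩
    · obtain ⟨s0, hs⟩ := JJ_iff.1 hb
      exact ⟨s0, fun s h => jap_mono (pre_mono P h) hs⟩
  choose f hf using h1
  refine ⟨max U ((Finset.range U).sup f), fun s hs => ?_⟩
  have h2 : U ≤ s := le_trans (le_max_left _ _) hs
  have h3 : (apj (pre P s)).take U = pre (JJ P) U := by
    unfold apj
    rw [pre_length, ← List.map_take, List.take_range, min_eq_left h2]
    unfold pre
    apply List.map_congr_left
    intro p hp
    have h4 := List.mem_range.1 hp
    refine hf p s (le_trans ?_ (le_trans (le_max_right _ _) hs))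
    exact Finset.le_sup (f := f) (Finset.mem_range.2 h4)
  rw [← h3]
  exact List.take_prefix _ _

private theorem gel_pre {σ τ : List Bool} (h : σ <+: τ) {x : ℕ} {b : Bool} (hx : σ[x]? = some b) :
    τ[x]? = some b := by
  obtain ⟨ρ, rfl⟩ := h
  rw [List.getElem?_append_left]
  · exact hx
  · rw [List.getElem?_eq_some_iff] at hx
    exact hx.1

private theorem apj_lim {P X : ℕ → Bool} {e : ℕ} (he : Maps (fn e) (JJ P) X) (x : ℕ) :
    ∃ s0, ∀ s ≥ s0, (fn e (apj (pre P s)))[x]? = some (X x) := by
  obtain ⟨U, hU⟩ := he x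
  obtain ⟨s0, hs⟩ := apj_pre P U
  exact ⟨s0, fun s h => gel_pre (fn_mono e (hs s h)) hU⟩

private def lv (u : ℕ → List Bool → Bool) (e : ℕ) (n : ℕ) (σ : List Bool) : Bool :=
  if decide (n % 2 = 0) then u (n / 2) (evs σ)
  else decide ((fn e (apj (evs σ)))[n / 2]? = (ods σ)[n / 2]?) && decide (n / 2 < (ods σ).length)

private theorem comp_apj : Computable apj := by
  have hg : Computable₂ fun (σ : List Bool) (p : ℕ) => jap p σ :=
    comp_jap Computable.snd Computable.fst
  exact comp_list_map (comp_range Computable.list_length) hg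

private theorem comp_dbl : Computable fun i : ℕ => 2 * i :=
  (Primrec.nat_mul.comp (Primrec.const 2) Primrec.id).to_comp

private theorem comp_evs : Computable evs := by
  have hg : Computable₂ fun (σ : List Bool) (i : ℕ) => σ.getD (2 * i) false :=
    comp_getD Computable.fst (comp_dbl.comp Computable.snd)
  exact comp_list_map (comp_range (comp_div (Computable.succ.comp Computable.list_length)
    (Computable.const 2))) hg

private theorem comp_ods : Computable ods := by
  have hg : Computable₂ fun (σ : List Bool) (i : ℕ) => σ.getD (2 * i + 1) false :=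
    comp_getD Computable.fst (Computable.succ.comp (comp_dbl.comp Computable.snd))
  exact comp_list_map (comp_range (comp_div Computable.list_length (Computable.const 2))) hg

private theorem comp_lv {u : ℕ → List Bool → Bool} (hu : Computable₂ u) (e : ℕ) :
    Computable₂ (lv u e) := by
  have h2 : Computable fun z : ℕ × List Bool => z.1 / 2 := comp_div Computable.fst (Computable.const 2)
  have he : Computable fun z : ℕ × List Bool => evs z.2 := comp_evs.comp Computable.snd
  have ho : Computable fun z : ℕ × List Bool => ods z.2 := comp_ods.comp Computable.snd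
  have hf : Computable fun z : ℕ × List Bool => fn e (apj (evs z.2)) :=
    comp_zf (c := fun _ => Denumerable.ofNat Code e) (Computable.const _) (comp_apj.comp he)
  exact comp_ite (comp_decEq (comp_mod Computable.fst (Computable.const 2)) (Computable.const 0))
    (hu.comp h2 he)
    (comp_and (comp_decEq (Computable.list_getElem?.comp hf h2) (Computable.list_getElem?.comp ho h2))
      (comp_decLt h2 (Computable.list_length.comp ho)))

theorem P2_limit {P X : ℕ → Bool} (hP : P2 P) (hX : TuringReducible (chi X) (chi (JJ P))) : P2 (jn P X) := by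
  obtain ⟨u, hu, hQ⟩ := hP
  obtain ⟨e, he⟩ := exists_fn_of_red hX
  refine ⟨lv u e, comp_lv hu e, fun R => ?_⟩
  have hev : ∀ m σ, lv u e (2 * m) σ = u m (evs σ) := by
    intro m σ
    unfold lv
    rw [if_pos (by simp), Nat.mul_div_cancel_left m (by omega)]
  have hod : ∀ m σ, lv u e (2 * m + 1) σ = true ↔
      (fn e (apj (evs σ)))[m]? = (ods σ)[m]? ∧ m < (ods σ).length := by
    intro m σ
    have h1 : (2 * m + 1) / 2 = m := by omega
    have h2 : ¬ ((2 * m + 1) % 2 = 0) := by omega
    unfold lv
    rw [if_neg (by simp), h1]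
    simp
  constructor
  · intro h
    have hE : (fun i => R (2 * i)) = P := by
      rw [← hQ]
      intro m N
      obtain ⟨s, hs, h1⟩ := h (2 * m) (2 * N)
      rw [hev, evs_pre] at h1
      exact ⟨(s + 1) / 2, by omega, h1⟩
    have hO : ∀ x, R (2 * x + 1) = X x := by
      intro x
      obtain ⟨s0, hs0⟩ := apj_lim he x
      obtain ⟨s, hs, h1⟩ := h (2 * x + 1) (2 * s0)
      rw [hod, evs_pre, ods_pre, hE] at h1
      obtain ⟨h2, h3⟩ := h1
      rw [pre_length] at h3
      rw [hs0 _ (by omega), pre_getElem? _ h3] at h2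
      simpa using h2.symm
    funext n
    unfold jn
    by_cases hn : n % 2 = 0
    · rw [if_pos hn, ← hE]
      show R n = R (2 * (n / 2))
      congr 1
      omega
    · rw [if_neg hn, ← hO]
      congr 1
      omega
  · intro hR m N
    have hE : (fun i => R (2 * i)) = P := by
      funext i
      rw [hR]
      unfold jn
      have h1 : 2 * i % 2 = 0 := by omega
      have h2 : 2 * i / 2 = i := by omega
      rw [if_pos h1, h2]
    have hO : (fun i => R (2 * i + 1)) = X := by
      funext i
      rw [hR]
      unfold jn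
      have h1 : ¬ ((2 * i + 1) % 2 = 0) := by omega
      have h2 : (2 * i + 1) / 2 = i := by omega
      rw [if_neg h1, h2]
    rcases Nat.even_or_odd' m with ⟨k, rfl | rfl⟩
    · obtain ⟨s, hs, h1⟩ := (hQ P).2 rfl k N
      refine ⟨2 * s, by omega, ?_⟩
      rw [hev, evs_pre, hE]
      have h2 : (2 * s + 1) / 2 = s := by omega
      rw [h2]
      exact h1
    · obtain ⟨s0, hs0⟩ := apj_lim he k
      refine ⟨2 * (s0 + k + 1 + N), by omega, ?_⟩
      rw [hod, evs_pre, ods_pre, hE, hO, pre_length]
      refine ⟨?_, by omega⟩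
      rw [hs0 _ (by omega), pre_getElem? _ (by omega)]

theorem P2_test {P : ℕ → Bool} (hP : P2 P) : ∃ t : List Bool → Bool, Computable t ∧
    ∀ Q : ℕ → Bool, (∀ N, ∃ s ≥ N, t (pre Q s) = true) ↔ Q = P := by
  obtain ⟨u, hu, h⟩ := hP
  obtain ⟨t, ht, h'⟩ := exists_one_test hu
  exact ⟨t, ht, fun Q => (h' Q).trans (h Q)⟩

end Pool.Agent.CMD
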