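import Pool.Agent.CMD.CHK

/-!
# CMD/FIR: firing

PROOFS.  `fir_pre`: `dropLast_pre` (CMG/LIB).  `fir_inf`, right to left: from some `s0` on the truth value is true; given `N`, let `M = max N s0`; the counter exceeds its value at
`pre X M` at some `s`, so there is a first step `s > M` at which it grows, and there `κ` fires.  Left to right: the counter grows at every firing, so it is unbounded, and it is monotone
(`h.mono`, `pre_mono`); the truth value by `h.per`.  `fir_fin`: contraposition of `fir_inf`.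
-/

set_option autoImplicit false

namespace Pool.Agent.CMD

open Encodable Nat.Partrec Pool.Agent.H19 Pool.Agent.AEI Pool.Agent.CMG

variable {κ : List Bool → Chk} {X : ℕ → Bool}

theorem fir_pre {s : ℕ} : fir κ (pre X s) = true ↔
    (κ (pre X s)).1 = true ∧ (κ (pre X (s - 1))).2 < (κ (pre X s)).2 := by
  unfold fir
  rw [Bool.and_eq_true, decide_eq_true_iff, dropLast_pre]

theorem fir_inf (h : Gd κ) : (∀ N, ∃ s ≥ N, fir κ (pre X s) = true) ↔ Hd κ X := by
  have hm : ∀ s t, s ≤ t → (κ (pre X s)).2 ≤ (κ (pre X t)).2 := fun s t hst =>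
    h.mono _ _ (pre_mono X hst)
  constructor
  · intro hf
    refine ⟨h.per X fun N => ?_, fun N => ?_⟩
    · obtain ⟨s, hs, hs'⟩ := hf N
      exact ⟨s, hs, (fir_pre.1 hs').1⟩
    · have key : ∃ s0, N ≤ (κ (pre X s0)).2 := by
        induction N with
        | zero => exact ⟨0, Nat.zero_le _⟩
        | succ N ih =>
          obtain ⟨s0, hs0⟩ := ih
          obtain ⟨s, hs, hs'⟩ := hf (s0 + 1)
          have h1 := (fir_pre.1 hs').2
          have h2 := hm s0 (s - 1) (by omega)
          exact ⟨s, by omega⟩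
      obtain ⟨s0, hs0⟩ := key
      exact ⟨s0, fun s hs => hs0.trans (hm s0 s hs)⟩
  · rintro ⟨⟨s0, hs0⟩, hc⟩ N
    obtain ⟨s1, hs1⟩ := hc ((κ (pre X (max N s0))).2 + 1)
    have hex : ∃ s, (κ (pre X (max N s0))).2 < (κ (pre X s)).2 :=
      ⟨s1, Nat.lt_of_succ_le (hs1 s1 le_rfl)⟩
    classical
    have h1 := Nat.find_spec hex
    have h2 : max N s0 < Nat.find hex := by
      by_contra hcon
      have := hm _ _ (not_lt.1 hcon)
      omega
    have h3 : ¬ (κ (pre X (max N s0))).2 < (κ (pre X (Nat.find hex - 1))).2 :=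
      Nat.find_min hex (by omega)
    refine ⟨Nat.find hex, (le_max_left N s0).trans h2.le, fir_pre.2 ⟨hs0 _ ?_, by omega⟩⟩
    exact (le_max_right N s0).trans h2.le

theorem fir_fin (h : Gd κ) (hn : ¬ Hd κ X) : ∃ N, ∀ s > N, fir κ (pre X s) = false := by
  by_contra hcon
  apply hn
  rw [← fir_inf h]
  intro N
  by_contra hcon2
  apply hcon
  refine ⟨N, fun s hs => ?_⟩
  by_contra h3
  exact hcon2 ⟨s, hs.le, by simpa using h3⟩

end Pool.Agent.CMD
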