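import Pool.Agent.CMD.LFA
import Pool.Agent.CMG.GPB

/-!
# CMD/POS: positions

PROOFS.  `PP (n + 1) h = Nat.pair (bd (max (PP n (h.take n)) (PP n (pp h n).1))) (encode (h.take (n + 1)))`.  `PP_take`: cases on `m` (`pp_take`, `List.take_take`).  `lt_bd`: `Nat.right_le_pair`.  `bd_le_PP`: `Nat.left_le_pair`.
`PP_mono`: from `n` to `n + 1`:
`bd_le_PP`, `lt_bd`, `PP_take`.  `hh_Pos`: `Nat.unpair_pair`, `List.take_length`, `Encodable.encodek`.  `vld_iff`: unfold (`Bool.and_eq_true`).
-/

set_option autoImplicit false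

namespace Pool.Agent.CMD

open Encodable Nat.Partrec Pool.Agent.H19 Pool.Agent.AEI Pool.Agent.CMG

variable {n m p : ℕ} {h : Hst}

theorem PP_take (hm : m ≤ n) : PP m (h.take n) = PP m h := by
  cases m with
  | zero => rfl
  | succ m =>
    show Nat.pair (bd (max (PP m ((h.take n).take m)) (PP m (pp (h.take n) m).1))) (encode ((h.take n).take (m + 1))) =
      Nat.pair (bd (max (PP m (h.take m)) (PP m (pp h m).1))) (encode (h.take (m + 1)))
    rw [List.take_take, List.take_take, min_eq_left (by omega : m ≤ n), min_eq_left hm,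
      pp_take (by omega : m < n)]

theorem lt_bd (u : ℕ) : u < bd u := by
  have h1 : u ≤ Nat.pair (bl u u) u := Nat.right_le_pair _ _
  have h2 : Nat.pair (bl u u) u ≤ Nat.pair 1 (Nat.pair (bl u u) u) := Nat.right_le_pair _ _
  unfold bd
  omega

theorem bd_le_PP (n : ℕ) (h : Hst) : bd (max (PP n (h.take n)) (PP n (pp h n).1)) ≤ PP (n + 1) h := by
  exact Nat.left_le_pair _ _

private theorem POS_lt (n : ℕ) (h : Hst) : PP n h < PP (n + 1) h := by
  have h1 := bd_le_PP n h
  have h2 := lt_bd (max (PP n (h.take n)) (PP n (pp h n).1))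
  have h3 : PP n (h.take n) ≤ max (PP n (h.take n)) (PP n (pp h n).1) := le_max_left _ _
  have h4 : PP n (h.take n) = PP n h := PP_take le_rfl
  omega

theorem PP_mono (hm : m ≤ n) : PP m h ≤ PP n h := by
  refine monotone_nat_of_le_succ (f := fun k => PP k h) (fun k => ?_) hm
  exact (POS_lt k h).le

theorem le_PP (n : ℕ) (h : Hst) : n ≤ PP n h := by
  induction n with
  | zero => exact Nat.zero_le _
  | succ n ih =>
    have h1 := POS_lt n h
    omega

theorem PP_pp_lt (n : ℕ) (h : Hst) : PP n (pp h n).1 < PP (n + 1) h := by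
  have h1 := bd_le_PP n h
  have h2 := lt_bd (max (PP n (h.take n)) (PP n (pp h n).1))
  have h3 : PP n (pp h n).1 ≤ max (PP n (h.take n)) (PP n (pp h n).1) := le_max_right _ _
  omega

theorem hh_Pos (hl : 0 < h.length) : hh (Pos h) = h := by
  obtain ⟨n, hn⟩ := Nat.exists_eq_succ_of_ne_zero hl.ne'
  unfold Pos hh
  rw [hn]
  show (decode (α := Hst) (Nat.pair (bd (max (PP n (h.take n)) (PP n (pp h n).1)))
    (encode (h.take (n + 1)))).unpair.2).getD [] = h
  rw [Nat.unpair_pair, Encodable.encodek, List.take_of_length_le (by omega)]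
  rfl

theorem vld_iff : vld p = true ↔ 0 < (hh p).length ∧ Pos (hh p) = p ∧ lnk (lev (hh p) (ns p)) = true := by
  unfold vld
  rw [Bool.and_eq_true, Bool.and_eq_true, decide_eq_true_iff, decide_eq_true_iff, and_assoc]

end Pool.Agent.CMD
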