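import Pool.Agent.CMD.PTA

/-!
# CMD/PTB: elements

Every element of the list of a root exists as a sequence; the elements of stage `n + 1` are elements of stage `n` of the
root or of its partner.
-/

set_option autoImplicit false

namespace Pool.Agent.CMD

open Encodable Nat.Partrec Pool.Agent.H19 Pool.Agent.AEI Pool.Agent.CMG

variable {n k : ℕ} {h : Hst} {X Z W X2 : ℕ → Bool}

theorem exists_elm (hr : Rt n h X) (hk : k < (Lf n h).length) : ∃ Z, At n Z X h k := by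
  induction n generalizing h X k with
  | zero =>
    have hk0 : k = 0 := by
      have h1 : (Lf 0 h).length = 1 := rfl
      omega
    rw [hk0]
    exact ⟨X, At_root hr⟩
  | succ n ih =>
    have hr' := (Rt_succ.1 hr).1.2
    rcases Lf_cases hk with hk' | ⟨hl, k2, hk2, e⟩
    · obtain ⟨Z, hZ⟩ := ih hr' hk'
      exact ⟨Z, At_fst hr hZ⟩
    · obtain ⟨Z', W, X2, hP⟩ := pt_of (fun k hk => ih hr' hk) hr (lnk_iff.1 hl).1
      obtain ⟨Z, hZ⟩ := ih hP.aw.rt hk2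
      rw [e]
      exact ⟨Z, At_snd hr hl hP hZ⟩

theorem exists_Pt (hr : Rt (n + 1) h X) (hs : sgl (lev h n).1 = true) : ∃ Z W X2, Pt n h X Z W X2 :=
  pt_of (fun _ hk => exists_elm (Rt_succ.1 hr).1.2 hk) hr hs

theorem At_cases (ha : At (n + 1) Z X h k) : At n Z X (h.take n) k ∨
    ∃ k2 Z' W X2, lnk (lev h n) = true ∧ k = (Lf n (h.take n)).length + k2 ∧ Pt n h X Z' W X2 ∧
      At n Z X2 (pp h n).1 k2 := by
  rcases Lf_cases ha.lt with hk | ⟨hl, k2, hk2, e⟩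
  · left
    have h1 := (el_lt hk).2
    refine ⟨(Rt_succ.1 ha.rt).1.2, hk, ?_, ?_⟩
    · rw [← h1]; exact ha.fw
    · rw [← h1]; exact ha.bw
  · right
    obtain ⟨Z', W, X2, hP⟩ := exists_Pt ha.rt (lnk_iff.1 hl).1
    obtain ⟨Z2, hZ2⟩ := exists_elm hP.aw.rt hk2
    have h2 := At_snd ha.rt hl hP hZ2
    rw [← e] at h2
    have h3 := maps_uniq h2.fw ha.fw
    rw [h3] at hZ2
    exact ⟨k2, Z', W, X2, hl, e, hP, hZ2⟩

theorem Pt_x0 (hp : Pt n h X Z W X2) (hl : lnk (lev h n) = true) :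
    TD n Z W ∧ x0 (pp h n).2.1 = 2 * (pp h n).2.2.2 + 1 := by
  obtain ⟨-, h2, h3, -⟩ := lnk_iff.1 hl
  have ht := hp.td h2
  refine ⟨ht, ?_⟩
  have h5 := (At_fact hp.aw hp.vw).2.2 ⟨Z, ht⟩
  have h6 := hp.vw.len
  have h7 := hp.aw.lt
  exact ((sgl_spec (A := (pp h n).2.1) h3).2.2 _ (by omega) h5).symm

end Pool.Agent.CMD
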