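import Pool.Agent.CMD.SYS
import Pool.Agent.CMD.PTB
import Pool.Agent.CMD.POS
import Pool.Agent.CMD.FIR

/-!
# CMD/ACT: active pointers

PROOFS.  `Q_iff`: `q_dsys`; `qk p` is good (`Gd_meet`, `Gd_comp` with `Gd_VF`, `Gd_ivc`), so by `fir_inf` it fires infinitely often along `Y` iff `Hd (qk p) Y`, i.e. (`Hd_meet`, `Hd_comp`, `Hd_ivc`,
`maps_append_iff`, `maps_uniq`) iff there is `X` as stated (`Rt n h X` is `Hd (VF n h) X`).
`act`: `n = ns p`, `h = hh p`, `|h| = n + 1` (`vld_iff`); `exists_Pt` (`lnk_iff`) gives `Pt n h X Z W X2`, and `X2 = Y` by `Pt.mg`, `maps_uniq`.  `At (n + 1) Y X h (|Lf n (h.take n)|)`: `At_snd` with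
`At_root` for `Y` (`Pt.aw` gives `Rt n (pp h n).1 Y`).  `Q_of`: `hh (Pos h) = h` (`hh_Pos`), `ns (Pos h) = n`, `vld_iff`, `Q_iff`.
-/

set_option autoImplicit false

namespace Pool.Agent.CMD

open Encodable Nat.Partrec Pool.Agent.H19 Pool.Agent.AEI Pool.Agent.CMG

variable {n p : ℕ} {h : Hst} {X Y Z W : ℕ → Bool}

private theorem ACT_Gd (p : ℕ) : Gd (qk p) :=
  Gd_meet (Gd_comp (Gd_VF (hh p).length (hh p)) (gf (ns p) (hh p)))
    (Gd_ivc (gf (ns p) (hh p) ++ gg (ns p) (hh p)))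

private theorem ACT_Hd : Hd (qk p) Y ↔ ∃ X, Maps (fnl (gf (ns p) (hh p))) Y X ∧
    Maps (fnl (gg (ns p) (hh p))) X Y ∧ Rt (hh p).length (hh p) X := by
  have h1 : Hd (qk p) Y ↔ Hd (fun σ => VF (hh p).length (hh p) (fnl (gf (ns p) (hh p)) σ)) Y ∧
      Hd (ivc (gf (ns p) (hh p) ++ gg (ns p) (hh p))) Y :=
    Hd_meet (κ := fun σ => VF (hh p).length (hh p) (fnl (gf (ns p) (hh p)) σ))
      (κ' := ivc (gf (ns p) (hh p) ++ gg (ns p) (hh p))) (X := Y)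
  rw [h1, Hd_comp (Gd_VF (hh p).length (hh p)), Hd_ivc, maps_append_iff]
  constructor
  · rintro ⟨⟨X, h2, h3⟩, X', h4, h5⟩
    have h6 := maps_uniq h2 h4
    subst h6
    exact ⟨X, h2, h5, h3⟩
  · rintro ⟨X, h2, h3, h4⟩
    exact ⟨⟨X, h2, h4⟩, X, h2, h3⟩

theorem Q_iff : Q dsys p Y ↔ vld p = true ∧ ∃ X, Maps (fnl (gf (ns p) (hh p))) Y X ∧
    Maps (fnl (gg (ns p) (hh p))) X Y ∧ Rt (hh p).length (hh p) X := by
  rw [← ACT_Hd, ← fir_inf (ACT_Gd p)]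
  constructor
  · intro hq
    refine ⟨?_, fun N => ?_⟩
    · obtain ⟨s, _, hs⟩ := hq 0
      exact (q_dsys.1 hs).1
    · obtain ⟨s, hs, hs'⟩ := hq N
      exact ⟨s, hs, (q_dsys.1 hs').2⟩
  · rintro ⟨hv, hf⟩ N
    obtain ⟨s, hs, hs'⟩ := hf N
    exact ⟨s, hs, q_dsys.2 ⟨hv, hs'⟩⟩

theorem act (hq : Q dsys p Y) : ∃ X Z W, Rt (ns p + 1) (hh p) X ∧ Maps (dsys.F p) Y X ∧ Maps (dsys.G p) X Y ∧
    Pt (ns p) (hh p) X Z W Y ∧ lnk (lev (hh p) (ns p)) = true ∧ Pos (hh p) = p ∧ (hh p).length = ns p + 1 ∧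
    At (ns p + 1) Y X (hh p) (Lf (ns p) ((hh p).take (ns p))).length := by
  obtain ⟨hv, X, h1, h2, h3⟩ := Q_iff.1 hq
  obtain ⟨hl, hP, hk⟩ := vld_iff.1 hv
  have hlen : (hh p).length = ns p + 1 := by
    unfold ns
    omega
  rw [hlen] at h3
  obtain ⟨Z, W, X2, hp⟩ := exists_Pt h3 (lnk_iff.1 hk).1
  have h4 : X2 = Y := maps_uniq hp.mg h2
  subst h4
  refine ⟨X, Z, W, h3, h1, h2, hp, hk, hP, hlen, ?_⟩
  exact At_snd h3 hk hp (At_root hp.aw.rt)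

theorem Q_of (hr : Rt (n + 1) h X) (hl : lnk (lev h n) = true) (hp : Pt n h X Z W Y) :
    Q dsys (Pos h) Y ∧ Maps (dsys.F (Pos h)) Y X := by
  have hlen : h.length = n + 1 := Rt_len hr
  have h1 : hh (Pos h) = h := hh_Pos (by omega)
  have h2 : ns (Pos h) = n := by
    unfold ns
    rw [h1, hlen]
    rfl
  have h3 : Maps (dsys.F (Pos h)) Y X := by
    rw [F_dsys, h1, h2]
    exact hp.mf
  refine ⟨Q_iff.2 ⟨vld_iff.2 ⟨?_, ?_, ?_⟩, X, h3, ?_, ?_⟩, h3⟩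
  · rw [h1]
    omega
  · rw [h1]
  · rw [h1, h2]
    exact hl
  · rw [h1, h2]
    exact hp.mg
  · rw [h1, hlen]
    exact hr

end Pool.Agent.CMD
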