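import Pool.Agent.CMD.FNA
import Pool.Agent.CMG.GCA

/-!
# CMD/CFA: computability: functionals, checks, facts

PROOFS.  `comp_fn` (CMG/GCA), combinators of H19/CompList (`comp_list_foldl`, `comp_ite`, `comp_and`, `comp_decEq`, `comp_decLt`, `comp_take`), `comp_isPre`, `comp_mod`, `comp_div` (H19/Constr), `comp_dropLast`
(CMG/CC).  `fnl l σ = l.foldl (fun τ e => fn e τ) σ`.  `comp_min`: `Primrec.nat_min`.  `red_fnl`: induction on `l` (`maps_cons_iff`) with `red_of_maps` (CMG/LIB) for `fn e` and
transitivity.
-/

set_option autoImplicit false

namespace Pool.Agent.CMD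

open Encodable Nat.Partrec Pool.Agent.H19 Pool.Agent.AEI Pool.Agent.CMG

variable {α : Type} [Primcodable α]

theorem comp_min {f g : α → ℕ} (hf : Computable f) (hg : Computable g) : Computable fun a => min (f a) (g a) :=
  Primrec.nat_min.to_comp.comp hf hg

theorem comp_fnl {l : α → List ℕ} {σ : α → List Bool} (hl : Computable l) (hσ : Computable σ) :
    Computable fun a => fnl (l a) (σ a) := by
  have e : ∀ (l : List ℕ) (σ : List Bool), fnl l σ = l.foldl (fun τ e => fn e τ) σ := by
    intro l
    induction l with
    | nil => intro σ; rfl
    | cons a l ih => intro σ; exact ih (fn a σ)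
  refine (comp_list_foldl (h := fun (_ : α) (p : List Bool × ℕ) => fn p.2 p.1) hl hσ ?_).of_eq fun a => (e _ _).symm
  exact comp_fn (Computable.snd.comp Computable.snd) (Computable.fst.comp Computable.snd)

theorem comp_meet {f g : α → Chk} (hf : Computable f) (hg : Computable g) : Computable fun a => meet (f a) (g a) :=
  (comp_and (Computable.fst.comp hf) (Computable.fst.comp hg)).pair
    (comp_min (Computable.snd.comp hf) (Computable.snd.comp hg))

theorem comp_ivc {l : α → List ℕ} {σ : α → List Bool} (hl : Computable l) (hσ : Computable σ) :
    Computable fun a => ivc (l a) (σ a) :=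
  (comp_isPre (comp_fnl hl hσ) hσ).pair (Computable.list_length.comp (comp_fnl hl hσ))

theorem comp_si {n : α → ℕ} (hn : Computable n) : Computable fun a => si (n a) :=
  Computable.fst.comp (Computable.unpair.comp (Computable.snd.comp (Computable.unpair.comp hn)))

theorem comp_sj {n : α → ℕ} (hn : Computable n) : Computable fun a => sj (n a) :=
  Computable.snd.comp (Computable.unpair.comp (Computable.snd.comp (Computable.unpair.comp hn)))

theorem comp_fct {n : α → ℕ} {t : α → Bool} {σ : α → List Bool} (hn : Computable n) (ht : Computable t)
    (hσ : Computable σ) : Computable fun a => fct (n a) (t a) (σ a) := by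
  have hsc : Computable fun a => sc (n a) := Computable.fst.comp (Computable.unpair.comp hn)
  have h1 : Computable fun a => [sj (n a), si (n a)] :=
    Computable.list_cons.comp (comp_sj hn) (Computable.list_cons.comp (comp_si hn) (Computable.const []))
  have h2 : Computable fun a => [si (n a), sj (n a)] :=
    Computable.list_cons.comp (comp_si hn) (Computable.list_cons.comp (comp_sj hn) (Computable.const []))
  have h3 : Computable fun a => (true, (fn (sc (n a)) (fn (sj (n a)) (σ a))).length) :=
    (Computable.const true).pair (Computable.list_length.comp (comp_fn hsc (comp_fn (comp_sj hn) hσ)))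
  have h4 : Computable fun a => (true, (fn (sc (n a)) (σ a)).length) :=
    (Computable.const true).pair (Computable.list_length.comp (comp_fn hsc hσ))
  exact comp_ite ht (comp_meet (comp_ivc h1 hσ) h3) (comp_meet (comp_ivc h2 hσ) h4)

theorem comp_el {L : α → List Elm} {k : α → ℕ} (hL : Computable L) (hk : Computable k) :
    Computable fun a => el (L a) (k a) :=
  (Primrec.list_getD (([], []) : Elm)).to_comp.comp hL hk

theorem comp_fx {n x : α → ℕ} {L : α → List Elm} {σ : α → List Bool} (hn : Computable n) (hL : Computable L)
    (hx : Computable x) (hσ : Computable σ) : Computable fun a => fx (n a) (L a) (x a) (σ a) := by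
  refine comp_fct hn (comp_decEq (comp_mod hx (Computable.const 2)) (Computable.const 1)) ?_
  exact comp_fnl (Computable.fst.comp (comp_el hL (comp_div hx (Computable.const 2)))) hσ

theorem comp_fir {κ : α → List Bool → Chk} {σ : α → List Bool} (hκ : Computable₂ κ) (hσ : Computable σ) :
    Computable fun a => fir (κ a) (σ a) := by
  have h1 : Computable fun a => κ a (σ a) := hκ.comp Computable.id hσ
  have h2 : Computable fun a => κ a (σ a).dropLast := hκ.comp Computable.id
    ((comp_take (Primrec.nat_sub.to_comp.comp (Computable.list_length.comp hσ) (Computable.const 1)) hσ).of_eq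
      fun _ => List.dropLast_eq_take.symm)
  exact comp_and (Computable.fst.comp h1) (comp_decLt (Computable.snd.comp h2) (Computable.snd.comp h1))

theorem red_fnl {l : List ℕ} {X Y : ℕ → Bool} (h : Maps (fnl l) X Y) : TuringReducible (chi Y) (chi X) :=
  red_of_maps (comp_fnl (Computable.const l) Computable.id) h (fnl_mono l)

end Pool.Agent.CMD
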