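import Pool.Agent.CMD.Defs

/-!
# CMD/CHK: checks

`Hd κ X`: the truth value is true for all large `s` and the counter is unbounded.
PROOFS.  `Hd_meet`: `meet a b = (a.1 && b.1, min a.2 b.2)`; take maxima of the bounds.  `Gd_meet`: `min_le_min`, and if both truth values hold infinitely often together then each of them does.
`Hd_const`, `Gd_const`: `pre_length`.  `Hd_tot`: `exists_ext` and `maps_len` (CMG/LIB).  `Gd_tot`: `List.IsPrefix.length_le`.  `Hd_ite`, `Gd_ite`: cases on `b`.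
-/

set_option autoImplicit false

namespace Pool.Agent.CMD

open Encodable Nat.Partrec Pool.Agent.H19 Pool.Agent.AEI Pool.Agent.CMG

variable {κ κ' : List Bool → Chk} {X : ℕ → Bool}

theorem Hd_meet : Hd (fun σ => meet (κ σ) (κ' σ)) X ↔ Hd κ X ∧ Hd κ' X := by
  constructor
  · rintro ⟨⟨s0, h1⟩, h2⟩
    refine ⟨⟨⟨s0, fun s hs => ?_⟩, fun N => ?_⟩, ⟨⟨s0, fun s hs => ?_⟩, fun N => ?_⟩⟩
    · have h := h1 s hs
      simp only [meet, Bool.and_eq_true] at h
      exact h.1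
    · obtain ⟨s1, h3⟩ := h2 N
      exact ⟨s1, fun s hs => (h3 s hs).trans (min_le_left _ _)⟩
    · have h := h1 s hs
      simp only [meet, Bool.and_eq_true] at h
      exact h.2
    · obtain ⟨s1, h3⟩ := h2 N
      exact ⟨s1, fun s hs => (h3 s hs).trans (min_le_right _ _)⟩
  · rintro ⟨⟨⟨s0, h1⟩, h2⟩, ⟨⟨s1, h3⟩, h4⟩⟩
    refine ⟨⟨max s0 s1, fun s hs => ?_⟩, fun N => ?_⟩
    · simp only [meet, Bool.and_eq_true]
      exact ⟨h1 s (le_trans (le_max_left _ _) hs), h3 s (le_trans (le_max_right _ _) hs)⟩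
    · obtain ⟨a, ha⟩ := h2 N
      obtain ⟨b, hb⟩ := h4 N
      exact ⟨max a b, fun s hs => le_min (ha s (le_trans (le_max_left _ _) hs))
        (hb s (le_trans (le_max_right _ _) hs))⟩

theorem Gd_meet (h : Gd κ) (h' : Gd κ') : Gd fun σ => meet (κ σ) (κ' σ) := by
  refine ⟨fun σ τ hs => min_le_min (h.mono σ τ hs) (h'.mono σ τ hs),
    fun σ => (min_le_left _ _).trans (h.len σ), fun X hX => ?_⟩
  have h1 : ∀ N, ∃ s ≥ N, (κ (pre X s)).1 = true := by
    intro N
    obtain ⟨s, hs, h2⟩ := hX N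
    simp only [meet, Bool.and_eq_true] at h2
    exact ⟨s, hs, h2.1⟩
  have h2 : ∀ N, ∃ s ≥ N, (κ' (pre X s)).1 = true := by
    intro N
    obtain ⟨s, hs, h2⟩ := hX N
    simp only [meet, Bool.and_eq_true] at h2
    exact ⟨s, hs, h2.2⟩
  obtain ⟨a, ha⟩ := h.per X h1
  obtain ⟨b, hb⟩ := h'.per X h2
  refine ⟨max a b, fun s hs => ?_⟩
  simp only [meet, Bool.and_eq_true]
  exact ⟨ha s (le_trans (le_max_left _ _) hs), hb s (le_trans (le_max_right _ _) hs)⟩

theorem Hd_const (b : Bool) : Hd (fun σ => (b, σ.length)) X ↔ b = true := by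
  constructor
  · rintro ⟨⟨s0, h1⟩, -⟩
    exact h1 s0 le_rfl
  · intro h
    refine ⟨⟨0, fun s _ => h⟩, fun N => ⟨N, fun s hs => ?_⟩⟩
    simp only [pre_length]
    exact hs

theorem Gd_const (b : Bool) : Gd fun σ => (b, σ.length) := by
  refine ⟨fun σ τ h => h.length_le, fun σ => le_rfl, fun X hX => ?_⟩
  obtain ⟨s, _, hs⟩ := hX 0
  exact ⟨0, fun _ _ => hs⟩

theorem Hd_tot {F : List Bool → List Bool} (hF : ∀ σ τ, σ <+: τ → F σ <+: F τ) :
    Hd (fun σ => (true, (F σ).length)) X ↔ ∃ V, Maps F X V := by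
  constructor
  · rintro ⟨-, h2⟩
    exact exists_ext hF (X := X) (fun n => by
      obtain ⟨s, hs⟩ := h2 n
      exact ⟨s, hs s le_rfl⟩)
  · rintro ⟨V, hV⟩
    exact ⟨⟨0, fun _ _ => rfl⟩, fun N => maps_len hF hV N⟩

theorem Gd_tot {F : List Bool → List Bool} (hF : ∀ σ τ, σ <+: τ → F σ <+: F τ)
    (hl : ∀ σ, (F σ).length ≤ σ.length) : Gd fun σ => (true, (F σ).length) := by
  exact ⟨fun σ τ h => (hF σ τ h).length_le, hl, fun X _ => ⟨0, fun _ _ => rfl⟩⟩

theorem Hd_ite (b : Bool) : Hd (fun σ => if b = true then κ σ else κ' σ) X ↔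
    (b = true → Hd κ X) ∧ (b = false → Hd κ' X) := by
  cases b
  · simp
  · simp

theorem Gd_ite (b : Bool) (h : Gd κ) (h' : Gd κ') : Gd fun σ => if b = true then κ σ else κ' σ := by
  cases b
  · simpa using h'
  · simpa using h

end Pool.Agent.CMD
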