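import Pool.Agent.CMD.LKI

/-!
# CMD/EXI: existence

PROOFS.  `step_root`: `exists_Vec` gives `A`, `j` with `Vec n (Lf n h) A j X`.  If `sgl A` is false: `g = h ++ [(A, (j, 0))]`, `Rt_succ` (`take_app`, `lev_app`).  Let `sgl A` be true, `x = x0 A` (`sgl_spec`),
`m = x / 2`, `m < |Lf n h|` (`Vec.len`).  `exists_elm` gives `Z` with `At n Z X h m`.  `At_fact`: if `x = 2 * m` there is `W` with `TD n Z W`, if `x = 2 * m + 1` there is `W` with `TD n W Z`.
By `hex` there are `X'`, `h'`, `k'` with `At n W X' h' k'`, by `exists_Vec` `A'`, `j'` with `Vec n (Lf n h') A' j' X'`.  Let `P : PIn := (h', (A', (j', k')))`, `ev = (A, (j, encode P + 1))`,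
`g = h ++ [ev]` (`pp g n = P` by `pinf_encode`).
(a) `snk ev = false`: `Rt (n + 1) g X` by `Rt_succ`: `Maps (fnl (wl n (Lf n h) A)) X W` as in `LKI` (for `x` odd the last functional is `sj n`, `TD.fj`).  First alternative.
(b) `snk ev = true`: `snk_iff`: `x` is odd, `TD n W Z`, `sgl A'`, `x0 A'` is even.  By `At_fact` entry `2 * k'` of `A'` is true, so `x0 A' = 2 * k'` (`sgl_spec`).  `link_intro` for `X'`, `A'`, `W`, `Z`
and the partner `X`, `A`, `x0 A = 2 * m + 1`: second alternative.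
`exists_At`: induction on `n`.  `n = 0`: `X = Z`, `h = []`, `k = 0` (`Rt_zero`, `At_root`).  `n + 1`: `At n Z X h k`, `step_root` at `X`; `At_fst` resp. `At_snd`.
-/

set_option autoImplicit false

namespace Pool.Agent.CMD

open Encodable Nat.Partrec Pool.Agent.H19 Pool.Agent.AEI Pool.Agent.CMG

theorem step_root {n : ℕ} {h : Hst} {X : ℕ → Bool} (hex : ∀ W : ℕ → Bool, ∃ X h k, At n W X h k) (hr : Rt n h X) :
    (∃ g, Rt (n + 1) g X ∧ g.take n = h) ∨ ∃ g X' Z' W', Rt (n + 1) g X' ∧ lnk (lev g n) = true ∧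
      (pp g n).1 = h ∧ Pt n g X' Z' W' X := by
  obtain ⟨A, j, hv⟩ := exists_Vec n (Lf n h) X
  have hl : h.length = n := Rt_len hr
  by_cases hs : sgl A = true
  · obtain ⟨hxlt, hxt, -⟩ := sgl_spec hs
    have hm : x0 A / 2 < (Lf n h).length := by
      have := hv.len
      omega
    obtain ⟨Z, hz⟩ := exists_elm hr hm
    obtain ⟨f1, f2⟩ := At_fact hz hv
    have hW : ∃ W, (x0 A % 2 = 0 → TD n Z W) ∧ (x0 A % 2 = 1 → TD n W Z) := by
      rcases Nat.mod_two_eq_zero_or_one (x0 A) with h0 | h1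
      · have e : 2 * (x0 A / 2) = x0 A := by omega
        rw [e] at f1
        obtain ⟨W, hW⟩ := f1.1 hxt
        exact ⟨W, fun _ => hW, fun h1 => by omega⟩
      · have e : 2 * (x0 A / 2) + 1 = x0 A := by omega
        rw [e] at f2
        obtain ⟨W, hW⟩ := f2.1 hxt
        exact ⟨W, fun h0 => by omega, fun _ => hW⟩
    obtain ⟨W, hW0, hW1⟩ := hW
    obtain ⟨X', h', k', hb⟩ := hex W
    obtain ⟨A', j', hv'⟩ := exists_Vec n (Lf n h') X'
    let P : PIn := (h', (A', (j', k')))
    let ev : Evt := (A, (j, encode P + 1))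
    have e1 : lev (h ++ [ev]) n = ev := lev_app hl
    have e2 : (h ++ [ev]).take n = h := take_app hl
    have e3 : pp (h ++ [ev]) n = P := by
      unfold pp
      rw [e1]
      exact pinf_encode P
    by_cases hk : snk ev = true
    · right
      obtain ⟨-, k1, k2, k3⟩ := snk_iff.1 hk
      have e4 : pinf ev.2.2 = P := pinf_encode P
      rw [e4] at k2 k3
      have k1' : x0 A % 2 = 1 := k1
      have k2' : sgl A' = true := k2
      have k3' : x0 A' % 2 = 0 := k3
      have ht := hW1 k1'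
      have g1 := (At_fact hb hv').1.2 ⟨Z, ht⟩
      have g2 : 2 * k' = x0 A' := (sgl_spec k2').2.2 _ (by
        have := hv'.len
        have := hb.lt
        omega) g1
      obtain ⟨g, Z', W', q1, -, q3, q4, q5⟩ := link_intro hb.rt hv' k2' g2.symm hb ht hz hv hs (by omega)
      exact ⟨g, X', Z', W', q1, q3, q4, q5⟩
    · left
      refine ⟨h ++ [ev], Rt_succ.2 ⟨⟨by rw [List.length_append, hl]; rfl, ?_⟩, ?_, ?_, ?_⟩, e2⟩
      · rw [e2]; exact hr
      · rw [e1, e2]; exact hv
      · rw [e1]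
        intro hf
        exact absurd (hs.symm.trans hf) (by simp)
      · intro _
        rw [e1, e2, e3]
        refine ⟨rfl, by simpa using hk, W, X', ?_, hb, hv'⟩
        show Maps (fnl ((el (Lf n h) (x0 A / 2)).1 ++ [if x0 A % 2 = 0 then si n else sj n])) X W
        rw [maps_append_iff]
        refine ⟨Z, hz.fw, ?_⟩
        rw [maps_one_iff]
        rcases Nat.mod_two_eq_zero_or_one (x0 A) with h0 | h1
        · rw [if_pos h0]; exact (hW0 h0).fi
        · rw [if_neg (by omega)]; exact (hW1 h1).fj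
  · left
    have hs' : sgl A = false := by simpa using hs
    have e1 : lev (h ++ [((A, (j, 0)) : Evt)]) n = (A, (j, 0)) := lev_app hl
    have e2 : (h ++ [((A, (j, 0)) : Evt)]).take n = h := take_app hl
    refine ⟨h ++ [((A, (j, 0)) : Evt)], Rt_succ.2 ⟨⟨by rw [List.length_append, hl]; rfl, ?_⟩, ?_, ?_, ?_⟩, e2⟩
    · rw [e2]; exact hr
    · rw [e1, e2]; exact hv
    · rw [e1]
      intro _
      rfl
    · rw [e1]
      intro ht
      exact absurd (hs'.symm.trans ht) (by simp)

theorem exists_At (n : ℕ) (Z : ℕ → Bool) : ∃ X h k, At n Z X h k := by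
  induction n generalizing Z with
  | zero => exact ⟨Z, [], 0, At_root (Rt_zero.2 rfl)⟩
  | succ n ih =>
    obtain ⟨X, h, k, ha⟩ := ih Z
    rcases step_root ih ha.rt with ⟨g, hg, ht⟩ | ⟨g, X', Z', W', hg, hl, hp, hP⟩
    · exact ⟨X, g, k, At_fst hg (by rw [ht]; exact ha)⟩
    · exact ⟨X', g, _, At_snd hg hl hP (by rw [hp]; exact ha)⟩

end Pool.Agent.CMD
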