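import Pool.Agent.CMD.ACT
import Pool.Agent.CMD.EXI
import Pool.Agent.CMG.GPR

/-!
# CMD/CHR: chains to the root

PROOF.  Induction on `n`.  `n = 0`: `exists_At`, or directly `X = Z`, `h = []`, `k = 0`, `Chain.nil`.  `n + 1`: from `At n Z X h k` and the chain `a` from `Z` to `X`; `step_root` at `X` (with
`exists_At n`).  First alternative: `At_fst`, same chain.  Second alternative: `At_snd`, and `chain_snoc` (CMG/GPR) with `Q_of`.
-/

set_option autoImplicit false

namespace Pool.Agent.CMD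

open Encodable Nat.Partrec Pool.Agent.H19 Pool.Agent.AEI Pool.Agent.CMG

theorem exists_chain_root (n : ℕ) (Z : ℕ → Bool) : ∃ a X h k, At n Z X h k ∧ Chain dsys a Z X := by
  induction n with
  | zero => exact ⟨[], Z, [], 0, At_root (Rt_zero.2 rfl), Chain.nil Z⟩
  | succ n ih =>
    obtain ⟨a, X, h, k, hat, hch⟩ := ih
    rcases step_root (exists_At n) hat.rt with ⟨g, hr, hg⟩ | ⟨g, X', Z', W', hr, hl, hp1, hp⟩
    · subst hg
      exact ⟨a, X, g, k, At_fst hr hat, hch⟩
    · subst hp1
      obtain ⟨hq, hF⟩ := Q_of hr hl hp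
      exact ⟨a ++ [Pos g], X', g, _, At_snd hr hl hp hat, chain_snoc hch hq hF⟩

end Pool.Agent.CMD
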