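import Pool.Agent.CMD.CFA

/-!
# CMD/CLA: computability: records

PROOFS.  `sgl`, `x0`: `List.count`, `List.idxOf`; e.g. `A.count true = (A.filter fun b => b).length` (`comp_list_filter`), and `A.idxOf true = ((List.range A.length).filter fun i => A.getD i false).headD A.length`
(or `Primrec.list_idxOf`, or a fold).  `pinf`: `Computable.decode`, `Computable.option_getD` (or `Computable.option_casesOn`), `Primrec.nat_sub`.  `lev`: `Primrec.list_getD`.  `wl`, `wb`, `gl`, `gb`: `comp_el`,
`comp_si`, `comp_sj`, `comp_ite`, `Computable.list_append`, `Computable.list_cons`, `comp_mod`, `comp_div`.  `lnk`, `snk`: `comp_and`, `comp_decEq`, `comp_mod`.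
-/

set_option autoImplicit false

namespace Pool.Agent.CMD

open Encodable Nat.Partrec Pool.Agent.H19 Pool.Agent.AEI Pool.Agent.CMG

variable {α : Type} [Primcodable α] {n m : α → ℕ} {h : α → Hst} {ev : α → Evt} {A : α → List Bool}
  {L L' : α → List Elm}

theorem comp_sgl (hA : Computable A) : Computable fun a => sgl (A a) := by
  refine comp_decEq (Computable.list_length.comp (comp_list_filter hA
    (g := fun _ b => b == true) ?_) |>.of_eq fun a => ?_) (Computable.const 1)
  · exact (comp_decEq Computable.snd (Computable.const true)).of_eq fun x => by
      rcases x with ⟨_, b⟩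
      cases b <;> rfl
  · rw [List.count_eq_length_filter]

theorem comp_x0 (hA : Computable A) : Computable fun a => x0 (A a) := by
  exact (Primrec.list_idxOf (α := Bool)).to_comp.comp (Computable.const true) hA

theorem comp_lev (hh : Computable h) (hn : Computable n) : Computable fun a => lev (h a) (n a) := by
  have h1 : Computable fun a => ((h a)[n a]?).getD (([], (0, 0)) : Evt) :=
    Computable.option_getD (Computable.list_getElem?.comp hh hn) (Computable.const _)
  exact h1.of_eq fun a => by rw [lev, List.getD_eq_getElem?_getD]

private theorem cla_pinf {r : α → ℕ} (hr : Computable r) : Computable fun a => pinf (r a) := by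
  exact Computable.option_getD (Computable.decode.comp
    (Primrec.nat_sub.to_comp.comp hr (Computable.const 1))) (Computable.const _)

theorem comp_pp (hh : Computable h) (hn : Computable n) : Computable fun a => pp (h a) (n a) := by
  have h1 := comp_lev hh hn
  exact cla_pinf (Computable.snd.comp (Computable.snd.comp h1))

theorem comp_lnk (he : Computable ev) : Computable fun a => lnk (ev a) := by
  have h1 : Computable fun a => (ev a).1 := Computable.fst.comp he
  have h2 : Computable fun a => (pinf (ev a).2.2).2.1 :=
    Computable.fst.comp (Computable.snd.comp (cla_pinf (Computable.snd.comp (Computable.snd.comp he))))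
  exact comp_and (comp_and (comp_sgl h1) (comp_decEq (comp_mod (comp_x0 h1) (Computable.const 2))
    (Computable.const 0))) (comp_and (comp_sgl h2) (comp_decEq (comp_mod (comp_x0 h2) (Computable.const 2))
    (Computable.const 1)))

theorem comp_snk (he : Computable ev) : Computable fun a => snk (ev a) := by
  have h1 : Computable fun a => (ev a).1 := Computable.fst.comp he
  have h2 : Computable fun a => (pinf (ev a).2.2).2.1 :=
    Computable.fst.comp (Computable.snd.comp (cla_pinf (Computable.snd.comp (Computable.snd.comp he))))
  exact comp_and (comp_and (comp_sgl h1) (comp_decEq (comp_mod (comp_x0 h1) (Computable.const 2))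
    (Computable.const 1))) (comp_and (comp_sgl h2) (comp_decEq (comp_mod (comp_x0 h2) (Computable.const 2))
    (Computable.const 0)))

theorem comp_wl (hn : Computable n) (hL : Computable L) (hA : Computable A) :
    Computable fun a => wl (n a) (L a) (A a) := by
  have h0 : Computable fun a => x0 (A a) := comp_x0 hA
  have h1 : Computable fun a => decide (x0 (A a) % 2 = 0) :=
    comp_decEq (comp_mod h0 (Computable.const 2)) (Computable.const 0)
  have h2 : Computable fun a => if decide (x0 (A a) % 2 = 0) then si (n a) else sj (n a) :=
    comp_ite h1 (comp_si hn) (comp_sj hn)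
  refine (Computable.list_append.comp (Computable.fst.comp (comp_el hL (comp_div h0 (Computable.const 2))))
    (Computable.list_cons.comp h2 (Computable.const []))).of_eq fun a => ?_
  simp only [wl, decide_eq_true_eq]

private theorem cla_wb (hn : Computable n) (hL : Computable L) (hA : Computable A) :
    Computable fun a => wb (n a) (L a) (A a) := by
  have h0 : Computable fun a => x0 (A a) := comp_x0 hA
  have h1 : Computable fun a => decide (x0 (A a) % 2 = 0) :=
    comp_decEq (comp_mod h0 (Computable.const 2)) (Computable.const 0)
  have h2 : Computable fun a => if decide (x0 (A a) % 2 = 0) then sj (n a) else si (n a) :=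
    comp_ite h1 (comp_sj hn) (comp_si hn)
  refine (Computable.list_cons.comp h2 (Computable.snd.comp
    (comp_el hL (comp_div h0 (Computable.const 2))))).of_eq fun a => ?_
  simp only [wb, decide_eq_true_eq]

theorem comp_gl (hn : Computable n) (hL : Computable L) (hA : Computable A) (hL' : Computable L')
    (hm : Computable m) : Computable fun a => gl (n a) (L a) (A a) (L' a) (m a) := by
  exact Computable.list_append.comp (comp_wl hn hL hA) (Computable.snd.comp (comp_el hL' hm))

theorem comp_gb (hn : Computable n) (hL : Computable L) (hA : Computable A) (hL' : Computable L')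
    (hm : Computable m) : Computable fun a => gb (n a) (L a) (A a) (L' a) (m a) := by
  exact Computable.list_append.comp (Computable.fst.comp (comp_el hL' hm)) (cla_wb hn hL hA)

end Pool.Agent.CMD
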