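import Pool.Agent.CMD.CRC
import Pool.Agent.CMD.CLA

/-!
# CMD/CLF: computability: lists of elements

PROOFS.  `Lf`: `comp_rec2` with `E n h = Lf n h`, `base h = [([], [])]`, `q1 n h = h.take n`, `q2 n h = (pp h n).1`,
`comb n h L L' = if lnk (lev h n) = true then L ++ L'.map fun e => (gl n L (lev h n).1 L' (pp h n).2.2.2 ++ e.1, e.2 ++ gb n L (lev h n).1 L' (pp h n).2.2.2) else L` (`comp_ite`, `comp_list_map`,
`Computable.list_append`, `Computable.pair`, `comp_gl`, `comp_gb`).  `gg`, `gf`: compositions.
-/

set_option autoImplicit false

namespace Pool.Agent.CMD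

open Encodable Nat.Partrec Pool.Agent.H19 Pool.Agent.AEI Pool.Agent.CMG

variable {α : Type} [Primcodable α] {n : α → ℕ} {h : α → Hst}

private theorem comp_Lf2 : Computable₂ Lf := by
  refine comp_rec2 (E := Lf) (base := fun _ => [([], [])]) (q1 := fun n h => h.take n)
    (q2 := fun n h => (pp h n).1)
    (comb := fun n h L L' => if lnk (lev h n) = true then
      L ++ L'.map fun e => (gl n L (lev h n).1 L' (pp h n).2.2.2 ++ e.1,
        e.2 ++ gb n L (lev h n).1 L' (pp h n).2.2.2) else L)
    (Computable.const _) ?_ ?_ ?_ (fun _ => rfl) (fun _ _ => rfl)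
  · exact comp_take Computable.fst Computable.snd
  · exact Computable.fst.comp (comp_pp Computable.snd Computable.fst)
  · have cn : Computable fun x : (ℕ × Hst) × (List Elm × List Elm) => x.1.1 := Computable.fst.comp Computable.fst
    have ch : Computable fun x : (ℕ × Hst) × (List Elm × List Elm) => x.1.2 := Computable.snd.comp Computable.fst
    have cL : Computable fun x : (ℕ × Hst) × (List Elm × List Elm) => x.2.1 := Computable.fst.comp Computable.snd
    have cL' : Computable fun x : (ℕ × Hst) × (List Elm × List Elm) => x.2.2 := Computable.snd.comp Computable.snd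
    have cA : Computable fun x : (ℕ × Hst) × (List Elm × List Elm) => (lev x.1.2 x.1.1).1 :=
      Computable.fst.comp (comp_lev ch cn)
    have cm : Computable fun x : (ℕ × Hst) × (List Elm × List Elm) => (pp x.1.2 x.1.1).2.2.2 :=
      Computable.snd.comp (Computable.snd.comp (Computable.snd.comp (comp_pp ch cn)))
    have cg := comp_gl cn cL cA cL' cm
    have cb := comp_gb cn cL cA cL' cm
    refine comp_ite (comp_lnk (comp_lev ch cn)) (Computable.list_append.comp cL (comp_list_map cL' ?_)) cL
    refine Computable.pair ?_ ?_
    · exact Computable.list_append.comp (cg.comp Computable.fst) (Computable.fst.comp Computable.snd)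
    · exact Computable.list_append.comp (Computable.snd.comp Computable.snd) (cb.comp Computable.fst)

theorem comp_Lf (hn : Computable n) (hh : Computable h) : Computable fun a => Lf (n a) (h a) :=
  comp_Lf2.comp hn hh

theorem comp_gg (hn : Computable n) (hh : Computable h) : Computable fun a => gg (n a) (h a) := by
  have cp := comp_pp hh hn
  exact comp_gl hn (comp_Lf hn (comp_take hn hh)) (Computable.fst.comp (comp_lev hh hn))
    (comp_Lf hn (Computable.fst.comp cp)) (Computable.snd.comp (Computable.snd.comp (Computable.snd.comp cp)))

theorem comp_gf (hn : Computable n) (hh : Computable h) : Computable fun a => gf (n a) (h a) := by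
  have cp := comp_pp hh hn
  exact comp_gb hn (comp_Lf hn (comp_take hn hh)) (Computable.fst.comp (comp_lev hh hn))
    (comp_Lf hn (Computable.fst.comp cp)) (Computable.snd.comp (Computable.snd.comp (Computable.snd.comp cp)))

end Pool.Agent.CMD
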