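import Pool.Agent.CMD.FNA
import Pool.Agent.CMD.CHK

/-!
# CMD/COM: composition of checks with functionals

`ivc l σ = (isPre (fnl l σ) σ, |fnl l σ|)`.
PROOFS.  `Gd_ivc.per`: if `fnl l (pre X t) <+: pre X t` for some `t ≥ s` then `fnl l (pre X s) <+: pre X t` (`fnl_mono`) and its length is `≤ s` (`fnl_len`), so `fnl l (pre X s) <+: pre X s`
(`prefix_of_prefix`): the truth value is true at every `s`.  `Hd_ivc`: left to right: for every `m` take `s` with `m < |fnl l (pre X s)|` and the truth value true: entry `m` is `X m`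
(`pre_getElem?`); right to left: `maps_pre`, `maps_len`.
`Gd_comp.per`: suppose `(κ (fnl l (pre X s))).1` holds for infinitely many `s`.  If `|fnl l (pre X s)|` is bounded, then `fnl l (pre X s)` is constant from some `s` on (prefixes of the same
length are equal), so the truth value is constant.  Otherwise `Maps (fnl l) X Y` (`exists_maps`) and `fnl l (pre X s) = pre Y t` with `t = |fnl l (pre X s)|` unbounded, monotone (`maps_pre`);
so `(κ (pre Y t)).1` for infinitely many `t`, hence for all large `t` (`h.per Y`), hence for all large `s`.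
`Hd_comp`, left to right: by `h.len` the lengths `|fnl l (pre X s)|` are unbounded, so `Maps (fnl l) X Y`; the truth value at `pre Y t` holds for infinitely many `t`, so by `h.per` for all
large `t`; the counters by `h.mono`.  Right to left: `maps_pre`, `maps_len`, `h.mono`.
-/

set_option autoImplicit false

namespace Pool.Agent.CMD

open Encodable Nat.Partrec Pool.Agent.H19 Pool.Agent.AEI Pool.Agent.CMG

variable {κ : List Bool → Chk} {l : List ℕ} {X : ℕ → Bool}

theorem Gd_ivc (l : List ℕ) : Gd (ivc l) := by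
  refine ⟨fun σ τ h => (fnl_mono l σ τ h).length_le, fun σ => fnl_len l σ, fun X hX => ⟨0, fun s _ => ?_⟩⟩
  obtain ⟨t, ht, h1⟩ := hX s
  simp only [ivc, isPre_iff] at h1 ⊢
  refine prefix_of_prefix ((fnl_mono l _ _ (pre_mono X ht)).trans h1) (pre_mono X ht) ?_
  exact fnl_len l _

theorem Hd_ivc : Hd (ivc l) X ↔ Maps (fnl l) X X := by
  constructor
  · rintro ⟨⟨s0, h1⟩, h2⟩ n
    obtain ⟨s1, h3⟩ := h2 (n + 1)
    refine ⟨max s0 s1, ?_⟩
    have h4 := h1 (max s0 s1) (le_max_left _ _)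
    have h5 := h3 (max s0 s1) (le_max_right _ _)
    simp only [ivc, isPre_iff] at h4 h5
    rw [eq_pre_of_prefix h4]
    exact pre_getElem? X (by omega)
  · intro h
    have hF : ∀ σ τ : List Bool, σ <+: τ → fnl l σ <+: fnl l τ := fnl_mono l
    refine ⟨⟨0, fun s _ => ?_⟩, fun N => maps_len hF h N⟩
    simp only [ivc, isPre_iff]
    rw [maps_pre hF h s]
    refine pre_mono X ?_
    have := fnl_len l (pre X s)
    rwa [pre_length] at this

private theorem com_inf (h : Gd κ) {Y : ℕ → Bool} (hY : Maps (fnl l) X Y)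
    (hX : ∀ N, ∃ s ≥ N, (κ (fnl l (pre X s))).1 = true) : ∃ t0, ∀ t ≥ t0, (κ (pre Y t)).1 = true := by
  have hF : ∀ σ τ : List Bool, σ <+: τ → fnl l σ <+: fnl l τ := fnl_mono l
  refine h.per Y fun N => ?_
  obtain ⟨s1, h1⟩ := maps_len hF hY N
  obtain ⟨s, hs, h2⟩ := hX s1
  rw [maps_pre hF hY s] at h2
  exact ⟨_, h1 s hs, h2⟩

theorem Gd_comp (h : Gd κ) (l : List ℕ) : Gd fun σ => κ (fnl l σ) := by
  refine ⟨fun σ τ hs => h.mono _ _ (fnl_mono l σ τ hs), fun σ => (h.len _).trans (fnl_len l σ), fun X hX => ?_⟩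
  have hF : ∀ σ τ : List Bool, σ <+: τ → fnl l σ <+: fnl l τ := fnl_mono l
  by_cases hb : ∀ n, ∃ s, n ≤ (fnl l (pre X s)).length
  · obtain ⟨Y, hY⟩ := exists_maps hb
    obtain ⟨t0, ht0⟩ := com_inf h hY hX
    obtain ⟨s0, hs0⟩ := maps_len hF hY t0
    refine ⟨s0, fun s hs => ?_⟩
    rw [maps_pre hF hY s]
    exact ht0 _ (hs0 s hs)
  · have hmax : ∃ s0, ∀ s, (fnl l (pre X s)).length ≤ (fnl l (pre X s0)).length := by
      by_contra hno
      push Not at hno
      apply hb
      intro n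
      induction n with
      | zero => exact ⟨0, Nat.zero_le _⟩
      | succ n ih =>
        obtain ⟨s, hs⟩ := ih
        obtain ⟨s', hs'⟩ := hno s
        exact ⟨s', by omega⟩
    obtain ⟨s0, hs0⟩ := hmax
    have hcon : ∀ s ≥ s0, fnl l (pre X s) = fnl l (pre X s0) := by
      intro s hs
      have h1 := hF _ _ (pre_mono X hs)
      exact (h1.eq_of_length (le_antisymm h1.length_le (hs0 s))).symm
    obtain ⟨s, hs, h2⟩ := hX s0
    refine ⟨s0, fun t ht => ?_⟩
    rw [hcon s hs] at h2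
    simp only [hcon t ht]
    exact h2

theorem Hd_comp (h : Gd κ) : Hd (fun σ => κ (fnl l σ)) X ↔ ∃ Y, Maps (fnl l) X Y ∧ Hd κ Y := by
  have hF : ∀ σ τ : List Bool, σ <+: τ → fnl l σ <+: fnl l τ := fnl_mono l
  constructor
  · rintro ⟨⟨s0, h1⟩, h2⟩
    obtain ⟨Y, hY⟩ := exists_maps (l := l) (X := X) (fun n => by
      obtain ⟨s, hs⟩ := h2 n
      exact ⟨s, (hs s le_rfl).trans (h.len _)⟩)
    refine ⟨Y, hY, com_inf h hY fun N => ⟨max N s0, le_max_left _ _, h1 _ (le_max_right _ _)⟩, fun N => ?_⟩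
    obtain ⟨s1, h3⟩ := h2 N
    refine ⟨(fnl l (pre X s1)).length, fun t ht => ?_⟩
    have h4 := h3 s1 le_rfl
    simp only at h4
    rw [maps_pre hF hY s1] at h4
    exact h4.trans (h.mono _ _ (pre_mono Y ht))
  · rintro ⟨Y, hY, ⟨t0, h1⟩, h2⟩
    refine ⟨?_, fun N => ?_⟩
    · obtain ⟨s0, hs0⟩ := maps_len hF hY t0
      refine ⟨s0, fun s hs => ?_⟩
      simp only
      rw [maps_pre hF hY s]
      exact h1 _ (hs0 s hs)
    · obtain ⟨t1, h3⟩ := h2 N
      obtain ⟨s1, hs1⟩ := maps_len hF hY t1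
      refine ⟨s1, fun s hs => ?_⟩
      simp only
      rw [maps_pre hF hY s]
      exact h3 _ (hs1 s hs)

end Pool.Agent.CMD
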