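import Pool.Agent.CMD.CVF
import Pool.Agent.CMG.GPO

/-!
# CMD/CPP: computability of the names of the pointers

The positions are computed by a double recursion (`comp_rec2`).
-/

set_option autoImplicit false

namespace Pool.Agent.CMD

open Encodable Nat.Partrec Pool.Agent.H19 Pool.Agent.AEI Pool.Agent.CMG

private theorem cpp_bl_rec (u i : ℕ) :
    bl u i = Nat.rec (motive := fun _ => ℕ) 0 (fun _ r => Nat.pair u r + 1) i := by
  induction i with
  | zero => rfl
  | succ i ih => show Nat.pair u (bl u i) + 1 = _; rw [ih]

private theorem cpp_comp_bl {α : Type*} [Primcodable α] {u i : α → ℕ} (hu : Computable u) (hi : Computable i) :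
    Computable fun a => bl (u a) (i a) := by
  have hs : Computable₂ fun (a : α) (q : ℕ × ℕ) => Nat.pair (u a) q.2 + 1 :=
    Computable.succ.comp (comp_natpair (hu.comp Computable.fst) (Computable.snd.comp Computable.snd))
  exact (Computable.nat_rec hi (Computable.const 0) hs).of_eq fun a => (cpp_bl_rec _ _).symm

private theorem cpp_comp_bd {α : Type*} [Primcodable α] {u : α → ℕ} (hu : Computable u) :
    Computable fun a => bd (u a) :=
  Computable.succ.comp (comp_natpair (Computable.const 1) (comp_natpair (cpp_comp_bl hu hu) hu))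

private def cpp_q1 (n : ℕ) (h : Hst) : Hst := h.take n

private def cpp_q2 (n : ℕ) (h : Hst) : Hst := (pp h n).1

private def cpp_cb (n : ℕ) (h : Hst) (y1 y2 : ℕ) : ℕ := Nat.pair (bd (max y1 y2)) (encode (h.take (n + 1)))

private theorem cpp_h1 : Computable₂ cpp_q1 := by
  have h1 : Computable fun p : ℕ × Hst => (p.2).take p.1 := comp_take Computable.fst Computable.snd
  exact h1

private theorem cpp_h2 : Computable₂ cpp_q2 := by
  have h1 : Computable fun p : ℕ × Hst => pp p.2 p.1 := comp_pp Computable.snd Computable.fst
  have h2 : Computable fun p : ℕ × Hst => (pp p.2 p.1).1 := Computable.fst.comp h1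
  exact h2

private theorem cpp_h3 : Computable fun x : (ℕ × Hst) × (ℕ × ℕ) => cpp_cb x.1.1 x.1.2 x.2.1 x.2.2 := by
  have h1 : Computable fun x : (ℕ × Hst) × (ℕ × ℕ) => max x.2.1 x.2.2 :=
    comp_max (Computable.fst.comp Computable.snd) (Computable.snd.comp Computable.snd)
  have h2 : Computable fun x : (ℕ × Hst) × (ℕ × ℕ) => bd (max x.2.1 x.2.2) := cpp_comp_bd h1
  have h3 : Computable fun x : (ℕ × Hst) × (ℕ × ℕ) => x.1.1 + 1 :=
    Computable.succ.comp (Computable.fst.comp Computable.fst)
  have h4 : Computable fun x : (ℕ × Hst) × (ℕ × ℕ) => (x.1.2).take (x.1.1 + 1) :=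
    comp_take h3 (Computable.snd.comp Computable.fst)
  have h5 : Computable fun x : (ℕ × Hst) × (ℕ × ℕ) => encode ((x.1.2).take (x.1.1 + 1)) :=
    Computable.encode.comp h4
  exact comp_natpair h2 h5

private theorem cpp_PP2 : Computable₂ PP :=
  comp_rec2 (base := fun _ => 0) (q1 := cpp_q1) (q2 := cpp_q2) (comb := cpp_cb) (Computable.const 0) cpp_h1 cpp_h2
    cpp_h3 (fun _ => rfl) (fun _ _ => rfl)

theorem comp_PP {α : Type} [Primcodable α] {n : α → ℕ} {h : α → Hst} (hn : Computable n) (hh : Computable h) :
    Computable fun a => PP (n a) (h a) :=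
  cpp_PP2.comp hn hh

theorem comp_hh : Computable hh := by
  have h1 : Computable fun p : ℕ => p.unpair.2 := Computable.snd.comp Computable.unpair
  have h2 : Computable fun p : ℕ => decode (α := Hst) p.unpair.2 := Computable.decode.comp h1
  exact Computable.option_getD h2 (Computable.const [])

theorem comp_ns : Computable ns := by
  have h1 : Computable fun p : ℕ => (hh p).length := Computable.list_length.comp comp_hh
  exact Computable.pred.comp h1

theorem comp_vld : Computable vld := by
  have h0 : Computable fun p : ℕ => (hh p).length := Computable.list_length.comp comp_hh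
  have h1 : Computable fun p : ℕ => Pos (hh p) := comp_PP h0 comp_hh
  have h2 : Computable fun p : ℕ => lnk (lev (hh p) (ns p)) := comp_lnk (comp_lev comp_hh comp_ns)
  exact comp_and (comp_and (comp_decLt (Computable.const 0) h0) (comp_decEq h1 Computable.id)) h2

theorem comp_qk : Computable₂ qk := by
  have h0 : Computable fun x : ℕ × List Bool => hh x.1 := comp_hh.comp Computable.fst
  have h1 : Computable fun x : ℕ × List Bool => ns x.1 := comp_ns.comp Computable.fst
  have h2 : Computable fun x : ℕ × List Bool => gf (ns x.1) (hh x.1) := comp_gf h1 h0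
  have h3 : Computable fun x : ℕ × List Bool => gg (ns x.1) (hh x.1) := comp_gg h1 h0
  have h4 : Computable fun x : ℕ × List Bool => fnl (gf (ns x.1) (hh x.1)) x.2 := comp_fnl h2 Computable.snd
  have h5 : Computable fun x : ℕ × List Bool => (hh x.1).length := Computable.list_length.comp h0
  have h6 : Computable fun x : ℕ × List Bool => VF (hh x.1).length (hh x.1) (fnl (gf (ns x.1) (hh x.1)) x.2) :=
    comp_VF h5 h0 h4
  have h7 : Computable fun x : ℕ × List Bool => gf (ns x.1) (hh x.1) ++ gg (ns x.1) (hh x.1) :=
    Computable.list_append.comp h2 h3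
  have h8 : Computable fun x : ℕ × List Bool => ivc (gf (ns x.1) (hh x.1) ++ gg (ns x.1) (hh x.1)) x.2 :=
    comp_ivc h7 Computable.snd
  exact comp_meet h6 h8

end Pool.Agent.CMD
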