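import Pool.Agent.CMD.Defs

/-!
# CMD/CRC: computability of double recursions

The function is computed by a code obtained from the second recursion theorem.
-/

set_option autoImplicit false

namespace Pool.Agent.CMD

open Encodable Nat.Partrec Pool.Agent.H19 Pool.Agent.AEI Pool.Agent.CMG

section
variable {α β : Type} [Primcodable α] [Primcodable β]

private def rR (q : ℕ → α → α) (k : ((Nat.Partrec.Code × ℕ) × (ℕ × α)) × ℕ) : Part ℕ :=
  k.1.1.1.eval (encode (k.2, q k.2 k.1.2.2))

private def rP (G : (ℕ × α) × (β × β) → β) (x : (ℕ × α) × (ℕ × ℕ)) (y1 : β) : Option ℕ :=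
  (decode (α := β) x.2.2).map fun y2 => encode (G (x.1, (y1, y2)))

private def rQ (G : (ℕ × α) × (β × β) → β) (x : (ℕ × α) × (ℕ × ℕ)) : Option ℕ :=
  (decode (α := β) x.2.1).bind (rP G x)

private def rO (G : (ℕ × α) × (β × β) → β) (m : ((((Nat.Partrec.Code × ℕ) × (ℕ × α)) × ℕ) × ℕ) × ℕ) : Option ℕ :=
  rQ G ((m.1.1.2, m.1.1.1.2.2), (m.1.2, m.2))

private def rS (q2 : ℕ → α → α) (G : (ℕ × α) × (β × β) → β)
    (m : (((Nat.Partrec.Code × ℕ) × (ℕ × α)) × ℕ) × ℕ) : Part ℕ :=
  (rR q2 m.1).bind fun r2 => ((rO G (m, r2) : Option ℕ) : Part ℕ)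

private def rT (q1 q2 : ℕ → α → α) (G : (ℕ × α) × (β × β) → β)
    (k : ((Nat.Partrec.Code × ℕ) × (ℕ × α)) × ℕ) : Part ℕ :=
  (rR q1 k).bind fun r1 => rS q2 G (k, r1)

private def rU (base : α → β) (q1 q2 : ℕ → α → α) (G : (ℕ × α) × (β × β) → β)
    (p : (Nat.Partrec.Code × ℕ) × (ℕ × α)) : Part ℕ :=
  p.2.1.casesOn (Part.some (encode (base p.2.2))) fun n => rT q1 q2 G (p, n)

private def rF (base : α → β) (q1 q2 : ℕ → α → α) (G : (ℕ × α) × (β × β) → β)
    (c : Nat.Partrec.Code) (m : ℕ) : Part ℕ :=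
  ((decode (α := ℕ × α) m : Option (ℕ × α)) : Part (ℕ × α)).bind fun x => rU base q1 q2 G ((c, m), x)

private lemma rR_part {q : ℕ → α → α} (hq : Computable₂ q) : Partrec (rR q) := by
  have hcode : Computable fun k : ((Nat.Partrec.Code × ℕ) × (ℕ × α)) × ℕ => k.1.1.1 :=
    Computable.fst.comp (Computable.fst.comp Computable.fst)
  have ha : Computable fun k : ((Nat.Partrec.Code × ℕ) × (ℕ × α)) × ℕ => k.1.2.2 :=
    Computable.snd.comp (Computable.snd.comp Computable.fst)
  exact Nat.Partrec.Code.eval_part.comp hcode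
      (Computable.encode.comp (Computable.snd.pair (hq.comp Computable.snd ha)))

private lemma rP_comp {G : (ℕ × α) × (β × β) → β} (hc : Computable G) : Computable₂ (rP G) := by
  have d2 : Computable fun m : ((ℕ × α) × (ℕ × ℕ)) × β => (decode (α := β) m.1.2.2) :=
    Computable.decode.comp (Computable.snd.comp (Computable.snd.comp Computable.fst))
  have e1 : Computable fun x : (((ℕ × α) × (ℕ × ℕ)) × β) × β => x.1.1.1 :=
    Computable.fst.comp (Computable.fst.comp Computable.fst)
  have e3 : Computable fun x : (((ℕ × α) × (ℕ × ℕ)) × β) × β => x.1.2 :=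
    Computable.snd.comp Computable.fst
  have e4 : Computable fun x : (((ℕ × α) × (ℕ × ℕ)) × β) × β => G (x.1.1.1, (x.1.2, x.2)) :=
    hc.comp (e1.pair (e3.pair Computable.snd))
  have e5 : Computable fun x : (((ℕ × α) × (ℕ × ℕ)) × β) × β => encode (G (x.1.1.1, (x.1.2, x.2))) :=
    Computable.encode.comp e4
  exact Computable.option_map (f := fun m : ((ℕ × α) × (ℕ × ℕ)) × β => (decode (α := β) m.1.2.2))
    (g := fun m y2 => encode (G (m.1.1, (m.2, y2)))) d2 e5

private lemma rQ_comp {G : (ℕ × α) × (β × β) → β} (hc : Computable G) : Computable (rQ G) := by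
  have d1 : Computable fun m : (ℕ × α) × (ℕ × ℕ) => (decode (α := β) m.2.1) :=
    Computable.decode.comp (Computable.fst.comp Computable.snd)
  exact Computable.option_bind d1 (rP_comp hc)

private lemma rO_comp {G : (ℕ × α) × (β × β) → β} (hc : Computable G) : Computable (rO G) := by
  have e1 : Computable fun m : ((((Nat.Partrec.Code × ℕ) × (ℕ × α)) × ℕ) × ℕ) × ℕ => m.1.1.2 :=
    Computable.snd.comp (Computable.fst.comp Computable.fst)
  have e2 : Computable fun m : ((((Nat.Partrec.Code × ℕ) × (ℕ × α)) × ℕ) × ℕ) × ℕ => m.1.1.1.2.2 :=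
    Computable.snd.comp (Computable.snd.comp (Computable.fst.comp (Computable.fst.comp Computable.fst)))
  have e3 : Computable fun m : ((((Nat.Partrec.Code × ℕ) × (ℕ × α)) × ℕ) × ℕ) × ℕ => m.1.2 :=
    Computable.snd.comp Computable.fst
  exact (rQ_comp hc).comp ((e1.pair e2).pair (e3.pair Computable.snd))

private lemma rS_part {q2 : ℕ → α → α} {G : (ℕ × α) × (β × β) → β} (h2 : Computable₂ q2)
    (hc : Computable G) : Partrec (rS q2 G) := by
  have a1 : Partrec fun m : (((Nat.Partrec.Code × ℕ) × (ℕ × α)) × ℕ) × ℕ => rR q2 m.1 :=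
    (rR_part h2).comp Computable.fst
  have a2 : Partrec fun p : ((((Nat.Partrec.Code × ℕ) × (ℕ × α)) × ℕ) × ℕ) × ℕ =>
      ((rO G p : Option ℕ) : Part ℕ) := (rO_comp hc).ofOption
  exact Partrec.bind a1 a2

private lemma rT_part {q1 q2 : ℕ → α → α} {G : (ℕ × α) × (β × β) → β} (h1 : Computable₂ q1) (h2 : Computable₂ q2)
    (hc : Computable G) : Partrec (rT q1 q2 G) :=
  Partrec.bind (rR_part h1) (rS_part h2 hc)

private lemma rU_part {base : α → β} {q1 q2 : ℕ → α → α} {G : (ℕ × α) × (β × β) → β} (hb : Computable base)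
    (h1 : Computable₂ q1) (h2 : Computable₂ q2) (hc : Computable G) : Partrec (rU base q1 q2 G) :=
  Partrec.nat_casesOn_right (f := fun p : (Nat.Partrec.Code × ℕ) × (ℕ × α) => p.2.1)
    (g := fun p : (Nat.Partrec.Code × ℕ) × (ℕ × α) => encode (base p.2.2))
    (h := fun p n => rT q1 q2 G (p, n)) (Computable.fst.comp Computable.snd)
    (Computable.encode.comp (hb.comp (Computable.snd.comp Computable.snd))) (rT_part h1 h2 hc)

private lemma rF_part {base : α → β} {q1 q2 : ℕ → α → α} {G : (ℕ × α) × (β × β) → β} (hb : Computable base)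
    (h1 : Computable₂ q1) (h2 : Computable₂ q2) (hc : Computable G) : Partrec₂ (rF base q1 q2 G) := by
  have a1 : Partrec fun p : Nat.Partrec.Code × ℕ => ((decode (α := ℕ × α) p.2 : Option (ℕ × α)) : Part (ℕ × α)) :=
    (Computable.decode.comp Computable.snd).ofOption
  exact Partrec.bind (f := fun p : Nat.Partrec.Code × ℕ => ((decode (α := ℕ × α) p.2 : Option (ℕ × α)) : Part (ℕ × α)))
    (g := fun p x => rU base q1 q2 G (p, x)) a1 (rU_part hb h1 h2 hc)

private theorem rec2_aux {E : ℕ → α → β} {base : α → β} {q1 q2 : ℕ → α → α}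
    {G : (ℕ × α) × (β × β) → β} (hb : Computable base) (h1 : Computable₂ q1) (h2 : Computable₂ q2)
    (hc : Computable G) (h0 : ∀ a, E 0 a = base a)
    (hs : ∀ n a, E (n + 1) a = G ((n, a), (E n (q1 n a), E n (q2 n a)))) : Computable₂ E := by
  obtain ⟨c, hcf⟩ := Nat.Partrec.Code.fixed_point₂ (rF_part hb h1 h2 hc)
  have key : ∀ n a, c.eval (encode (n, a)) = Part.some (encode (E n a)) := by
    intro n
    induction n with
    | zero =>
      intro a
      have h3 := congrFun hcf (encode (0, a))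
      rw [h3, rF, encodek, Part.coe_some, Part.bind_some, rU, h0]
      rfl
    | succ n ih =>
      intro a
      have h3 := congrFun hcf (encode (n + 1, a))
      rw [h3, rF, encodek, Part.coe_some, Part.bind_some, rU]
      change (rT q1 q2 G (((c, encode (n + 1, a)), (n + 1, a)), n)) = _
      simp only [rT, rR, rS, rO]
      rw [ih, Part.bind_some, ih, Part.bind_some, rQ, encodek, Option.bind_some, rP, encodek, hs]
      rfl
  have h5 : Partrec fun p : ℕ × α => (c.eval (encode p)).bind fun r => ((decode (α := β) r : Option β) : Part β) :=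
    Partrec.bind (f := fun p : ℕ × α => c.eval (encode p))
      (g := fun _ r => ((decode (α := β) r : Option β) : Part β))
      (Nat.Partrec.Code.eval_part.comp (Computable.const c) Computable.encode)
      (Computable.decode.comp Computable.snd).ofOption
  refine Partrec.of_eq h5 fun p => ?_
  obtain ⟨n, a⟩ := p
  rw [key, Part.bind_some, encodek]
  rfl

end

theorem comp_rec2 {α β : Type} [Primcodable α] [Primcodable β] {E : ℕ → α → β} {base : α → β} {q1 q2 : ℕ → α → α}
    {comb : ℕ → α → β → β → β} (hb : Computable base) (h1 : Computable₂ q1) (h2 : Computable₂ q2)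
    (hc : Computable fun x : (ℕ × α) × (β × β) => comb x.1.1 x.1.2 x.2.1 x.2.2) (h0 : ∀ a, E 0 a = base a)
    (hs : ∀ n a, E (n + 1) a = comb n a (E n (q1 n a)) (E n (q2 n a))) : Computable₂ E :=
  rec2_aux hb h1 h2 hc h0 hs

end Pool.Agent.CMD
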