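import Pool.Agent.CMD.CFA

/-!
# CMD/CVK: computability of the check of a vector

PROOF.  `comp_list_all`, `comp_list_any` (with `comp_range`), `comp_ite`, `comp_fx`, `comp_fir` (with `κ (a, (x, ..)) σ = fx (n a) (L a) x σ`), `comp_getD`, `comp_take`, `comp_decLt`, `comp_decLe`, `comp_decEq`,
`comp_list_filter`, `comp_list_map`, `comp_list_foldl` for the counter.  Write the three conjuncts and the counter as separate private lemmas.
-/

set_option autoImplicit false

namespace Pool.Agent.CMD

open Encodable Nat.Partrec Pool.Agent.H19 Pool.Agent.AEI Pool.Agent.CMG

variable {β : Type} [Primcodable β]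

private theorem cvk_all {f : β → List ℕ} {g : β → ℕ → Bool} (hf : Computable f) (hg : Computable₂ g) :
    Computable fun a => (f a).all (g a) := by
  refine (comp_not (comp_list_any hf (g := fun a b => !(g a b)) (comp_not hg))).of_eq fun a => ?_
  rw [List.all_eq_not_any_not]

/-- `fir (fx n L x) σ` is computable in all arguments -/
private theorem cvk_fir {n x : β → ℕ} {L : β → List Elm} {σ : β → List Bool} (hn : Computable n)
    (hL : Computable L) (hx : Computable x) (hσ : Computable σ) :
    Computable fun a => fir (fx (n a) (L a) (x a)) (σ a) := by
  refine comp_fir (κ := fun a => fx (n a) (L a) (x a)) ?_ hσ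
  exact comp_fx (hn.comp Computable.fst) (hL.comp Computable.fst) (hx.comp Computable.fst) Computable.snd

private theorem cvk_a {k : β → ℕ} {L : β → List Elm} {A σ : β → List Bool}
    (hL : Computable L) (hA : Computable A) (hk : Computable k) (hσ : Computable σ) :
    Computable fun a => (decide ((A a).length = 2 * (L a).length) && decide (k a ≤ (σ a).length)) := by
  refine comp_and (comp_decEq (Computable.list_length.comp hA) ?_) (comp_decLe hk (Computable.list_length.comp hσ))
  exact Primrec.nat_mul.to_comp.comp (Computable.const 2) (Computable.list_length.comp hL)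

private theorem cvk_b {n k : β → ℕ} {L : β → List Elm} {A σ : β → List Bool} (hn : Computable n)
    (hL : Computable L) (hA : Computable A) (hk : Computable k) (hσ : Computable σ) :
    Computable fun a => (List.range (A a).length).all fun x =>
        if (A a).getD x false = true then (fx (n a) (L a) x (σ a)).1
        else (List.range ((σ a).length + 1)).all fun s =>
          !(decide (k a < s) && fir (fx (n a) (L a) x) ((σ a).take s)) := by
  refine cvk_all (comp_range (Computable.list_length.comp hA)) ?_
  have p1 : Computable (Prod.fst : β × ℕ → β) := Computable.fst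
  refine comp_ite (comp_getD (hA.comp p1) Computable.snd) ?_ ?_
  · exact Computable.fst.comp (comp_fx (hn.comp p1) (hL.comp p1) Computable.snd (hσ.comp p1))
  · refine cvk_all (β := β × ℕ) (comp_range (Computable.succ.comp (Computable.list_length.comp (hσ.comp p1)))) ?_
    have q1 : Computable (fun z : (β × ℕ) × ℕ => z.1.1) := Computable.fst.comp Computable.fst
    refine comp_not (comp_and (comp_decLt (hk.comp q1) Computable.snd) ?_)
    exact cvk_fir (hn.comp q1) (hL.comp q1) (Computable.snd.comp Computable.fst)
      (comp_take Computable.snd (hσ.comp q1))

private theorem cvk_c {n k : β → ℕ} {L : β → List Elm} {A σ : β → List Bool} (hn : Computable n)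
    (hL : Computable L) (hA : Computable A) (hk : Computable k) (hσ : Computable σ) :
    Computable fun a => (decide (k a = 0) || (List.range (A a).length).any fun x =>
      !((A a).getD x false) && fir (fx (n a) (L a) x) ((σ a).take (k a))) := by
  refine comp_or (comp_decEq hk (Computable.const 0)) ?_
  refine comp_list_any (comp_range (Computable.list_length.comp hA)) ?_
  have p1 : Computable (Prod.fst : β × ℕ → β) := Computable.fst
  refine comp_and (comp_not (comp_getD (hA.comp p1) Computable.snd)) ?_
  exact cvk_fir (hn.comp p1) (hL.comp p1) Computable.snd (comp_take (hk.comp p1) (hσ.comp p1))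

private theorem cvk_d {n : β → ℕ} {L : β → List Elm} {A σ : β → List Bool} (hn : Computable n)
    (hL : Computable L) (hA : Computable A) (hσ : Computable σ) :
    Computable fun a => (((List.range (A a).length).filter fun x => (A a).getD x false).map
      fun x => (fx (n a) (L a) x (σ a)).2).foldl min (σ a).length := by
  have p1 : Computable (Prod.fst : β × ℕ → β) := Computable.fst
  have h1 : Computable fun a => ((List.range (A a).length).filter fun x => (A a).getD x false).map
      fun x => (fx (n a) (L a) x (σ a)).2 := by
    refine comp_list_map (comp_list_filter (comp_range (Computable.list_length.comp hA)) ?_) ?_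
    · exact comp_getD (hA.comp p1) Computable.snd
    · exact Computable.snd.comp (comp_fx (hn.comp p1) (hL.comp p1) Computable.snd (hσ.comp p1))
  refine comp_list_foldl (h := fun (_ : β) (p : ℕ × ℕ) => min p.1 p.2) h1 (Computable.list_length.comp hσ) ?_
  exact comp_min (Computable.fst.comp Computable.snd) (Computable.snd.comp Computable.snd)

theorem comp_vck {α : Type} [Primcodable α] {n k : α → ℕ} {L : α → List Elm} {A σ : α → List Bool} (hn : Computable n)
    (hL : Computable L) (hA : Computable A) (hk : Computable k) (hσ : Computable σ) :
    Computable fun a => vck (n a) (L a) (A a) (k a) (σ a) :=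
  (comp_and (comp_and (cvk_a hL hA hk hσ) (cvk_b hn hL hA hk hσ)) (cvk_c hn hL hA hk hσ)).pair
    (cvk_d hn hL hA hσ)

end Pool.Agent.CMD
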