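import Pool.Agent.CMD.CLF
import Pool.Agent.CMD.CVK

/-!
# CMD/CVF: computability of the check of a record

PROOF.  `stc`: `comp_and`, `comp_ite`, `comp_decEq` (`Computable.encode`), `comp_decLt`, `comp_Lf`, `comp_pp`, `comp_snk`, `comp_not`.  `VF`: `comp_rec2` with `α = Hst × List Bool`, `E n (h, σ) = VF n h σ`,
`q1 n (h, σ) = (h.take n, σ)`, `q2 n (h, σ) = ((pp h n).1, fnl (gg n h) σ)` and
`comb n (h, σ) y1 y2 = meet (meet (stc n h, σ.length) y1) (meet (vck ..) (if sgl (lev h n).1 = true then meet (ivc ..) (meet y2 (vck ..)) else (true, σ.length)))`.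
-/

set_option autoImplicit false

namespace Pool.Agent.CMD

open Encodable Nat.Partrec Pool.Agent.H19 Pool.Agent.AEI Pool.Agent.CMG

theorem comp_stc {α : Type} [Primcodable α] {n : α → ℕ} {h : α → Hst} (hn : Computable n) (hh : Computable h) :
    Computable fun a => stc (n a) (h a) := by
  have hlev : Computable fun a => lev (h a) (n a) := comp_lev hh hn
  have hpp : Computable fun a => pp (h a) (n a) := comp_pp hh hn
  have hL : Computable fun a => Lf (n a) (pp (h a) (n a)).1 := comp_Lf hn (Computable.fst.comp hpp)
  have h1 : Computable fun a => decide ((h a).length = n a + 1) :=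
    comp_decEq (Computable.list_length.comp hh) (Computable.succ.comp hn)
  have h2 : Computable fun a => decide ((lev (h a) (n a)).2.2 = encode (pp (h a) (n a)) + 1) :=
    comp_decEq (Computable.snd.comp (Computable.snd.comp hlev))
      (Computable.succ.comp (Computable.encode.comp hpp))
  have h3 : Computable fun a => decide ((pp (h a) (n a)).2.2.2 < (Lf (n a) (pp (h a) (n a)).1).length) :=
    comp_decLt (Computable.snd.comp (Computable.snd.comp (Computable.snd.comp hpp)))
      (Computable.list_length.comp hL)
  have h4 : Computable fun a => !(snk (lev (h a) (n a))) := comp_not (comp_snk hlev)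
  have h5 : Computable fun a => decide ((lev (h a) (n a)).2.2 = 0) :=
    comp_decEq (Computable.snd.comp (Computable.snd.comp hlev)) (Computable.const 0)
  have h6 : Computable fun a => sgl (lev (h a) (n a)).1 := comp_sgl (Computable.fst.comp hlev)
  exact comp_and h1 (comp_ite h6 (comp_and (comp_and h2 h3) h4) h5)

/-- the combination of the two recursive values -/
private def cmb (n : ℕ) (a : Hst × List Bool) (y1 y2 : Chk) : Chk :=
  meet (meet (stc n a.1, a.2.length) y1)
    (meet (vck n (Lf n (a.1.take n)) (lev a.1 n).1 (lev a.1 n).2.1 a.2)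
      (if sgl (lev a.1 n).1 = true then
        meet (ivc ((el (Lf n (pp a.1 n).1) (pp a.1 n).2.2.2).2 ++ (el (Lf n (pp a.1 n).1) (pp a.1 n).2.2.2).1)
            (fnl (wl n (Lf n (a.1.take n)) (lev a.1 n).1) a.2))
          (meet y2 (vck n (Lf n (pp a.1 n).1) (pp a.1 n).2.1 (pp a.1 n).2.2.1 (fnl (gg n a.1) a.2)))
      else (true, a.2.length)))

private theorem comp_cmb {α : Type} [Primcodable α] {n : α → ℕ} {h : α → Hst} {σ : α → List Bool}
    {y1 y2 : α → Chk} (hn : Computable n) (hh : Computable h) (hσ : Computable σ) (h1 : Computable y1)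
    (h2 : Computable y2) : Computable fun a => cmb (n a) (h a, σ a) (y1 a) (y2 a) := by
  have hlev : Computable fun a => lev (h a) (n a) := comp_lev hh hn
  have hpp : Computable fun a => pp (h a) (n a) := comp_pp hh hn
  have hL : Computable fun a => Lf (n a) ((h a).take (n a)) := comp_Lf hn (comp_take hn hh)
  have hL' : Computable fun a => Lf (n a) (pp (h a) (n a)).1 := comp_Lf hn (Computable.fst.comp hpp)
  have hlen : Computable fun a => (σ a).length := Computable.list_length.comp hσ
  have hp22 : Computable fun a => (pp (h a) (n a)).2.2 := Computable.snd.comp (Computable.snd.comp hpp)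
  have hel : Computable fun a => el (Lf (n a) (pp (h a) (n a)).1) (pp (h a) (n a)).2.2.2 :=
    comp_el hL' (Computable.snd.comp hp22)
  have hA : Computable fun a => (lev (h a) (n a)).1 := Computable.fst.comp hlev
  have hk : Computable fun a => (lev (h a) (n a)).2.1 := Computable.fst.comp (Computable.snd.comp hlev)
  have c1 : Computable fun a => meet (stc (n a) (h a), (σ a).length) (y1 a) :=
    comp_meet ((comp_stc hn hh).pair hlen) h1
  have c2 : Computable fun a => vck (n a) (Lf (n a) ((h a).take (n a))) (lev (h a) (n a)).1
      (lev (h a) (n a)).2.1 (σ a) := comp_vck hn hL hA hk hσ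
  have c3 : Computable fun a => fnl (wl (n a) (Lf (n a) ((h a).take (n a))) (lev (h a) (n a)).1) (σ a) :=
    comp_fnl (comp_wl hn hL hA) hσ
  have c4 : Computable fun a => (el (Lf (n a) (pp (h a) (n a)).1) (pp (h a) (n a)).2.2.2).2 ++
      (el (Lf (n a) (pp (h a) (n a)).1) (pp (h a) (n a)).2.2.2).1 :=
    Computable.list_append.comp (Computable.snd.comp hel) (Computable.fst.comp hel)
  have c5 := comp_ivc c4 c3
  have c6 : Computable fun a => fnl (gg (n a) (h a)) (σ a) := comp_fnl (comp_gg hn hh) hσ
  have c7 : Computable fun a => vck (n a) (Lf (n a) (pp (h a) (n a)).1) (pp (h a) (n a)).2.1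
      (pp (h a) (n a)).2.2.1 (fnl (gg (n a) (h a)) (σ a)) :=
    comp_vck hn hL' (Computable.fst.comp (Computable.snd.comp hpp)) (Computable.fst.comp hp22) c6
  have c8 : Computable fun a => sgl (lev (h a) (n a)).1 := comp_sgl hA
  have c9 : Computable fun a => ((true, (σ a).length) : Chk) := (Computable.const true).pair hlen
  exact comp_meet c1 (comp_meet c2 (comp_ite c8 (comp_meet c5 (comp_meet h2 c7)) c9))

private theorem comp_VF2 : Computable₂ fun (n : ℕ) (a : Hst × List Bool) => VF n a.1 a.2 := by
  refine comp_rec2 (base := fun a : Hst × List Bool => (decide (a.1.length = 0), a.2.length))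
    (q1 := fun n a => (a.1.take n, a.2)) (q2 := fun n a => ((pp a.1 n).1, fnl (gg n a.1) a.2))
    (comb := cmb) ?_ ?_ ?_ ?_ ?_ ?_
  · exact (comp_decEq (Computable.list_length.comp Computable.fst) (Computable.const 0)).pair
      (Computable.list_length.comp Computable.snd)
  · have hn : Computable fun x : ℕ × (Hst × List Bool) => x.1 := Computable.fst
    have hh : Computable fun x : ℕ × (Hst × List Bool) => x.2.1 := Computable.fst.comp Computable.snd
    have hσ : Computable fun x : ℕ × (Hst × List Bool) => x.2.2 := Computable.snd.comp Computable.snd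
    exact (comp_take hn hh).pair hσ
  · have hn : Computable fun x : ℕ × (Hst × List Bool) => x.1 := Computable.fst
    have hh : Computable fun x : ℕ × (Hst × List Bool) => x.2.1 := Computable.fst.comp Computable.snd
    have hσ : Computable fun x : ℕ × (Hst × List Bool) => x.2.2 := Computable.snd.comp Computable.snd
    exact (Computable.fst.comp (comp_pp hh hn)).pair (comp_fnl (comp_gg hn hh) hσ)
  · have hn : Computable fun x : (ℕ × (Hst × List Bool)) × (Chk × Chk) => x.1.1 :=
      Computable.fst.comp Computable.fst
    have ha : Computable fun x : (ℕ × (Hst × List Bool)) × (Chk × Chk) => x.1.2 :=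
      Computable.snd.comp Computable.fst
    have h1 : Computable fun x : (ℕ × (Hst × List Bool)) × (Chk × Chk) => x.2.1 :=
      Computable.fst.comp Computable.snd
    have h2 : Computable fun x : (ℕ × (Hst × List Bool)) × (Chk × Chk) => x.2.2 :=
      Computable.snd.comp Computable.snd
    exact comp_cmb hn (Computable.fst.comp ha) (Computable.snd.comp ha) h1 h2
  · intro a
    rfl
  · intro n a
    rfl

theorem comp_VF {α : Type} [Primcodable α] {n : α → ℕ} {h : α → Hst} {σ : α → List Bool} (hn : Computable n)
    (hh : Computable h) (hσ : Computable σ) : Computable fun a => VF (n a) (h a) (σ a) :=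
  comp_VF2.comp hn (hh.pair hσ)

end Pool.Agent.CMD
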