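import Pool.Agent.CMG.GLB

/-!
# CMD: the pointer system of the uniquely describable degrees (definitions)

Stage `n` is a triple `(c, (i, j))`.  A sequence `Z` is of type `D` at stage `n` if `fn c Z` is total and
`fn j (fn i Z) = Z`; a sequence `W` is of type `I` if `W = fn i Z` for some `Z` of type `D` with
`Z = fn j W`.  At every stage the sequences are partitioned in finite components of Turing equivalent
sequences; each component has a root.  At stage `n` two components are joined if the first one
contains exactly one sequence `Z` of type `D` and none of type `I`, and the second one contains exactly one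
sequence of type `I`, namely `fn i Z`, and none of type `D`.  Then there is a pointer from the root of
the second one (the sender) to the root of the first one (the receiver).

The record of a root at stage `n` is a list of `n` events.  The event of stage `m` is `(A, (k, r))`:
`A` is the vector of the truth values of all facts on the elements of the component, `k` is the last
stage at which a false fact fires, and, if exactly one fact is true, `r` is one plus the code of
the record of the root of the partner element, of its vector, its last stage and the number of the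
partner element.
-/

set_option autoImplicit false

namespace Pool.Agent.CMD

open Encodable Nat.Partrec Pool.Agent.H19 Pool.Agent.AEI Pool.Agent.CMG

def sc (n : ℕ) : ℕ := n.unpair.1
def si (n : ℕ) : ℕ := n.unpair.2.unpair.1
def sj (n : ℕ) : ℕ := n.unpair.2.unpair.2

/-- Applying a list of functionals, the first one first. -/
def fnl : List ℕ → List Bool → List Bool
  | [], σ => σ
  | e :: l, σ => fnl l (fn e σ)

/-! ### Checks -/

/-- A check has a truth value and a counter. -/
abbrev Chk : Type := Bool × ℕ

def meet (a b : Chk) : Chk := (a.1 && b.1, min a.2 b.2)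

/-- The check for `fnl l X = X`. -/
def ivc (l : List ℕ) (σ : List Bool) : Chk := (isPre (fnl l σ) σ, (fnl l σ).length)

/-- The check `κ` holds at `X`. -/
def Hd (κ : List Bool → Chk) (X : ℕ → Bool) : Prop :=
  (∃ s0, ∀ s ≥ s0, (κ (pre X s)).1 = true) ∧ ∀ N, ∃ s0, ∀ s ≥ s0, N ≤ (κ (pre X s)).2

/-- A check is good if its counter is monotone and if it is eventually true when it is true
infinitely often. -/
structure Gd (κ : List Bool → Chk) : Prop where
  mono : ∀ σ τ, σ <+: τ → (κ σ).2 ≤ (κ τ).2
  len : ∀ σ, (κ σ).2 ≤ σ.length
  per : ∀ X : ℕ → Bool, (∀ N, ∃ s ≥ N, (κ (pre X s)).1 = true) → ∃ s0, ∀ s ≥ s0, (κ (pre X s)).1 = true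

/-- The check `κ` fires at `σ`. -/
def fir (κ : List Bool → Chk) (σ : List Bool) : Bool :=
  (κ σ).1 && decide ((κ σ.dropLast).2 < (κ σ).2)

/-! ### Facts and vectors -/

/-- The facts of stage `n`: type `D` (`t = false`) and type `I` (`t = true`). -/
def fct (n : ℕ) (t : Bool) (z : List Bool) : Chk :=
  if t = true then meet (ivc [sj n, si n] z) (true, (fn (sc n) (fn (sj n) z)).length)
  else meet (ivc [si n, sj n] z) (true, (fn (sc n) z).length)

/-- An element of a component: the way from the root to the element, and back. -/
abbrev Elm : Type := List ℕ × List ℕ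

def el (L : List Elm) (k : ℕ) : Elm := L.getD k ([], [])

/-- Fact number `x`: the element `x / 2` has type `D` (`x` even) or type `I` (`x` odd). -/
def fx (n : ℕ) (L : List Elm) (x : ℕ) (σ : List Bool) : Chk :=
  fct n (decide (x % 2 = 1)) (fnl (el L (x / 2)).1 σ)

/-- The vector `A` with last stage `k` looks right at `σ`. -/
def vck (n : ℕ) (L : List Elm) (A : List Bool) (k : ℕ) (σ : List Bool) : Chk :=
  (((decide (A.length = 2 * L.length) && decide (k ≤ σ.length)) &&
      (List.range A.length).all fun x =>
        if A.getD x false = true then (fx n L x σ).1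
        else (List.range (σ.length + 1)).all fun s =>
          !(decide (k < s) && fir (fx n L x) (σ.take s))) &&
    (decide (k = 0) || (List.range A.length).any fun x =>
      !(A.getD x false) && fir (fx n L x) (σ.take k)),
   (((List.range A.length).filter fun x => A.getD x false).map fun x => (fx n L x σ).2).foldl min
    σ.length)

/-- `A` is the vector of the truth values of the facts at `X`, and `k` the last stage at which a
false fact fires. -/
structure Vec (n : ℕ) (L : List Elm) (A : List Bool) (k : ℕ) (X : ℕ → Bool) : Prop where
  len : A.length = 2 * L.length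
  yes : ∀ x < A.length, A.getD x false = true → Hd (fx n L x) X
  no : ∀ x < A.length, A.getD x false = false → ∀ s > k, fir (fx n L x) (pre X s) = false
  ex : k = 0 ∨ ∃ x < A.length, A.getD x false = false ∧ fir (fx n L x) (pre X k) = true

/-- Exactly one entry of the vector is true. -/
def sgl (A : List Bool) : Bool := decide (A.count true = 1)

/-- The first true entry. -/
def x0 (A : List Bool) : ℕ := A.idxOf true

/-! ### Records -/

/-- Events. -/
abbrev Evt : Type := List Bool × (ℕ × ℕ)

/-- Records. -/
abbrev Hst : Type := List (List Bool × (ℕ × ℕ))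

/-- The information on the partner: record, vector, last stage, number of the element. -/
abbrev PIn : Type := List (List Bool × (ℕ × ℕ)) × (List Bool × (ℕ × ℕ))

def pinf (r : ℕ) : PIn := (decode (α := PIn) (r - 1)).getD ([], ([], (0, 0)))

/-- The event number `n` of the record. -/
def lev (h : Hst) (n : ℕ) : Evt := h.getD n ([], (0, 0))

/-- The information on the partner at stage `n`. -/
def pp (h : Hst) (n : ℕ) : PIn := pinf (lev h n).2.2

/-- The way from the root to the partner element. -/
def wl (n : ℕ) (L : List Elm) (A : List Bool) : List ℕ :=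
  (el L (x0 A / 2)).1 ++ [if x0 A % 2 = 0 then si n else sj n]

/-- The way from the partner element to the root. -/
def wb (n : ℕ) (L : List Elm) (A : List Bool) : List ℕ :=
  (if x0 A % 2 = 0 then sj n else si n) :: (el L (x0 A / 2)).2

/-- The event is a link, seen from the receiver. -/
def lnk (ev : Evt) : Bool :=
  (sgl ev.1 && decide (x0 ev.1 % 2 = 0)) &&
    (sgl (pinf ev.2.2).2.1 && decide (x0 (pinf ev.2.2).2.1 % 2 = 1))

/-- The event is a link, seen from the sender. -/
def snk (ev : Evt) : Bool :=
  (sgl ev.1 && decide (x0 ev.1 % 2 = 1)) &&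
    (sgl (pinf ev.2.2).2.1 && decide (x0 (pinf ev.2.2).2.1 % 2 = 0))

/-- The way from the root to the root of the partner (element number `m` of `L'`). -/
def gl (n : ℕ) (L : List Elm) (A : List Bool) (L' : List Elm) (m : ℕ) : List ℕ :=
  wl n L A ++ (el L' m).2

/-- The way back. -/
def gb (n : ℕ) (L : List Elm) (A : List Bool) (L' : List Elm) (m : ℕ) : List ℕ :=
  (el L' m).1 ++ wb n L A

/-- The elements of the component after the event number `n` of the record `h`. -/
def Lf : ℕ → Hst → List Elm
  | 0, _ => [([], [])]
  | n + 1, h =>
    if lnk (lev h n) = true then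
      Lf n (h.take n) ++ (Lf n (pp h n).1).map fun e =>
        (gl n (Lf n (h.take n)) (lev h n).1 (Lf n (pp h n).1) (pp h n).2.2.2 ++ e.1,
          e.2 ++ gb n (Lf n (h.take n)) (lev h n).1 (Lf n (pp h n).1) (pp h n).2.2.2)
    else Lf n (h.take n)

/-- The way from the root of record `h` to the root of its partner at stage `n`. -/
def gg (n : ℕ) (h : Hst) : List ℕ :=
  gl n (Lf n (h.take n)) (lev h n).1 (Lf n (pp h n).1) (pp h n).2.2.2

/-- The way back. -/
def gf (n : ℕ) (h : Hst) : List ℕ :=
  gb n (Lf n (h.take n)) (lev h n).1 (Lf n (pp h n).1) (pp h n).2.2.2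

/-- The static conditions on a record of length `n + 1`. -/
def stc (n : ℕ) (h : Hst) : Bool :=
  decide (h.length = n + 1) &&
    if sgl (lev h n).1 = true then
      (decide ((lev h n).2.2 = encode (pp h n) + 1) &&
        decide ((pp h n).2.2.2 < (Lf n (pp h n).1).length)) && !(snk (lev h n))
    else decide ((lev h n).2.2 = 0)

/-- The record `h` looks right at `σ`. -/
def VF : ℕ → Hst → List Bool → Chk
  | 0, h, σ => (decide (h.length = 0), σ.length)
  | n + 1, h, σ =>
    meet (meet (stc n h, σ.length) (VF n (h.take n) σ))
      (meet (vck n (Lf n (h.take n)) (lev h n).1 (lev h n).2.1 σ)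
        (if sgl (lev h n).1 = true then
          meet (ivc ((el (Lf n (pp h n).1) (pp h n).2.2.2).2 ++ (el (Lf n (pp h n).1) (pp h n).2.2.2).1)
              (fnl (wl n (Lf n (h.take n)) (lev h n).1) σ))
            (meet (VF n (pp h n).1 (fnl (gg n h) σ))
              (vck n (Lf n (pp h n).1) (pp h n).2.1 (pp h n).2.2.1 (fnl (gg n h) σ)))
        else (true, σ.length)))

/-- `X` is a root at stage `n` with record `h`. -/
def Rt (n : ℕ) (h : Hst) (X : ℕ → Bool) : Prop := Hd (VF n h) X

/-- At stage `n` the sequence `Z` is the element number `k` of the component with root `X`, which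
has the record `h`. -/
structure At (n : ℕ) (Z X : ℕ → Bool) (h : Hst) (k : ℕ) : Prop where
  rt : Rt n h X
  lt : k < (Lf n h).length
  fw : Maps (fnl (el (Lf n h) k).1) X Z
  bw : Maps (fnl (el (Lf n h) k).2) Z X

/-- `Z` is of type `D` at stage `n`, with image `W`. -/
structure TD (n : ℕ) (Z W : ℕ → Bool) : Prop where
  fi : Maps (fn (si n)) Z W
  fj : Maps (fn (sj n)) W Z
  fc : ∃ V, Maps (fn (sc n)) Z V

/-- The event number `n` of the root `X`, when exactly one fact is true: it is a fact on the element
`Z`, with partner element `W`, whose root is `X2`. -/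
structure Pt (n : ℕ) (h : Hst) (X Z W X2 : ℕ → Bool) : Prop where
  az : At n Z X (h.take n) (x0 (lev h n).1 / 2)
  aw : At n W X2 (pp h n).1 (pp h n).2.2.2
  vz : Vec n (Lf n (h.take n)) (lev h n).1 (lev h n).2.1 X
  vw : Vec n (Lf n (pp h n).1) (pp h n).2.1 (pp h n).2.2.1 X2
  td : x0 (lev h n).1 % 2 = 0 → TD n Z W
  ti : x0 (lev h n).1 % 2 = 1 → TD n W Z
  mg : Maps (fnl (gg n h)) X X2
  mf : Maps (fnl (gf n h)) X2 X

/-! ### The system -/

/-- The positions. -/
def PP : ℕ → Hst → ℕ
  | 0, _ => 0
  | n + 1, h => Nat.pair (bd (max (PP n (h.take n)) (PP n (pp h n).1))) (encode (h.take (n + 1)))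

/-- The name of the pointer to the receiver with record `h`. -/
def Pos (h : Hst) : ℕ := PP h.length h

def hh (p : ℕ) : Hst := (decode (α := Hst) p.unpair.2).getD []

/-- The stage of the pointer `p`. -/
def ns (p : ℕ) : ℕ := (hh p).length - 1

def vld (p : ℕ) : Bool :=
  (decide (0 < (hh p).length) && decide (Pos (hh p) = p)) && lnk (lev (hh p) (ns p))

/-- The check for the pointer `p` at the sender. -/
def qk (p : ℕ) (σ : List Bool) : Chk :=
  meet (VF (hh p).length (hh p) (fnl (gf (ns p) (hh p)) σ))
    (ivc (gf (ns p) (hh p) ++ gg (ns p) (hh p)) σ)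

end Pool.Agent.CMD
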