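import Pool.Agent.CMD.COM

/-!
# CMD/FCT: facts

PROOFS.  `Gd_fct`: cases on `t`; `Gd_meet`, `Gd_ivc`, `Gd_tot` (`fn_mono`, `fn_len`).  `Hd_fct_false`: `Hd_meet`, `Hd_ivc`, `Hd_tot`, `maps_cons_iff`, `maps_one_iff`:
`Maps (fnl [si n, sj n]) Z Z` means `Maps (fn (si n)) Z W` and `Maps (fn (sj n)) W Z` for some `W`.  `Hd_fct_true`: the same with `Maps (fnl [sj n, si n]) W W`, which gives `Z` with
`Maps (fn (sj n)) W Z`, `Maps (fn (si n)) Z W`; the last condition is that `fn (sc n) ∘ fn (sj n)` is total at `W`, i.e. (`fn (sj n) (pre W s) = pre Z t`, `maps_pre`, `maps_len`,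
`exists_ext`) that `fn (sc n)` is total at `Z`.  `Gd_fx`: `Gd_comp`.  `Hd_fx`: `Hd_comp`.  `TD.uniq`, `TD.inj`: `fn_uniq`.
-/

set_option autoImplicit false

namespace Pool.Agent.CMD

open Encodable Nat.Partrec Pool.Agent.H19 Pool.Agent.AEI Pool.Agent.CMG

variable {n x : ℕ} {L : List Elm} {X Z W Z' W' : ℕ → Bool}

private theorem FCT_eq_true (n : ℕ) : fct n true =
    fun z => meet (ivc [sj n, si n] z) (true, (fnl [sj n, sc n] z).length) := rfl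

private theorem FCT_eq_false (n : ℕ) : fct n false =
    fun z => meet (ivc [si n, sj n] z) (true, (fnl [sc n] z).length) := rfl

theorem Gd_fct (n : ℕ) (t : Bool) : Gd (fct n t) := by
  cases t
  · rw [FCT_eq_false]
    exact Gd_meet (Gd_ivc _) (Gd_tot (fnl_mono _) (fnl_len _))
  · rw [FCT_eq_true]
    exact Gd_meet (Gd_ivc _) (Gd_tot (fnl_mono _) (fnl_len _))

theorem Hd_fct_false : Hd (fct n false) Z ↔ ∃ W, TD n Z W := by
  rw [FCT_eq_false, Hd_meet, Hd_ivc, Hd_tot (fnl_mono _)]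
  constructor
  · rintro ⟨h1, V, h2⟩
    obtain ⟨W, h3, h4⟩ := maps_cons_iff.1 h1
    exact ⟨W, h3, maps_one_iff.1 h4, V, maps_one_iff.1 h2⟩
  · rintro ⟨W, h1, h2, V, h3⟩
    exact ⟨maps_cons_iff.2 ⟨W, h1, maps_one_iff.2 h2⟩, V, maps_one_iff.2 h3⟩

theorem Hd_fct_true : Hd (fct n true) W ↔ ∃ Z, TD n Z W := by
  rw [FCT_eq_true, Hd_meet, Hd_ivc, Hd_tot (fnl_mono _)]
  constructor
  · rintro ⟨h1, V, h2⟩
    obtain ⟨Z, h3, h4⟩ := maps_cons_iff.1 h1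
    obtain ⟨Z', h5, h6⟩ := maps_cons_iff.1 h2
    have := fn_uniq h3 h5
    subst this
    exact ⟨Z, maps_one_iff.1 h4, h3, V, maps_one_iff.1 h6⟩
  · rintro ⟨Z, h1, h2, V, h3⟩
    exact ⟨maps_cons_iff.2 ⟨Z, h2, maps_one_iff.2 h1⟩, V, maps_cons_iff.2 ⟨Z, h2, maps_one_iff.2 h3⟩⟩

theorem Gd_fx (n : ℕ) (L : List Elm) (x : ℕ) : Gd (fx n L x) :=
  Gd_comp (Gd_fct n (decide (x % 2 = 1))) (el L (x / 2)).1

theorem Hd_fx : Hd (fx n L x) X ↔
    ∃ Z, Maps (fnl (el L (x / 2)).1) X Z ∧ Hd (fct n (decide (x % 2 = 1))) Z :=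
  Hd_comp (Gd_fct n (decide (x % 2 = 1)))

theorem TD.uniq (h : TD n Z W) (h' : TD n Z W') : W = W' := fn_uniq h.fi h'.fi

theorem TD.inj (h : TD n Z W) (h' : TD n Z' W) : Z = Z' := fn_uniq h.fj h'.fj

end Pool.Agent.CMD
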