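import Pool.Agent.CMD.Defs

/-!
# CMD/FNA: lists of functionals

PROOFS.  `fnl_*`: induction on `l` (`fn_mono`, `fn_len` of CMG/GLB).  `maps_nil_iff`: `fnl [] σ = σ`; compare entries (`pre_getElem?`).  `maps_cons_iff`: right to left is `maps_comp` (CMG/LIB);
left to right: the output of `fn e` along `X` is unbounded (`fnl_len`: `|fnl l (fn e σ)| ≤ |fn e σ|`), so by `exists_ext` `Maps (fn e) X Y` for some `Y`; and `fn e (pre X s) = pre Y t`
(`maps_pre`) shows that entry `m` of `fnl l (pre Y t)` is `Z m` for a suitable `t`.  `maps_append_iff`: induction on `l`.  `maps_uniq`: `maps_unique` (H19/Along).  `exists_maps`: `exists_ext`.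
-/

set_option autoImplicit false

namespace Pool.Agent.CMD

open Encodable Nat.Partrec Pool.Agent.H19 Pool.Agent.AEI Pool.Agent.CMG

variable {l l' : List ℕ} {e : ℕ} {X Y Z : ℕ → Bool}

theorem fnl_append (l l' : List ℕ) (σ : List Bool) : fnl (l ++ l') σ = fnl l' (fnl l σ) := by
  induction l generalizing σ with
  | nil => rfl
  | cons e l ih => exact ih _

theorem fnl_mono (l : List ℕ) : ∀ σ τ : List Bool, σ <+: τ → fnl l σ <+: fnl l τ := by
  induction l with
  | nil => exact fun _ _ h => h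
  | cons e l ih => exact fun _ _ h => ih _ _ (fn_mono e h)

theorem fnl_len (l : List ℕ) (σ : List Bool) : (fnl l σ).length ≤ σ.length := by
  induction l generalizing σ with
  | nil => exact le_rfl
  | cons e l ih => exact (ih _).trans (fn_len e σ)

theorem maps_nil_iff : Maps (fnl []) X Y ↔ X = Y := by
  constructor
  · intro h
    exact maps_unique (t := fnl []) (fnl_mono []) (maps_id X) h
  · rintro rfl
    exact maps_id X

theorem maps_cons_iff : Maps (fnl (e :: l)) X Z ↔ ∃ Y, Maps (fn e) X Y ∧ Maps (fnl l) Y Z := by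
  constructor
  · intro h
    obtain ⟨Y, hY⟩ : ∃ Y, Maps (fn e) X Y := by
      refine exists_ext (fun _ _ hp => fn_mono e hp) fun n => ?_
      obtain ⟨s0, hs0⟩ := maps_len (fnl_mono (e :: l)) h n
      exact ⟨s0, (hs0 s0 le_rfl).trans (fnl_len l _)⟩
    refine ⟨Y, hY, fun m => ?_⟩
    obtain ⟨s, hs⟩ := h m
    refine ⟨(fn e (pre X s)).length, ?_⟩
    rw [← maps_pre (fun _ _ hp => fn_mono e hp) hY s]
    exact hs
  · rintro ⟨Y, h1, h2⟩
    exact maps_comp (F := fn e) (fun _ _ hp => fn_mono e hp) (G := fnl l) (fnl_mono l) h1 h2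

theorem maps_one_iff : Maps (fnl [e]) X Y ↔ Maps (fn e) X Y := by
  rw [maps_cons_iff]
  constructor
  · rintro ⟨Z, h1, h2⟩
    rw [maps_nil_iff] at h2
    exact h2 ▸ h1
  · intro h
    exact ⟨Y, h, maps_nil_iff.2 rfl⟩

theorem maps_append_iff : Maps (fnl (l ++ l')) X Z ↔ ∃ Y, Maps (fnl l) X Y ∧ Maps (fnl l') Y Z := by
  induction l generalizing X with
  | nil =>
    constructor
    · intro h
      exact ⟨X, maps_nil_iff.2 rfl, h⟩
    · rintro ⟨Y, h1, h2⟩
      rw [maps_nil_iff] at h1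
      subst h1
      exact h2
  | cons e l ih =>
    rw [List.cons_append, maps_cons_iff]
    constructor
    · rintro ⟨Y, h1, h2⟩
      obtain ⟨W, h3, h4⟩ := ih.1 h2
      exact ⟨W, maps_cons_iff.2 ⟨Y, h1, h3⟩, h4⟩
    · rintro ⟨W, h1, h2⟩
      obtain ⟨Y, h3, h4⟩ := maps_cons_iff.1 h1
      exact ⟨Y, h3, ih.2 ⟨W, h4, h2⟩⟩

theorem maps_uniq (h1 : Maps (fnl l) X Y) (h2 : Maps (fnl l) X Z) : Y = Z := by
  exact maps_unique (fnl_mono l) h1 h2

theorem fn_uniq (h1 : Maps (fn e) X Y) (h2 : Maps (fn e) X Z) : Y = Z := by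
  exact maps_unique (fun _ _ hp => fn_mono e hp) h1 h2

theorem exists_maps (h : ∀ n, ∃ s, n ≤ (fnl l (pre X s)).length) : ∃ Y, Maps (fnl l) X Y := by
  exact exists_ext (fnl_mono l) h

end Pool.Agent.CMD
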