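import Pool.Agent.CMD.Defs

/-!
# CMD/LFA: records and lists of elements

PROOFS.  `lev_*`, `take_app`, `eq_app`: `List.getD_eq_getElem?_getD`, `List.getElem?_take_of_lt`, `List.take_append_of_le_length`, `List.getElem?_append_right`.  `pinf_encode`: `Encodable.encodek`.
`lnk_iff`, `snk_iff`: `Bool.and_eq_true`, `decide_eq_true_iff`.  `Lf_take`: cases `m = 0`, `m = m' + 1` (`lev_take`, `pp_take`, `List.take_take`), no induction needed.  `Lf_not`, `Lf_lnk`:
by definition (`gg`, `gf`).  `Lf_pos`, `el_zero`: induction on `n`, all `h`.  `el_lt`, `el_ge`: `List.getD` of an append and of a map (`List.getElem?_append_left`,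
`List.getElem?_append_right`, `List.getElem?_map`).  `Lf_cases`: cases on `lnk (lev h n)`.
-/

set_option autoImplicit false

namespace Pool.Agent.CMD

open Encodable Nat.Partrec Pool.Agent.H19 Pool.Agent.AEI Pool.Agent.CMG

variable {n m k : ℕ} {h : Hst} {ev : Evt}

theorem lev_take (hm : m < n) : lev (h.take n) m = lev h m := by
  unfold lev
  rw [List.getD_eq_getElem?_getD, List.getD_eq_getElem?_getD, List.getElem?_take_of_lt hm]

theorem pp_take (hm : m < n) : pp (h.take n) m = pp h m := by
  unfold pp
  rw [lev_take hm]

theorem lev_app (hl : h.length = n) : lev (h ++ [ev]) n = ev := by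
  unfold lev
  rw [List.getD_eq_getElem?_getD, List.getElem?_append_right (by omega)]
  simp [hl]

theorem take_app (hl : h.length = n) : (h ++ [ev]).take n = h := by
  rw [List.take_append_of_le_length (by omega), List.take_of_length_le (by omega)]

theorem eq_app (hl : h.length = n + 1) : h = h.take n ++ [lev h n] := by
  apply List.ext_getElem?
  intro i
  have hlt : (h.take n).length = n := by rw [List.length_take]; omega
  rcases lt_trichotomy i n with h1 | h1 | h1
  · rw [List.getElem?_append_left (by omega), List.getElem?_take_of_lt h1]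
  · subst h1
    rw [List.getElem?_append_right (by omega), hlt, Nat.sub_self]
    unfold lev
    rw [List.getD_eq_getElem?_getD, List.getElem?_eq_getElem (by omega)]
    rfl
  · rw [List.getElem?_eq_none (by omega), List.getElem?_eq_none (by
      rw [List.length_append, hlt, List.length_singleton]; omega)]

theorem pinf_encode (P : PIn) : pinf (encode P + 1) = P := by
  unfold pinf
  rw [Nat.add_sub_cancel, Encodable.encodek]
  rfl

theorem lnk_iff : lnk ev = true ↔ sgl ev.1 = true ∧ x0 ev.1 % 2 = 0 ∧
    sgl (pinf ev.2.2).2.1 = true ∧ x0 (pinf ev.2.2).2.1 % 2 = 1 := by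
  unfold lnk
  rw [Bool.and_eq_true, Bool.and_eq_true, Bool.and_eq_true, decide_eq_true_iff, decide_eq_true_iff,
    and_assoc]

theorem snk_iff : snk ev = true ↔ sgl ev.1 = true ∧ x0 ev.1 % 2 = 1 ∧
    sgl (pinf ev.2.2).2.1 = true ∧ x0 (pinf ev.2.2).2.1 % 2 = 0 := by
  unfold snk
  rw [Bool.and_eq_true, Bool.and_eq_true, Bool.and_eq_true, decide_eq_true_iff, decide_eq_true_iff,
    and_assoc]

theorem Lf_take (hm : m ≤ n) : Lf m (h.take n) = Lf m h := by
  cases m with
  | zero => rfl
  | succ m =>
    show (if lnk (lev (h.take n) m) = true then _ else _) = (if lnk (lev h m) = true then _ else _)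
    rw [lev_take (by omega : m < n), pp_take (by omega : m < n), List.take_take,
      min_eq_left (by omega : m ≤ n)]

theorem Lf_not (hk : lnk (lev h n) = false) : Lf (n + 1) h = Lf n (h.take n) := by
  show (if lnk (lev h n) = true then _ else _) = _
  rw [if_neg (by rw [hk]; simp)]

theorem Lf_lnk (hk : lnk (lev h n) = true) : Lf (n + 1) h = Lf n (h.take n) ++
    (Lf n (pp h n).1).map fun e => (gg n h ++ e.1, e.2 ++ gf n h) := by
  show (if lnk (lev h n) = true then _ else _) = _
  rw [if_pos hk]
  rfl

theorem Lf_pos (n : ℕ) (h : Hst) : 0 < (Lf n h).length := by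
  induction n generalizing h with
  | zero => exact Nat.one_pos
  | succ n ih =>
    cases hk : lnk (lev h n)
    · rw [Lf_not hk]
      exact ih _
    · rw [Lf_lnk hk, List.length_append]
      have := ih (h.take n)
      omega

theorem el_zero (n : ℕ) (h : Hst) : el (Lf n h) 0 = ([], []) := by
  induction n generalizing h with
  | zero => rfl
  | succ n ih =>
    cases hk : lnk (lev h n)
    · rw [Lf_not hk]
      exact ih _
    · rw [Lf_lnk hk]
      unfold el
      rw [List.getD_eq_getElem?_getD, List.getElem?_append_left (Lf_pos n _),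
        ← List.getD_eq_getElem?_getD]
      exact ih _

theorem el_lt (hk : k < (Lf n (h.take n)).length) :
    k < (Lf (n + 1) h).length ∧ el (Lf (n + 1) h) k = el (Lf n (h.take n)) k := by
  cases hl : lnk (lev h n)
  · rw [Lf_not hl]
    exact ⟨hk, rfl⟩
  · rw [Lf_lnk hl]
    refine ⟨by rw [List.length_append]; omega, ?_⟩
    unfold el
    rw [List.getD_eq_getElem?_getD, List.getElem?_append_left hk, ← List.getD_eq_getElem?_getD]

theorem el_ge (hl : lnk (lev h n) = true) (hk : k < (Lf n (pp h n).1).length) :
    (Lf n (h.take n)).length + k < (Lf (n + 1) h).length ∧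
      el (Lf (n + 1) h) ((Lf n (h.take n)).length + k) =
        (gg n h ++ (el (Lf n (pp h n).1) k).1, (el (Lf n (pp h n).1) k).2 ++ gf n h) := by
  rw [Lf_lnk hl]
  refine ⟨by rw [List.length_append, List.length_map]; omega, ?_⟩
  unfold el
  rw [List.getD_eq_getElem?_getD, List.getElem?_append_right (by omega), Nat.add_sub_cancel_left,
    List.getElem?_map, List.getD_eq_getElem?_getD, List.getElem?_eq_getElem hk]
  rfl

theorem Lf_cases (hk : k < (Lf (n + 1) h).length) : k < (Lf n (h.take n)).length ∨
    lnk (lev h n) = true ∧ ∃ k2 < (Lf n (pp h n).1).length, k = (Lf n (h.take n)).length + k2 := by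
  cases hl : lnk (lev h n)
  · rw [Lf_not hl] at hk
    exact Or.inl hk
  · rw [Lf_lnk hl, List.length_append, List.length_map] at hk
    by_cases h1 : k < (Lf n (h.take n)).length
    · exact Or.inl h1
    · exact Or.inr ⟨rfl, k - (Lf n (h.take n)).length, by omega, by omega⟩

end Pool.Agent.CMD
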