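import Pool.Agent.CMD.PTB

/-!
# CMD/LKI: a new link

PROOF.  Let `P : PIn := (h', (A', (j', k')))` and `g = h ++ [(A, (j, encode P + 1))]` (`|h| = n`, `Rt_len`).  `g.take n = h` (`take_app`), `lev g n = ..` (`lev_app`), `pp g n = P` (`pinf_encode`).  `lnk (lev g n)`: `lnk_iff` (`x0 A = 2 * k`,
`x0 A' = 2 * k' + 1`).  `Rt (n + 1) g X`: `Rt_succ`; `snk (lev g n) = false` as `x0 A` is even; the witnesses are `W`, `X'`: `wl n (Lf n h) A = (el (Lf n h) k).1 ++ [si n]`, `At.fw`, `TD.fi`,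
`maps_append_iff`, `maps_one_iff`.  `exists_Pt` gives `Pt n g X Z' W' X2`; `Pt.az` and `ha` give `Z' = Z` (`maps_uniq`), so `W' = W` (`Pt.td`, `TD.uniq`), and `Pt.aw`, `hb` give `X2 = X'`
(`At.bw`, `maps_uniq`).
-/

set_option autoImplicit false

namespace Pool.Agent.CMD

open Encodable Nat.Partrec Pool.Agent.H19 Pool.Agent.AEI Pool.Agent.CMG

theorem link_intro {n k k' j j' : ℕ} {h h' : Hst} {A A' : List Bool} {X X' Z W : ℕ → Bool} (hr : Rt n h X)
    (hv : Vec n (Lf n h) A j X) (hs : sgl A = true) (hx : x0 A = 2 * k) (ha : At n Z X h k) (ht : TD n Z W)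
    (hb : At n W X' h' k') (hv' : Vec n (Lf n h') A' j' X') (hs' : sgl A' = true) (hx' : x0 A' = 2 * k' + 1) :
    ∃ g Z' W', Rt (n + 1) g X ∧ g.take n = h ∧ lnk (lev g n) = true ∧ (pp g n).1 = h' ∧ Pt n g X Z' W' X' := by
  have hl : h.length = n := Rt_len hr
  obtain ⟨P, hP⟩ : ∃ P : PIn, P = (h', (A', (j', k'))) := ⟨_, rfl⟩
  obtain ⟨g, hg⟩ : ∃ g : Hst, g = h ++ [(A, (j, encode P + 1))] := ⟨_, rfl⟩
  have hlev : lev g n = (A, (j, encode P + 1)) := by rw [hg]; exact lev_app hl
  have htake : g.take n = h := by rw [hg]; exact take_app hl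
  have hpp : pp g n = P := by
    unfold pp
    rw [hlev]
    exact pinf_encode P
  have hlnk : lnk (lev g n) = true := by
    rw [hlev]
    refine lnk_iff.mpr ⟨hs, ?_, ?_, ?_⟩
    · show x0 A % 2 = 0
      omega
    · show sgl (pinf (encode P + 1)).2.1 = true
      rw [pinf_encode, hP]
      exact hs'
    · show x0 (pinf (encode P + 1)).2.1 % 2 = 1
      rw [pinf_encode, hP]
      show x0 A' % 2 = 1
      omega
  have hsnk : snk ((A, (j, encode P + 1)) : Evt) = false := by
    cases hc : snk ((A, (j, encode P + 1)) : Evt) with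
    | false => rfl
    | true =>
      have h2 := (snk_iff.mp hc).2.1
      have h3 : x0 A % 2 = 1 := h2
      omega
  have hdiv : x0 A / 2 = k := by omega
  have hmod : x0 A % 2 = 0 := by omega
  have hRt : Rt (n + 1) g X := by
    refine Rt_succ.mpr ⟨⟨by rw [hg]; simp [hl], by rw [htake]; exact hr⟩, ?_, ?_, ?_⟩
    · rw [htake, hlev]
      exact hv
    · rw [hlev]
      intro h0
      have h1 : sgl A = false := h0
      rw [hs] at h1
      cases h1
    · intro _
      rw [htake, hlev, hpp]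
      refine ⟨rfl, hsnk, W, X', ?_, ?_, ?_⟩
      · show Maps (fnl (wl n (Lf n h) A)) X W
        unfold wl
        rw [hdiv, if_pos hmod]
        exact maps_append_iff.mpr ⟨Z, ha.fw, maps_one_iff.mpr ht.fi⟩
      · rw [hP]
        exact hb
      · rw [hP]
        exact hv'
  obtain ⟨Z', W', X2, hPt⟩ := exists_Pt hRt (by rw [hlev]; exact hs)
  have haz := hPt.az
  rw [htake, hlev] at haz
  have haz' : At n Z' X h k := by
    have : x0 ((A, (j, encode P + 1)) : Evt).1 / 2 = k := hdiv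
    rw [this] at haz
    exact haz
  have hZ : Z' = Z := maps_uniq haz'.fw ha.fw
  have htd : TD n Z' W' := hPt.td (by rw [hlev]; exact hmod)
  have hW : W' = W := by
    subst hZ
    exact fn_uniq htd.fi ht.fi
  have haw := hPt.aw
  rw [hpp, hP] at haw
  have haw' : At n W' X2 h' k' := haw
  have hX : X2 = X' := by
    subst hW
    exact maps_uniq haw'.bw hb.bw
  subst hX
  exact ⟨g, Z', W', hRt, htake, hlnk, by rw [hpp, hP], hPt⟩

end Pool.Agent.CMD
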