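import Pool.Agent.CMD.CHR
import Pool.Agent.CMD.AUQ

/-!
# CMD/MRG: merging

PROOFS.  `red_At`: `red_fnl` with `At.fw`, `At.bw`.  `merge_one`: `exists_chain_root n Z`: `At n Z X h k`, chain `a`; `exists_chain_root n Y`: `At n Y X' h' k'`, chain `b`.  If `X = X'` we are done.  Let `X ≠ X'`.
`exists_Vec`: `A`, `j` for `X`, `A'`, `j'` for `X'`.  Entry `2 * k` of `A` is true (`At_fact`, `TD n Z Y`), entry `2 * k' + 1` of `A'` is true.
Let entry `x` of `A` be true, `m = x / 2`, `At n Z1 X h m` (`exists_elm`, `Vec.len`); `Z1` and `Z` are both equivalent to `X`.  If `x = 2 * m`: `TD n Z1 V`, so by `hu` `Z1 = Z`, by `At_unique` `m = k`, `x = 2 * k`.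
If `x = 2 * m + 1`: `TD n V Z1`; `V` is equivalent to `Z1` (`TD.fi`, `TD.fj`, `red_fnl` with `maps_one_iff`), so by `hu` `V = Z` and `Z1 = Y` (`TD.uniq`): then `At n Y X h m` and `At n Y X' h' k'`,
against `X ≠ X'` (`At_unique`).  So `sgl A`, `x0 A = 2 * k` (`sgl_intro`).
Let entry `x` of `A'` be true, `At n Z1 X' h' m`; `Z1` is equivalent to `X'`, `Y`, `Z`.  `x = 2 * m`: `Z1 = Z` by `hu`, so `X = X'` by `At_unique`, a contradiction.  `x = 2 * m + 1`: `TD n V Z1`, `V = Z`,
`Z1 = Y`, `m = k'`.  So `sgl A'`, `x0 A' = 2 * k' + 1`.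
`link_intro`, `Q_of`, `chain_snoc`: the chain `b ++ [Pos g]` leads from `Y` to `X`.
-/

set_option autoImplicit false

namespace Pool.Agent.CMD

open Encodable Nat.Partrec Pool.Agent.H19 Pool.Agent.AEI Pool.Agent.CMG

variable {n k : ℕ} {h : Hst} {X Y Z : ℕ → Bool}

theorem red_At (ha : At n Z X h k) : TuringReducible (chi Z) (chi X) ∧ TuringReducible (chi X) (chi Z) := by
  exact ⟨red_fnl ha.fw, red_fnl ha.bw⟩

theorem merge_one (ht : TD n Z Y) (hu : ∀ Z', (∃ V, Maps (fn (sc n)) Z' V) → TuringReducible (chi Z') (chi Z) →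
    TuringReducible (chi Z) (chi Z') → Z' = Z) : ∃ a b R, Chain dsys a Z R ∧ Chain dsys b Y R := by
  obtain ⟨a, X, h, k, hA, hca⟩ := exists_chain_root n Z
  obtain ⟨b, X', h', k', hB, hcb⟩ := exists_chain_root n Y
  by_cases hX : X = X'
  · subst hX
    exact ⟨a, b, X, hca, hcb⟩
  obtain ⟨A, j, hv⟩ := exists_Vec n (Lf n h) X
  obtain ⟨A', j', hv'⟩ := exists_Vec n (Lf n h') X'
  have r1 := red_At hA
  have r2 := red_At hB
  have rZY : TuringReducible (chi Z) (chi Y) := red_fnl (maps_one_iff.2 ht.fj)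
  have rYZ : TuringReducible (chi Y) (chi Z) := red_fnl (maps_one_iff.2 ht.fi)
  have hk : 2 * k < A.length := by
    have := hv.len
    have := hA.lt
    omega
  have hk' : 2 * k' + 1 < A'.length := by
    have := hv'.len
    have := hB.lt
    omega
  have h1 : A.getD (2 * k) false = true := (At_fact hA hv).1.2 ⟨Y, ht⟩
  have h1' : A'.getD (2 * k' + 1) false = true := (At_fact hB hv').2.2 ⟨Z, ht⟩
  have h2 : ∀ x < A.length, A.getD x false = true → x = 2 * k := by
    intro x hx hxt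
    obtain ⟨Z1, hZ1⟩ := exists_elm hA.rt (k := x / 2) (by
      have := hv.len
      omega)
    have hfact := At_fact hZ1 hv
    have r3 := red_At hZ1
    rcases Nat.mod_two_eq_zero_or_one x with hm | hm
    · have hxe : x = 2 * (x / 2) := by omega
      rw [hxe] at hxt
      obtain ⟨V, hV⟩ := hfact.1.1 hxt
      have hZZ : Z1 = Z := hu Z1 hV.fc (r3.1.trans r1.2) (r1.1.trans r3.2)
      subst hZZ
      have := (At_unique hZ1 hA).2.2
      omega
    · have hxe : x = 2 * (x / 2) + 1 := by omega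
      rw [hxe] at hxt
      obtain ⟨V, hV⟩ := hfact.2.1 hxt
      have r4 : TuringReducible (chi V) (chi Z1) := red_fnl (maps_one_iff.2 hV.fj)
      have r5 : TuringReducible (chi Z1) (chi V) := red_fnl (maps_one_iff.2 hV.fi)
      have hVZ : V = Z := hu V hV.fc (r4.trans (r3.1.trans r1.2)) ((r1.1.trans r3.2).trans r5)
      subst hVZ
      have hZY : Z1 = Y := TD.uniq hV ht
      subst hZY
      exact absurd (At_unique hZ1 hB).1 hX
  have h2' : ∀ x < A'.length, A'.getD x false = true → x = 2 * k' + 1 := by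
    intro x hx hxt
    obtain ⟨Z1, hZ1⟩ := exists_elm hB.rt (k := x / 2) (by
      have := hv'.len
      omega)
    have hfact := At_fact hZ1 hv'
    have r3 := red_At hZ1
    have r6 : TuringReducible (chi Z1) (chi Z) := r3.1.trans (r2.2.trans rYZ)
    have r7 : TuringReducible (chi Z) (chi Z1) := (rZY.trans r2.1).trans r3.2
    rcases Nat.mod_two_eq_zero_or_one x with hm | hm
    · have hxe : x = 2 * (x / 2) := by omega
      rw [hxe] at hxt
      obtain ⟨V, hV⟩ := hfact.1.1 hxt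
      have hZZ : Z1 = Z := hu Z1 hV.fc r6 r7
      subst hZZ
      exact absurd (At_unique hA hZ1).1 hX
    · have hxe : x = 2 * (x / 2) + 1 := by omega
      rw [hxe] at hxt
      obtain ⟨V, hV⟩ := hfact.2.1 hxt
      have r4 : TuringReducible (chi V) (chi Z1) := red_fnl (maps_one_iff.2 hV.fj)
      have r5 : TuringReducible (chi Z1) (chi V) := red_fnl (maps_one_iff.2 hV.fi)
      have hVZ : V = Z := hu V hV.fc (r4.trans r6) (r7.trans r5)
      subst hVZ
      have hZY : Z1 = Y := TD.uniq hV ht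
      subst hZY
      have := (At_unique hZ1 hB).2.2
      omega
  obtain ⟨hs, hx⟩ := sgl_intro hk h1 h2
  obtain ⟨hs', hx'⟩ := sgl_intro hk' h1' h2'
  obtain ⟨g, Z', W', g1, -, g3, -, g5⟩ := link_intro hA.rt hv hs hx hA ht hB hv' hs' hx'
  obtain ⟨q1, q2⟩ := Q_of g1 g3 g5
  exact ⟨a, b ++ [Pos g], X, hca, chain_snoc hcb q1 q2⟩

end Pool.Agent.CMD
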