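import Pool.Agent.CMD.Defs
import Pool.Agent.CMG.CA

/-!
# CMD/PI2: one test for countably many

PROOF.  `c m σ = ((List.range (|σ| + 1)).filter fun s => v m (σ.take s)).length` counts the initial segments at which test `m` is true; it is monotone and unbounded along `Q` iff test `m` is true
infinitely often.  `g σ = Nat.findGreatest (fun L => ∀ m < L, L ≤ c m σ) |σ|` (decidable; or with `List.all`) is monotone (`Nat.le_findGreatest`), and it is unbounded along `Q` iff all tests are true
infinitely often.  `t σ = decide (g σ.dropLast < g σ)`: it is true infinitely often along `Q` iff `g` is unbounded along `Q` (`dropLast_pre`; `g` is monotone, natural numbers).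
Computability: `comp_list_filter`, `comp_range`, `comp_take`, `comp_list_all`; `Nat.findGreatest` as `lastI` in CMG/CC (`comp_lastI`), or as the length of a filter.
-/

set_option autoImplicit false

namespace Pool.Agent.CMD

open Encodable Nat.Partrec Pool.Agent.H19 Pool.Agent.AEI Pool.Agent.CMG

private def pcn (v : ℕ → List Bool → Bool) (m : ℕ) (σ : List Bool) : ℕ :=
  ((List.range (σ.length + 1)).filter fun s => v m (σ.take s)).length

private def ptt (v : ℕ → List Bool → Bool) (σ ρ : List Bool) : Bool :=
  (List.range ρ.length).all fun m => decide (ρ.length ≤ pcn v m σ)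

private def pg (v : ℕ → List Bool → Bool) (σ : List Bool) : ℕ := lastI (ptt v σ) σ

private theorem inc_iff {a : ℕ → ℕ} (ha : ∀ s, a s ≤ a (s + 1)) :
    (∀ N, ∃ s ≥ N, a (s - 1) < a s) ↔ ∀ L, ∃ s, L ≤ a s := by
  have hm : Monotone a := monotone_nat_of_le_succ ha
  constructor
  · intro h L
    induction L with
    | zero => exact ⟨0, Nat.zero_le _⟩
    | succ L ih =>
      obtain ⟨s, hs⟩ := ih
      obtain ⟨s', h1, h2⟩ := h (s + 1)
      refine ⟨s', ?_⟩
      have h3 : a s ≤ a (s' - 1) := hm (by omega)
      omega
  · intro h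
    by_contra hc
    push Not at hc
    obtain ⟨N, hN⟩ := hc
    have h1 : ∀ k, a (N + k) ≤ a N := by
      intro k
      induction k with
      | zero => exact le_rfl
      | succ k ih =>
        have h2 := hN (N + (k + 1)) (by omega)
        have h3 : N + (k + 1) - 1 = N + k := by omega
        rw [h3] at h2
        omega
    obtain ⟨s, hs⟩ := h (a N + 1)
    have h4 : a s ≤ a N := by
      rcases le_total s N with h5 | h5
      · exact hm h5
      · obtain ⟨k, rfl⟩ := Nat.exists_eq_add_of_le h5
        exact h1 k
    omega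

private theorem pcn_pre (v : ℕ → List Bool → Bool) (m : ℕ) (Q : ℕ → Bool) (s : ℕ) :
    pcn v m (pre Q s) = ((List.range (s + 1)).filter fun i => v m (pre Q i)).length := by
  unfold pcn
  rw [pre_length]
  congr 1
  apply List.filter_congr
  intro i hi
  have := List.mem_range.1 hi
  rw [pre_take Q (by omega)]

private theorem pcn_succ (v : ℕ → List Bool → Bool) (m : ℕ) (Q : ℕ → Bool) (s : ℕ) :
    pcn v m (pre Q (s + 1)) = pcn v m (pre Q s) + if v m (pre Q (s + 1)) = true then 1 else 0 := by
  rw [pcn_pre, pcn_pre, List.range_succ, List.filter_append, List.length_append]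
  congr 1
  by_cases h : v m (pre Q (s + 1)) = true <;> simp [h]

private theorem pcn_unb (v : ℕ → List Bool → Bool) (m : ℕ) (Q : ℕ → Bool) :
    (∀ N, ∃ s ≥ N, v m (pre Q s) = true) ↔ ∀ L, ∃ s, L ≤ pcn v m (pre Q s) := by
  rw [← inc_iff (a := fun s => pcn v m (pre Q s)) (fun s => by rw [pcn_succ]; omega)]
  constructor
  · intro h N
    obtain ⟨s, hs, h1⟩ := h (N + 1)
    obtain ⟨k, rfl⟩ : ∃ k, s = k + 1 := ⟨s - 1, by omega⟩
    refine ⟨k + 1, by omega, ?_⟩
    show pcn v m (pre Q (k + 1 - 1)) < pcn v m (pre Q (k + 1))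
    rw [Nat.add_sub_cancel, pcn_succ, if_pos h1]
    omega
  · intro h N
    obtain ⟨s, hs, h1⟩ := h (N + 1)
    obtain ⟨k, rfl⟩ : ∃ k, s = k + 1 := ⟨s - 1, by omega⟩
    refine ⟨k + 1, by omega, ?_⟩
    have h2 : pcn v m (pre Q (k + 1 - 1)) < pcn v m (pre Q (k + 1)) := h1
    rw [Nat.add_sub_cancel, pcn_succ] at h2
    by_contra h3
    rw [if_neg h3] at h2
    omega

private theorem ptt_iff (v : ℕ → List Bool → Bool) (σ ρ : List Bool) :
    ptt v σ ρ = true ↔ ∀ m < ρ.length, ρ.length ≤ pcn v m σ := by
  simp [ptt, List.all_eq_true]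

private theorem pg_spec (v : ℕ → List Bool → Bool) (σ : List Bool) :
    ∀ m < pg v σ, pg v σ ≤ pcn v m σ := by
  intro m hm
  have h0 : 0 < lastI (ptt v σ) σ := by
    have : 0 < pg v σ := by omega
    exact this
  have h1 := lastI_spec h0
  have h2 : (σ.take (lastI (ptt v σ) σ)).length = pg v σ := by
    rw [List.length_take, min_eq_left (lastI_le _ _)]
    rfl
  rw [ptt_iff, h2] at h1
  exact h1 m hm

private theorem le_pg {v : ℕ → List Bool → Bool} {σ : List Bool} {L : ℕ} (hL : L ≤ σ.length)
    (h : ∀ m < L, L ≤ pcn v m σ) : L ≤ pg v σ := by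
  refine le_lastI hL ?_
  have h2 : (σ.take L).length = L := by
    rw [List.length_take, min_eq_left hL]
  rw [ptt_iff, h2]
  exact h

private theorem pg_len (v : ℕ → List Bool → Bool) (σ : List Bool) : pg v σ ≤ σ.length :=
  lastI_le _ _

private theorem pg_succ (v : ℕ → List Bool → Bool) (Q : ℕ → Bool) (s : ℕ) :
    pg v (pre Q s) ≤ pg v (pre Q (s + 1)) := by
  refine le_pg ?_ ?_
  · have h := pg_len v (pre Q s)
    rw [pre_length] at h ⊢
    omega
  · intro m hm
    refine (pg_spec v (pre Q s) m hm).trans ?_
    rw [pcn_succ]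
    omega

private theorem comp_pcn {v : ℕ → List Bool → Bool} (hv : Computable₂ v) {α : Type*} [Primcodable α]
    {m : α → ℕ} {σ : α → List Bool} (hm : Computable m) (hσ : Computable σ) :
    Computable fun a => pcn v (m a) (σ a) := by
  have hg : Computable₂ fun (a : α) (s : ℕ) => v (m a) ((σ a).take s) :=
    hv.comp (hm.comp Computable.fst) (comp_take Computable.snd (hσ.comp Computable.fst))
  exact Computable.list_length.comp
    (comp_list_filter (comp_range (Computable.succ.comp (Computable.list_length.comp hσ))) hg)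

private theorem comp_ptt {v : ℕ → List Bool → Bool} (hv : Computable₂ v) : Computable₂ (ptt v) := by
  have hl : Computable fun z : List Bool × List Bool => z.2.length :=
    Computable.list_length.comp Computable.snd
  have hg : Computable₂ fun (z : List Bool × List Bool) (m : ℕ) => decide (z.2.length ≤ pcn v m z.1) :=
    comp_decLe (hl.comp Computable.fst) (comp_pcn hv Computable.snd (Computable.fst.comp Computable.fst))
  exact comp_list_all (comp_range hl) hg

private theorem comp_pg {v : ℕ → List Bool → Bool} (hv : Computable₂ v) : Computable (pg v) :=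
  comp_lastI (comp_ptt hv) Computable.id

private theorem comp_dl' : Computable fun σ : List Bool => σ.dropLast := by
  have h : Computable fun σ : List Bool => σ.take (σ.length - 1) :=
    comp_take (Computable.pred.comp Computable.list_length) Computable.id
  exact h.of_eq fun σ => (List.dropLast_eq_take).symm

theorem exists_one_test {v : ℕ → List Bool → Bool} (hv : Computable₂ v) : ∃ t : List Bool → Bool, Computable t ∧
    ∀ Q : ℕ → Bool, (∀ N, ∃ s ≥ N, t (pre Q s) = true) ↔ ∀ m N, ∃ s ≥ N, v m (pre Q s) = true := by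
  refine ⟨fun σ => decide (pg v σ.dropLast < pg v σ),
    comp_decLt ((comp_pg hv).comp comp_dl') (comp_pg hv), fun Q => ?_⟩
  have h1 : (∀ N, ∃ s ≥ N, decide (pg v (pre Q s).dropLast < pg v (pre Q s)) = true) ↔
      ∀ L, ∃ s, L ≤ pg v (pre Q s) := by
    rw [← inc_iff (a := fun s => pg v (pre Q s)) (pg_succ v Q)]
    simp only [decide_eq_true_eq, dropLast_pre]
  have h2 : (∀ m N, ∃ s ≥ N, v m (pre Q s) = true) ↔ ∀ m L, ∃ s, L ≤ pcn v m (pre Q s) :=
    forall_congr' fun m => pcn_unb v m Q
  rw [h1, h2]
  constructor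
  · intro h m L
    obtain ⟨s, hs⟩ := h (max (m + 1) L)
    refine ⟨s, ?_⟩
    have h3 := pg_spec v (pre Q s) m (by have := le_max_left (m + 1) L; omega)
    have := le_max_right (m + 1) L
    omega
  · intro h L
    choose f hf using h
    have hm : ∀ m, Monotone fun s => pcn v m (pre Q s) := fun m =>
      monotone_nat_of_le_succ fun s => by rw [pcn_succ]; omega
    refine ⟨max L ((Finset.range L).sup fun m => f m L), le_pg ?_ fun m hm' => ?_⟩
    · rw [pre_length]; exact le_max_left _ _
    · refine (hf m L).trans (hm m ?_)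
      refine le_trans ?_ (le_max_right _ _)
      exact Finset.le_sup (f := fun m => f m L) (Finset.mem_range.2 hm')

end Pool.Agent.CMD
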