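import Pool.Agent.CMD.Defs

/-!
# CMD/SGL: vectors with one true entry

PROOFS.  `sgl A = decide (A.count true = 1)`, `x0 A = A.idxOf true`.  `sgl_spec`: `true ∈ A` (`List.count_pos_iff`), so `List.idxOf_lt_length_iff`, `List.getElem_idxOf`; two different places with `true` would
give `2 ≤ A.count true` (e.g. induction on `A`: `List.count_cons`, `List.idxOf_cons`).  `sgl_intro`: induction on `A`, the cases `x = 0` and `x = y + 1`.
-/

set_option autoImplicit false

namespace Pool.Agent.CMD

open Encodable Nat.Partrec Pool.Agent.H19 Pool.Agent.AEI Pool.Agent.CMG

variable {A : List Bool}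

private theorem SGL_mem {A : List Bool} {x : ℕ} (hx : x < A.length) (h : A.getD x false = true) : true ∈ A := by
  rw [List.getD_eq_getElem A false hx] at h
  rw [← h]
  exact List.getElem_mem hx

private theorem SGL_false (A : List Bool) : sgl (false :: A) = sgl A ∧ x0 (false :: A) = x0 A + 1 := by
  constructor
  · unfold sgl
    rw [List.count_cons_of_ne (by decide)]
  · unfold x0
    rw [List.idxOf_cons_ne _ (by decide)]

private theorem SGL_true (A : List Bool) : (sgl (true :: A) = true ↔ true ∉ A) ∧ x0 (true :: A) = 0 := by
  constructor
  · unfold sgl
    rw [List.count_cons_self, decide_eq_true_eq]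
    constructor
    · intro h
      exact List.count_eq_zero.1 (by omega)
    · intro h
      rw [List.count_eq_zero.2 h]
  · unfold x0
    rw [List.idxOf_cons_self]

theorem sgl_spec (h : sgl A = true) : x0 A < A.length ∧ A.getD (x0 A) false = true ∧
    ∀ x < A.length, A.getD x false = true → x = x0 A := by
  induction A with
  | nil => simp [sgl] at h
  | cons a A ih =>
    cases a with
    | false =>
      rw [(SGL_false A).1] at h
      obtain ⟨h1, h2, h3⟩ := ih h
      rw [(SGL_false A).2]
      refine ⟨by rw [List.length_cons]; omega, by rw [List.getD_cons_succ]; exact h2, ?_⟩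
      intro x hx hx1
      cases x with
      | zero => simp at hx1
      | succ x =>
        rw [List.getD_cons_succ] at hx1
        rw [List.length_cons] at hx
        rw [h3 x (by omega) hx1]
    | true =>
      have hA := (SGL_true A).1.1 h
      rw [(SGL_true A).2]
      refine ⟨by rw [List.length_cons]; omega, by rw [List.getD_cons_zero], ?_⟩
      intro x hx hx1
      cases x with
      | zero => rfl
      | succ x =>
        rw [List.getD_cons_succ] at hx1
        rw [List.length_cons] at hx
        exact absurd (SGL_mem (by omega) hx1) hA

theorem sgl_intro {x : ℕ} (hx : x < A.length) (h1 : A.getD x false = true)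
    (h2 : ∀ y < A.length, A.getD y false = true → y = x) : sgl A = true ∧ x0 A = x := by
  induction A generalizing x with
  | nil => simp at hx
  | cons a A ih =>
    cases x with
    | zero =>
      rw [List.getD_cons_zero] at h1
      subst h1
      refine ⟨(SGL_true A).1.2 ?_, (SGL_true A).2⟩
      intro hmem
      obtain ⟨y, hy, hy1⟩ := List.mem_iff_getElem.1 hmem
      have := h2 (y + 1) (by rw [List.length_cons]; omega)
        (by rw [List.getD_cons_succ, List.getD_eq_getElem A false hy]; exact hy1)
      omega
    | succ x =>
      rw [List.getD_cons_succ] at h1
      rw [List.length_cons] at hx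
      cases a with
      | true =>
        have := h2 0 (by rw [List.length_cons]; omega) (by rw [List.getD_cons_zero])
        omega
      | false =>
        have h3 := ih (by omega) h1 (fun y hy hy1 => by
          have := h2 (y + 1) (by rw [List.length_cons]; omega) (by rw [List.getD_cons_succ]; exact hy1)
          omega)
        rw [(SGL_false A).1, (SGL_false A).2, h3.2]
        exact ⟨h3.1, rfl⟩

end Pool.Agent.CMD
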