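import Pool.Agent.CMD.RTB
import Pool.Agent.CMD.SGL

/-!
# CMD/PTA: partners

PROOFS.  `pt_of`: let `A = (lev h n).1`, `L = Lf n (h.take n)`, `x = x0 A` (`sgl_spec`), `m = x / 2 < |L|` (`Vec.len`).  By `hE` there is `Z` with `At n Z X (h.take n) m`.  By `Rt_succ` there are `W`, `X2` with
`Maps (fnl (wl n L A)) X W`, `At n W X2 (pp h n).1 (pp h n).2.2.2` and the vector of `X2`.  If `x` is even then `x = 2 * m`, so by `At_fact` `TD n Z W'` for some `W'`;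
`wl n L A = (el L m).1 ++ [si n]`, so `Maps (fn (si n)) Z W` (`maps_append_iff`, `maps_one_iff`, `maps_uniq`), hence `W' = W`.  `wb n L A = sj n :: (el L m).2`, so
`Maps (fnl (wb n L A)) W X` (`TD.fj`, `At.bw`).  If `x` is odd, `x = 2 * m + 1`: `TD n W' Z`, `wl n L A = (el L m).1 ++ [sj n]`, `W' = W`, `wb n L A = si n :: (el L m).2`.
`mg`: `gg n h = wl .. ++ (el .. ).2`; `mf`: `gf n h = (el ..).1 ++ wb ..` (`At.bw`, `At.fw` of `W`).
`At_snd`: `el_ge`, `maps_append_iff` with `Pt.mg`, `Pt.mf` and `At.fw`, `At.bw`.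
-/

set_option autoImplicit false

namespace Pool.Agent.CMD

open Encodable Nat.Partrec Pool.Agent.H19 Pool.Agent.AEI Pool.Agent.CMG

variable {n k : ℕ} {h : Hst} {X Z W X2 Z' : ℕ → Bool}

theorem pt_of (hE : ∀ k < (Lf n (h.take n)).length, ∃ Z, At n Z X (h.take n) k) (hr : Rt (n + 1) h X)
    (hs : sgl (lev h n).1 = true) : ∃ Z W X2, Pt n h X Z W X2 := by
  obtain ⟨_, hv, _, h4⟩ := Rt_succ.1 hr
  obtain ⟨_, _, W, X2, hwl, haw, hvw⟩ := h4 hs
  obtain ⟨hx1, hx2, _⟩ := sgl_spec hs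
  have hm : x0 (lev h n).1 / 2 < (Lf n (h.take n)).length := by
    have := hv.len
    omega
  obtain ⟨Z, haz⟩ := hE _ hm
  obtain ⟨hf0, hf1⟩ := At_fact haz hv
  obtain ⟨Y, hY1, hY2⟩ := maps_append_iff.1 hwl
  obtain rfl := maps_uniq hY1 haz.fw
  have hY3 := maps_one_iff.1 hY2
  rcases Nat.mod_two_eq_zero_or_one (x0 (lev h n).1) with h0 | h1
  · have e0 : 2 * (x0 (lev h n).1 / 2) = x0 (lev h n).1 := by omega
    rw [e0] at hf0
    obtain ⟨W', hW'⟩ := hf0.1 hx2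
    rw [if_pos h0] at hY3
    obtain rfl := fn_uniq hW'.fi hY3
    refine ⟨Y, W', X2, haz, haw, hv, hvw, fun _ => hW', fun h1 => absurd h1 (by omega), ?_, ?_⟩
    · exact maps_append_iff.2 ⟨W', hwl, haw.bw⟩
    · refine maps_append_iff.2 ⟨W', haw.fw, ?_⟩
      unfold wb
      rw [if_pos h0]
      exact maps_cons_iff.2 ⟨Y, hW'.fj, haz.bw⟩
  · have e1 : 2 * (x0 (lev h n).1 / 2) + 1 = x0 (lev h n).1 := by omega
    rw [e1] at hf1
    obtain ⟨W', hW'⟩ := hf1.1 hx2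
    have h0 : ¬ x0 (lev h n).1 % 2 = 0 := by omega
    rw [if_neg h0] at hY3
    obtain rfl := fn_uniq hW'.fj hY3
    refine ⟨Y, W', X2, haz, haw, hv, hvw, fun h2 => absurd h2 (by omega), fun _ => hW', ?_, ?_⟩
    · exact maps_append_iff.2 ⟨W', hwl, haw.bw⟩
    · refine maps_append_iff.2 ⟨W', haw.fw, ?_⟩
      unfold wb
      rw [if_neg h0]
      exact maps_cons_iff.2 ⟨Y, hW'.fi, haz.bw⟩

theorem At_snd (hr : Rt (n + 1) h X) (hl : lnk (lev h n) = true) (hp : Pt n h X Z' W X2)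
    (ha : At n Z X2 (pp h n).1 k) : At (n + 1) Z X h ((Lf n (h.take n)).length + k) := by
  obtain ⟨h1, h2⟩ := el_ge hl ha.lt
  refine ⟨hr, h1, ?_, ?_⟩
  · rw [h2]
    exact maps_append_iff.2 ⟨X2, hp.mg, ha.fw⟩
  · rw [h2]
    exact maps_append_iff.2 ⟨X2, ha.bw, hp.mf⟩

end Pool.Agent.CMD
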