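import Pool.Agent.CMD.FCT

/-!
# CMD/VCB: the meaning of the check of a vector

PROOF.  Left to right: `len`, `no`, `ex` from the truth value at a large `s` (`(pre X s).take s' = pre X s'` for `s' ≤ s`); `yes`: the truth value of `fx n L x` is true for all large `s`, and its
counter is at least the counter of `vck` (a `foldl min` is at most every entry).  Right to left: finitely many bounds; for the counter: `Nat` minimum of finitely many unbounded monotone
(`Gd_fx`) counters and of `s` (`foldl min` is `≥ N` if the start value and all entries are).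
-/

set_option autoImplicit false

namespace Pool.Agent.CMD

open Encodable Nat.Partrec Pool.Agent.H19 Pool.Agent.AEI Pool.Agent.CMG

private theorem VCB_foldl (l : List ℕ) : ∀ a N : ℕ, N ≤ l.foldl min a ↔ N ≤ a ∧ ∀ b ∈ l, N ≤ b := by
  induction l with
  | nil => intro a N; simp
  | cons c l ih =>
    intro a N
    rw [List.foldl_cons, ih]
    simp only [List.mem_cons, forall_eq_or_imp, le_min_iff]
    tauto

private theorem VCB_cnt {n : ℕ} {L : List Elm} {A : List Bool} {k : ℕ} {σ : List Bool} {N : ℕ} :
    N ≤ (vck n L A k σ).2 ↔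
      N ≤ σ.length ∧ ∀ x < A.length, A.getD x false = true → N ≤ (fx n L x σ).2 := by
  show N ≤ (((List.range A.length).filter fun x => A.getD x false).map fun x => (fx n L x σ).2).foldl min
    σ.length ↔ _
  rw [VCB_foldl]
  simp only [List.mem_map, List.mem_filter, List.mem_range]
  constructor
  · rintro ⟨h1, h2⟩
    exact ⟨h1, fun x hx hA => h2 _ ⟨x, ⟨hx, hA⟩, rfl⟩⟩
  · rintro ⟨h1, h2⟩
    refine ⟨h1, ?_⟩
    rintro b ⟨x, ⟨hx, hA⟩, rfl⟩
    exact h2 x hx hA

private theorem VCB_tr {n : ℕ} {L : List Elm} {A : List Bool} {k : ℕ} {X : ℕ → Bool} {s : ℕ} :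
    (vck n L A k (pre X s)).1 = true ↔ (A.length = 2 * L.length ∧ k ≤ s) ∧
      (∀ x < A.length, (A.getD x false = true → (fx n L x (pre X s)).1 = true) ∧
        (A.getD x false = false → ∀ s' ≤ s, k < s' → fir (fx n L x) (pre X s') = false)) ∧
      (k = 0 ∨ ∃ x < A.length, A.getD x false = false ∧ fir (fx n L x) ((pre X s).take k) = true) := by
  show (((decide (A.length = 2 * L.length) && decide (k ≤ (pre X s).length)) &&
      (List.range A.length).all fun x =>
        if A.getD x false = true then (fx n L x (pre X s)).1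
        else (List.range ((pre X s).length + 1)).all fun s' =>
          !(decide (k < s') && fir (fx n L x) ((pre X s).take s'))) &&
    (decide (k = 0) || (List.range A.length).any fun x =>
      !(A.getD x false) && fir (fx n L x) ((pre X s).take k))) = true ↔ _
  rw [pre_length, Bool.and_eq_true, Bool.and_eq_true, Bool.and_eq_true, Bool.or_eq_true,
    decide_eq_true_iff, decide_eq_true_iff, decide_eq_true_iff, List.all_eq_true, List.any_eq_true,
    and_assoc]
  refine and_congr_right fun _ => and_congr ?_ ?_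
  · refine forall_congr' fun x => ?_
    rw [List.mem_range]
    refine forall_congr' fun _ => ?_
    cases hA : A.getD x false
    · rw [if_neg (by simp), List.all_eq_true]
      constructor
      · intro h
        refine ⟨fun h' => absurd h' (by simp), fun _ s' hs' hk => ?_⟩
        have h1 := h s' (List.mem_range.2 (Nat.lt_succ_of_le hs'))
        rw [pre_take X hs'] at h1
        simpa [hk] using h1
      · rintro ⟨_, h⟩ s' hs'
        have hs'' : s' ≤ s := Nat.le_of_lt_succ (List.mem_range.1 hs')
        rw [pre_take X hs'']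
        by_cases hk : k < s'
        · have := h rfl s' hs'' hk
          simp [this]
        · simp [hk]
    · rw [if_pos rfl]
      simp
  · refine or_congr Iff.rfl ?_
    simp only [List.mem_range, Bool.and_eq_true, Bool.not_eq_true']

private theorem VCB_fin {p : ℕ → ℕ → Prop} (m : ℕ) (h : ∀ x < m, ∃ s0, ∀ s ≥ s0, p x s) :
    ∃ s0, ∀ s ≥ s0, ∀ x < m, p x s := by
  induction m with
  | zero => exact ⟨0, fun s _ x hx => absurd hx (Nat.not_lt_zero x)⟩
  | succ m ih =>
    obtain ⟨s0, h0⟩ := ih fun x hx => h x (by omega)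
    obtain ⟨s1, h1⟩ := h m (Nat.lt_succ_self m)
    refine ⟨max s0 s1, fun s hs x hx => ?_⟩
    rcases Nat.lt_succ_iff_lt_or_eq.1 hx with h2 | h2
    · exact h0 s ((le_max_left _ _).trans hs) x h2
    · rw [h2]
      exact h1 s ((le_max_right _ _).trans hs)

theorem Hd_vck {n : ℕ} {L : List Elm} {A : List Bool} {k : ℕ} {X : ℕ → Bool} :
    Hd (vck n L A k) X ↔ Vec n L A k X := by
  constructor
  · rintro ⟨⟨s0, h0⟩, hc⟩
    refine ⟨(VCB_tr.1 (h0 s0 le_rfl)).1.1, fun x hx hA => ⟨⟨s0, fun s hs => ?_⟩, fun N => ?_⟩,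
      fun x hx hA s hs => ?_, ?_⟩
    · exact ((VCB_tr.1 (h0 s hs)).2.1 x hx).1 hA
    · obtain ⟨s1, h1⟩ := hc N
      exact ⟨s1, fun s hs => (VCB_cnt.1 (h1 s hs)).2 x hx hA⟩
    · exact ((VCB_tr.1 (h0 (max s0 s) (le_max_left _ _))).2.1 x hx).2 hA s (le_max_right _ _) hs
    · have h1 := (VCB_tr.1 (h0 (max s0 k) (le_max_left _ _))).2.2
      rw [pre_take X (le_max_right s0 k)] at h1
      exact h1
  · rintro ⟨hlen, hyes, hno, hex⟩
    refine ⟨?_, fun N => ?_⟩
    · obtain ⟨s0, h0⟩ := VCB_fin (p := fun x s => A.getD x false = true → (fx n L x (pre X s)).1 = true)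
        A.length (fun x hx => by
          by_cases hA : A.getD x false = true
          · obtain ⟨s1, h1⟩ := (hyes x hx hA).1
            exact ⟨s1, fun s hs _ => h1 s hs⟩
          · exact ⟨0, fun s _ h => absurd h hA⟩)
      refine ⟨max s0 k, fun s hs => VCB_tr.2 ⟨⟨hlen, (le_max_right _ _).trans hs⟩, fun x hx =>
        ⟨h0 s ((le_max_left _ _).trans hs) x hx, fun hA s' _ hk => hno x hx hA s' hk⟩, ?_⟩⟩
      rw [pre_take X ((le_max_right s0 k).trans hs)]
      exact hex
    · obtain ⟨s0, h0⟩ := VCB_fin (p := fun x s => A.getD x false = true → N ≤ (fx n L x (pre X s)).2)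
        A.length (fun x hx => by
          by_cases hA : A.getD x false = true
          · obtain ⟨s1, h1⟩ := (hyes x hx hA).2 N
            exact ⟨s1, fun s hs _ => h1 s hs⟩
          · exact ⟨0, fun s _ h => absurd h hA⟩)
      refine ⟨max s0 N, fun s hs => VCB_cnt.2 ⟨?_, fun x hx => h0 s ((le_max_left _ _).trans hs) x hx⟩⟩
      rw [pre_length]
      exact (le_max_right _ _).trans hs

end Pool.Agent.CMD
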