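import Pool.Agent.CMD.VCA
import Pool.Agent.CMD.VCB
import Pool.Agent.CMD.LFA

/-!
# CMD/RTA: the meaning of the check of a record

PROOFS.  `Gd_VF`: induction on `n`, all `h`: `Gd_const`, `Gd_meet`, `Gd_vck`, `Gd_ite`, `Gd_comp` (with `Gd_ivc`, the induction hypothesis, `Gd_vck`).  `Rt_zero`: `Hd_const`.
`Rt_succ`: write `h' = (pp h n).1`, `A' = (pp h n).2.1`, `k' = (pp h n).2.2.1`, `m' = (pp h n).2.2.2`, `e = el (Lf n h') m'`.  `Hd_meet`, `Hd_const`, `Hd_ite`, `Hd_vck`.  If `sgl (lev h n).1` is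
false the last check is a constant and `stc` says `|h| = n + 1` and `(lev h n).2.2 = 0`.  If it is true, `stc` gives `|h| = n + 1`, the code of the partner, `m' < |Lf n h'|`, and
`snk (lev h n) = false`; by `Hd_comp`, `Hd_ivc` the second check says `Maps (fnl wl) X W` and `Maps (fnl (e.2 ++ e.1)) W W`, i.e. (`maps_append_iff`) `Maps (fnl e.2) W X'`,
`Maps (fnl e.1) X' W`; as `gg n h = wl .. ++ e.2`, the third and the fourth check say (`Hd_comp`, `maps_append_iff`, `maps_uniq`) that `Rt n h' X'` and `Vec .. X'`.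
So `At n W X' h' m'` (`fw`: `e.1`, `bw`: `e.2`).
-/

set_option autoImplicit false

namespace Pool.Agent.CMD

open Encodable Nat.Partrec Pool.Agent.H19 Pool.Agent.AEI Pool.Agent.CMG

variable {n : ℕ} {h : Hst} {X : ℕ → Bool}

private theorem VF_succ (n : ℕ) (h : Hst) : VF (n + 1) h = fun σ =>
    meet (meet (stc n h, σ.length) (VF n (h.take n) σ))
      (meet (vck n (Lf n (h.take n)) (lev h n).1 (lev h n).2.1 σ)
        (if sgl (lev h n).1 = true then
          meet (ivc ((el (Lf n (pp h n).1) (pp h n).2.2.2).2 ++ (el (Lf n (pp h n).1) (pp h n).2.2.2).1)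
              (fnl (wl n (Lf n (h.take n)) (lev h n).1) σ))
            (meet (VF n (pp h n).1 (fnl (gg n h) σ))
              (vck n (Lf n (pp h n).1) (pp h n).2.1 (pp h n).2.2.1 (fnl (gg n h) σ)))
        else (true, σ.length))) := rfl

private theorem VF_zero (h : Hst) : VF 0 h = fun σ => (decide (h.length = 0), σ.length) := rfl

theorem Gd_VF (n : ℕ) (h : Hst) : Gd (VF n h) := by
  induction n generalizing h with
  | zero =>
    rw [VF_zero]
    exact Gd_const _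
  | succ n ih =>
    rw [VF_succ]
    exact Gd_meet (Gd_meet (Gd_const _) (ih _)) (Gd_meet (Gd_vck _ _ _ _) (Gd_ite _ (Gd_meet (Gd_comp (Gd_ivc _) _)
      (Gd_meet (Gd_comp (ih _) _) (Gd_comp (Gd_vck _ _ _ _) _))) (Gd_const true)))

theorem Rt_zero : Rt 0 h X ↔ h = [] := by
  unfold Rt
  rw [VF_zero, Hd_const, decide_eq_true_iff, List.length_eq_zero_iff]

theorem Rt_succ : Rt (n + 1) h X ↔ (h.length = n + 1 ∧ Rt n (h.take n) X) ∧
    Vec n (Lf n (h.take n)) (lev h n).1 (lev h n).2.1 X ∧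
    (sgl (lev h n).1 = false → (lev h n).2.2 = 0) ∧
    (sgl (lev h n).1 = true → (lev h n).2.2 = encode (pp h n) + 1 ∧ snk (lev h n) = false ∧
      ∃ W X', Maps (fnl (wl n (Lf n (h.take n)) (lev h n).1)) X W ∧ At n W X' (pp h n).1 (pp h n).2.2.2 ∧
        Vec n (Lf n (pp h n).1) (pp h n).2.1 (pp h n).2.2.1 X') := by
  unfold Rt
  rw [VF_succ, Hd_meet, Hd_meet, Hd_meet, Hd_const, Hd_vck, Hd_ite, Hd_const, Hd_meet, Hd_meet, Hd_comp (Gd_ivc _),
    Hd_comp (Gd_VF _ _), Hd_comp (Gd_vck _ _ _ _)]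
  unfold stc
  cases hs : sgl (lev h n).1 with
  | false =>
    simp only [Bool.false_eq_true, if_false, Bool.and_eq_true, decide_eq_true_iff, false_imp_iff, forall_true_left,
      and_true, imp_true_iff]
    constructor
    · rintro ⟨⟨⟨h1, h2⟩, h3⟩, h4⟩
      exact ⟨⟨h1, h3⟩, h4, h2⟩
    · rintro ⟨⟨h1, h3⟩, h4, h2⟩
      exact ⟨⟨⟨h1, h2⟩, h3⟩, h4⟩
  | true =>
    simp only [if_true, Bool.and_eq_true, decide_eq_true_iff, Bool.true_eq_false, false_imp_iff, true_imp_iff,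
      Bool.not_eq_true', and_true, true_and]
    constructor
    · rintro ⟨⟨⟨h1, ⟨h2, h2'⟩, h2''⟩, h3⟩, h4, ⟨W, hW, hI⟩, ⟨X', hX', hr⟩, ⟨X'', hX'', hv⟩⟩
      refine ⟨⟨h1, h3⟩, h4, h2, h2'', W, X', hW, ?_, ?_⟩
      · rw [Hd_ivc, maps_append_iff] at hI
        obtain ⟨X1, ha, hb⟩ := hI
        have e1 : Maps (fnl (gg n h)) X X1 := by
          unfold gg gl
          rw [maps_append_iff]
          exact ⟨W, hW, ha⟩
        have e2 := maps_uniq e1 hX'
        subst e2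
        exact ⟨hr, h2', hb, ha⟩
      · have e2 := maps_uniq hX' hX''
        subst e2
        exact Hd_vck.1 hv
    · rintro ⟨⟨h1, h3⟩, h4, h2, h2'', W, X', hW, ha, hv⟩
      have e1 : Maps (fnl (gg n h)) X X' := by
        unfold gg gl
        rw [maps_append_iff]
        exact ⟨W, hW, ha.bw⟩
      refine ⟨⟨⟨h1, ⟨h2, ha.lt⟩, h2''⟩, h3⟩, h4, ⟨W, hW, ?_⟩, ⟨X', e1, ha.rt⟩, ⟨X', e1, Hd_vck.2 hv⟩⟩
      rw [Hd_ivc, maps_append_iff]
      exact ⟨X', ha.bw, ha.fw⟩

end Pool.Agent.CMD
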