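import Pool.Agent.CMD.FCT
import Pool.Agent.CMD.FIR

/-!
# CMD/VCC: vectors exist and are unique

PROOFS.  `Vec_true`: left to right is `Vec.yes`; if `A_x` is false then `fx n L x` fires only finitely often (`Vec.no`), so `Hd (fx n L x) X` fails by `fir_inf`.  `Vec_unique`: the lengths agree, the
entries by `Vec_true` (`List.ext_getElem`); if `k < k'` then `Vec.ex` of the second one gives a false fact firing at `k' > k`, against `Vec.no` of the first one.
`exists_Vec`: `A = (List.range (2 * |L|)).map fun x => decide (Hd (fx n L x) X)` (classical); the false facts fire finitely often (`fir_fin`), there are finitely many, so there is a bound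
`B`; `k` = the greatest stage `≤ B` at which a false fact `x < |A|` fires, `0` if there is none (`Nat.findGreatest`).
-/

set_option autoImplicit false

namespace Pool.Agent.CMD

open Encodable Nat.Partrec Pool.Agent.H19 Pool.Agent.AEI Pool.Agent.CMG

variable {n k k' : ℕ} {L : List Elm} {A A' : List Bool} {X : ℕ → Bool}

theorem Vec_true (hv : Vec n L A k X) {x : ℕ} (hx : x < A.length) : A.getD x false = true ↔ Hd (fx n L x) X := by
  constructor
  · intro h
    exact hv.yes x hx h
  · intro h
    by_contra hne
    have hf : A.getD x false = false := by simpa using hne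
    obtain ⟨s, hs, hfir⟩ := (fir_inf (Gd_fx n L x)).mpr h (k + 1)
    rw [hv.no x hx hf s (by omega)] at hfir
    exact absurd hfir (by simp)

theorem Vec_unique (h : Vec n L A k X) (h' : Vec n L A' k' X) : A = A' ∧ k = k' := by
  have hl : A.length = A'.length := by rw [h.len, h'.len]
  have hA : A = A' := by
    refine List.ext_getElem hl fun x hx hx' => ?_
    have h1 := Vec_true h hx
    have h2 := Vec_true h' hx'
    rw [← h2] at h1
    rw [List.getD_eq_getElem _ _ hx, List.getD_eq_getElem _ _ hx'] at h1
    exact Bool.eq_iff_iff.mpr h1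
  subst hA
  refine ⟨rfl, ?_⟩
  rcases lt_trichotomy k k' with hlt | heq | hgt
  · rcases h'.ex with h0 | ⟨x, hx, hf, hfir⟩
    · omega
    · rw [h.no x hx hf k' hlt] at hfir
      exact absurd hfir (by simp)
  · exact heq
  · rcases h.ex with h0 | ⟨x, hx, hf, hfir⟩
    · omega
    · rw [h'.no x hx hf k hgt] at hfir
      exact absurd hfir (by simp)

theorem exists_Vec (n : ℕ) (L : List Elm) (X : ℕ → Bool) : ∃ A k, Vec n L A k X := by
  classical
  set A : List Bool := (List.range (2 * L.length)).map fun x => decide (Hd (fx n L x) X) with hA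
  have hlen : A.length = 2 * L.length := by simp [hA]
  have hget : ∀ x < A.length, A.getD x false = decide (Hd (fx n L x) X) := by
    intro x hx
    rw [List.getD_eq_getElem _ _ hx]
    simp [hA]
  have hfin : ∀ x, ∃ N, ∀ s > N, A.getD x false = false → x < A.length → fir (fx n L x) (pre X s) = false := by
    intro x
    by_cases hx : x < A.length
    · by_cases hh : Hd (fx n L x) X
      · refine ⟨0, fun s _ hf _ => ?_⟩
        rw [hget x hx] at hf
        simp [hh] at hf
      · obtain ⟨N, hN⟩ := fir_fin (Gd_fx n L x) hh
        exact ⟨N, fun s hs _ _ => hN s hs⟩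
    · exact ⟨0, fun s _ _ h => absurd h hx⟩
  choose N hN using hfin
  set B := (Finset.range A.length).sup N with hB
  have hNB : ∀ x < A.length, N x ≤ B := fun x hx => Finset.le_sup (f := N) (Finset.mem_range.mpr hx)
  let Q : ℕ → Prop := fun s => ∃ x < A.length, A.getD x false = false ∧ fir (fx n L x) (pre X s) = true
  refine ⟨A, Nat.findGreatest Q B, hlen, ?_, ?_, ?_⟩
  · intro x hx h
    rw [hget x hx] at h
    exact of_decide_eq_true h
  · intro x hx hf s hs
    by_contra hne
    have ht : fir (fx n L x) (pre X s) = true := by simpa using hne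
    have hsB : s ≤ B := by
      by_contra hlt
      have := hN x s (lt_of_le_of_lt (hNB x hx) (by omega)) hf hx
      rw [this] at ht
      exact absurd ht (by simp)
    have := Nat.le_findGreatest (P := Q) hsB ⟨x, hx, hf, ht⟩
    omega
  · rcases Nat.eq_zero_or_pos (Nat.findGreatest Q B) with h0 | h0
    · exact Or.inl h0
    · exact Or.inr (Nat.findGreatest_of_ne_zero (P := Q) rfl (by omega))

end Pool.Agent.CMD
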