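import Pool.Agent.CMD.RTA
import Pool.Agent.CMD.VCC

/-!
# CMD/RTB: roots, elements, facts

PROOFS.  `Rt_len`: cases on `n`, `Rt_zero`, `Rt_succ`.  `Rt_take`: induction on `n - m` (`Rt_succ`, `List.take_take`; for `m = n` use `Rt_len` and `List.take_length`).  `At_root`: `Lf_pos`,
`el_zero`, `maps_nil_iff`.  `At_fst`: `el_lt`.  `At_fact`: `2 * k < A.length` and `2 * k + 1 < A.length` by `Vec.len` and `At.lt`; `Vec_true`, `Hd_fx` (`(2 * k) / 2 = k`,
`(2 * k) % 2 = 0`, `(2 * k + 1) / 2 = k`, `(2 * k + 1) % 2 = 1`), `maps_uniq` with `At.fw`, `Hd_fct_false`, `Hd_fct_true`.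
-/

set_option autoImplicit false

namespace Pool.Agent.CMD

open Encodable Nat.Partrec Pool.Agent.H19 Pool.Agent.AEI Pool.Agent.CMG

variable {n m k j : ℕ} {h : Hst} {A : List Bool} {X Z : ℕ → Bool}

theorem Rt_len (hr : Rt n h X) : h.length = n := by
  cases n with
  | zero => rw [Rt_zero.1 hr, List.length_nil]
  | succ n => exact (Rt_succ.1 hr).1.1

theorem Rt_take (hr : Rt n h X) (hm : m ≤ n) : Rt m (h.take m) X := by
  induction n generalizing h with
  | zero =>
    obtain rfl : m = 0 := by omega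
    exact Rt_zero.2 List.take_zero
  | succ n ih =>
    rcases Nat.lt_or_ge m (n + 1) with h1 | h1
    · have h2 := ih (Rt_succ.1 hr).1.2 (by omega)
      rwa [List.take_take, min_eq_left (by omega)] at h2
    · obtain rfl : m = n + 1 := by omega
      have h2 := Rt_len hr
      rwa [List.take_of_length_le h2.le]

theorem At_root (hr : Rt n h X) : At n X X h 0 := by
  refine ⟨hr, Lf_pos n h, ?_, ?_⟩
  · rw [el_zero]
    exact maps_nil_iff.2 rfl
  · rw [el_zero]
    exact maps_nil_iff.2 rfl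

theorem At_fst (hr : Rt (n + 1) h X) (ha : At n Z X (h.take n) k) : At (n + 1) Z X h k := by
  obtain ⟨h1, h2⟩ := el_lt (n := n) (h := h) ha.lt
  refine ⟨hr, h1, ?_, ?_⟩
  · rw [h2]
    exact ha.fw
  · rw [h2]
    exact ha.bw

theorem At_fact (ha : At n Z X h k) (hv : Vec n (Lf n h) A j X) :
    (A.getD (2 * k) false = true ↔ ∃ W, TD n Z W) ∧ (A.getD (2 * k + 1) false = true ↔ ∃ W, TD n W Z) := by
  have hl := hv.len
  have h1 := ha.lt
  have e1 : 2 * k / 2 = k := by omega
  have e2 : (2 * k + 1) / 2 = k := by omega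
  have e3 : decide (2 * k % 2 = 1) = false := by
    rw [decide_eq_false_iff_not]
    omega
  have e4 : decide ((2 * k + 1) % 2 = 1) = true := by
    rw [decide_eq_true_iff]
    omega
  constructor
  · rw [Vec_true hv (by omega), Hd_fx, e1, e3]
    constructor
    · rintro ⟨Y, hY, hd⟩
      have := maps_uniq hY ha.fw
      subst this
      exact Hd_fct_false.1 hd
    · intro hd
      exact ⟨Z, ha.fw, Hd_fct_false.2 hd⟩
  · rw [Vec_true hv (by omega), Hd_fx, e2, e4]
    constructor
    · rintro ⟨Y, hY, hd⟩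
      have := maps_uniq hY ha.fw
      subst this
      exact Hd_fct_true.1 hd
    · intro hd
      exact ⟨Z, ha.fw, Hd_fct_true.2 hd⟩

end Pool.Agent.CMD
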