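import Pool.Agent.CMD.CPP

/-!
# CMD/SYS: the pointer system

PROOFS.  `compF`, `compG`: `comp_fnl`, `comp_gf`, `comp_gg`, `comp_ns`, `comp_hh`.  `compq`: `comp_vld`, `comp_fir` with `comp_qk`.  `monoF`, `lenF`: `fnl_mono`, `fnl_len`.
-/

set_option autoImplicit false

namespace Pool.Agent.CMD

open Encodable Nat.Partrec Pool.Agent.H19 Pool.Agent.AEI Pool.Agent.CMG

private theorem SYS_compF : Computable₂ fun (p : ℕ) (σ : List Bool) => fnl (gf (ns p) (hh p)) σ :=
  comp_fnl (comp_gf (comp_ns.comp Computable.fst) (comp_hh.comp Computable.fst)) Computable.snd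

private theorem SYS_compG : Computable₂ fun (p : ℕ) (σ : List Bool) => fnl (gg (ns p) (hh p)) σ :=
  comp_fnl (comp_gg (comp_ns.comp Computable.fst) (comp_hh.comp Computable.fst)) Computable.snd

private theorem SYS_compq : Computable₂ fun (p : ℕ) (σ : List Bool) => vld p && fir (qk p) σ := by
  have h1 : Computable fun a : ℕ × List Bool => fir (qk a.1) a.2 := by
    have h2 : Computable₂ fun (a : ℕ × List Bool) (τ : List Bool) => qk a.1 τ :=
      comp_qk.comp (Computable.fst.comp Computable.fst) Computable.snd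
    exact comp_fir h2 Computable.snd
  exact comp_and (comp_vld.comp Computable.fst) h1

def dsys : PSys where
  F p σ := fnl (gf (ns p) (hh p)) σ
  G p σ := fnl (gg (ns p) (hh p)) σ
  q p σ := vld p && fir (qk p) σ
  compF := SYS_compF
  compG := SYS_compG
  compq := SYS_compq
  monoF p := fnl_mono (gf (ns p) (hh p))
  monoG p := fnl_mono (gg (ns p) (hh p))
  lenF p := fnl_len (gf (ns p) (hh p))
  lenG p := fnl_len (gg (ns p) (hh p))

theorem q_dsys {p : ℕ} {σ : List Bool} : dsys.q p σ = true ↔ vld p = true ∧ fir (qk p) σ = true :=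
  Bool.and_eq_true_iff

theorem F_dsys (p : ℕ) : dsys.F p = fnl (gf (ns p) (hh p)) := rfl

theorem G_dsys (p : ℕ) : dsys.G p = fnl (gg (ns p) (hh p)) := rfl

end Pool.Agent.CMD
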