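import Pool.Agent.CMD.FCT

/-!
# CMD/VCA: the check of a vector is good

PROOF.  The counter of `vck` is the minimum of `|σ|` and of the counters of the true facts: `foldl min` is monotone in every entry and in the start value, and at most the start value (induction on the
list).  `per`: the truth value of `vck` at `pre X s` is a conjunction of: a constant; `k ≤ s` (true for large `s`); for every `x < |A|` with `A_x` true the truth value of `fx n L x`
(if it holds infinitely often it holds eventually, `Gd_fx`); for every `x < |A|` with `A_x` false: `fx n L x` does not fire at `pre X s'` for all `k < s' ≤ s` (if it holds for arbitrarily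
large `s` it holds for all `s`); and a condition on `(pre X s).take k = pre X k`, constant for `s ≥ k`.  There are finitely many `x < |A|`; take the maximum of the bounds (induction on
a bound for `x`).
-/

set_option autoImplicit false

namespace Pool.Agent.CMD

open Encodable Nat.Partrec Pool.Agent.H19 Pool.Agent.AEI Pool.Agent.CMG

private theorem VCA_foldl_le (l : List ℕ) (a : ℕ) : l.foldl min a ≤ a := by
  induction l generalizing a with
  | nil => exact le_rfl
  | cons b l ih => exact (ih (min a b)).trans (min_le_left _ _)

private theorem VCA_foldl_mono (l : List ℕ) (f g : ℕ → ℕ) (hfg : ∀ x, f x ≤ g x) (a b : ℕ) (hab : a ≤ b) :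
    (l.map f).foldl min a ≤ (l.map g).foldl min b := by
  induction l generalizing a b with
  | nil => exact hab
  | cons c l ih => exact ih _ _ (min_le_min hab (hfg c))

private theorem VCA_all {N : ℕ} {Q : ℕ → ℕ → Prop} (h : ∀ x < N, ∃ s0, ∀ s ≥ s0, Q x s) :
    ∃ s0, ∀ s ≥ s0, ∀ x < N, Q x s := by
  induction N with
  | zero => exact ⟨0, fun s _ x hx => absurd hx (Nat.not_lt_zero x)⟩
  | succ N ih =>
    obtain ⟨s1, h1⟩ := ih fun x hx => h x (Nat.lt_succ_of_lt hx)
    obtain ⟨s2, h2⟩ := h N (Nat.lt_succ_self N)
    refine ⟨max s1 s2, fun s hs x hx => ?_⟩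
    rcases Nat.lt_succ_iff_lt_or_eq.1 hx with h3 | h3
    · exact h1 s ((le_max_left _ _).trans hs) x h3
    · subst h3
      exact h2 s ((le_max_right _ _).trans hs)

private def VCA_t (n : ℕ) (L : List Elm) (A : List Bool) (k x : ℕ) (σ : List Bool) : Bool :=
  if A.getD x false = true then (fx n L x σ).1
        else (List.range (σ.length + 1)).all fun s =>
          !(decide (k < s) && fir (fx n L x) (σ.take s))

private def VCA_u (n : ℕ) (L : List Elm) (A : List Bool) (k : ℕ) (σ : List Bool) : Bool :=
  decide (k = 0) || (List.range A.length).any fun x =>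
      !(A.getD x false) && fir (fx n L x) (σ.take k)

private theorem VCA_truth (n : ℕ) (L : List Elm) (A : List Bool) (k : ℕ) (σ : List Bool) :
    (vck n L A k σ).1 = true ↔ ((A.length = 2 * L.length ∧ k ≤ σ.length) ∧
      ∀ x < A.length, VCA_t n L A k x σ = true) ∧ VCA_u n L A k σ = true := by
  show (((decide (A.length = 2 * L.length) && decide (k ≤ σ.length)) &&
      (List.range A.length).all fun x => VCA_t n L A k x σ) && VCA_u n L A k σ) = true ↔ _
  rw [Bool.and_eq_true, Bool.and_eq_true, Bool.and_eq_true, decide_eq_true_iff, decide_eq_true_iff,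
    List.all_eq_true]
  simp only [List.mem_range]

private theorem VCA_t_false {n : ℕ} {L : List Elm} {A : List Bool} {k x : ℕ} {σ : List Bool}
    (h : A.getD x false = false) : VCA_t n L A k x σ = true ↔
      ∀ s ≤ σ.length, k < s → fir (fx n L x) (σ.take s) = false := by
  unfold VCA_t
  rw [if_neg (by rw [h]; exact Bool.false_ne_true), List.all_eq_true]
  constructor
  · intro h1 s hs hk
    have := h1 s (List.mem_range.2 (Nat.lt_succ_of_le hs))
    simpa [hk] using this
  · intro h1 s hs
    have hs' := Nat.le_of_lt_succ (List.mem_range.1 hs)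
    by_cases hk : k < s
    · simp [h1 s hs' hk]
    · simp [hk]

theorem Gd_vck (n : ℕ) (L : List Elm) (A : List Bool) (k : ℕ) : Gd (vck n L A k) where
  mono σ τ h := by
    refine VCA_foldl_mono _ _ _ (fun x => ?_) _ _ h.length_le
    exact (Gd_fx n L x).mono σ τ h
  len σ := VCA_foldl_le _ _
  per X h := by
    have h1 : ∀ N, ∃ s ≥ N, ((A.length = 2 * L.length ∧ k ≤ (pre X s).length) ∧
      ∀ x < A.length, VCA_t n L A k x (pre X s) = true) ∧ VCA_u n L A k (pre X s) = true := by
      intro N
      obtain ⟨s, hs, hs1⟩ := h N
      exact ⟨s, hs, (VCA_truth n L A k (pre X s)).1 hs1⟩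
    have hlen : A.length = 2 * L.length := by
      obtain ⟨s, -, hs⟩ := h1 0
      exact hs.1.1.1
    have hu : ∀ s ≥ k, VCA_u n L A k (pre X s) = true := by
      obtain ⟨s, hs, hs1⟩ := h1 k
      intro t ht
      have e1 := hs1.2
      unfold VCA_u at e1 ⊢
      rw [pre_take X hs] at e1
      rw [pre_take X ht]
      exact e1
    have ht : ∀ x < A.length, ∃ s0, ∀ s ≥ s0, VCA_t n L A k x (pre X s) = true := by
      intro x hx
      cases hA : A.getD x false with
      | true =>
        have h2 := (Gd_fx n L x).per X fun N => by
          obtain ⟨s, hs, hs1⟩ := h1 N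
          refine ⟨s, hs, ?_⟩
          have h3 := hs1.1.2 x hx
          unfold VCA_t at h3
          rw [if_pos hA] at h3
          exact h3
        obtain ⟨s0, h3⟩ := h2
        refine ⟨s0, fun s hs => ?_⟩
        unfold VCA_t
        rw [if_pos hA]
        exact h3 s hs
      | false =>
        refine ⟨0, fun s _ => ?_⟩
        rw [VCA_t_false hA]
        intro s' hs' hk
        obtain ⟨t, ht, ht1⟩ := h1 s
        have h3 := (VCA_t_false hA).1 (ht1.1.2 x hx) s' (by
          rw [pre_length] at hs' ⊢
          omega) hk
        rw [pre_length] at hs'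
        rw [pre_take X hs']
        rw [pre_take X (hs'.trans ht)] at h3
        exact h3
    obtain ⟨s0, h0⟩ := VCA_all ht
    refine ⟨max s0 k, fun s hs => ?_⟩
    rw [VCA_truth]
    refine ⟨⟨⟨hlen, ?_⟩, fun x hx => h0 s ((le_max_left _ _).trans hs) x hx⟩, hu s ((le_max_right _ _).trans hs)⟩
    rw [pre_length]
    exact (le_max_right _ _).trans hs

end Pool.Agent.CMD
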